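import Pool.Agent.RDf.Defs

/-! Kernel estimates: modules KA - KF. -/

set_option autoImplicit false

namespace Pool.Agent.RDf

open Finset

private theorem ka_sin (φ : ℝ) : 2 * nrm φ ≤ |Real.sin (Real.pi * φ)| := by
  have h1 : |φ - round φ| ≤ 1 / 2 := abs_sub_round φ
  have h2 : |Real.sin (Real.pi * φ)| = |Real.sin (Real.pi * (φ - round φ))| := by
    have h0 : Real.pi * φ = Real.pi * (φ - round φ) + ((round φ : ℤ) : ℝ) * Real.pi := by ring
    conv_lhs => rw [h0]
    rw [Real.sin_add_int_mul_pi, abs_mul]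
    simp
  rw [h2]
  have h3 : |Real.pi * (φ - round φ)| ≤ Real.pi / 2 := by
    rw [abs_mul, abs_of_pos Real.pi_pos]
    nlinarith [Real.pi_pos]
  have h4 := Real.mul_abs_le_abs_sin h3
  rw [abs_mul, abs_of_pos Real.pi_pos] at h4
  have h5 : 2 / Real.pi * (Real.pi * |φ - round φ|) = 2 * |φ - round φ| := by
    field_simp
  unfold nrm
  linarith

private theorem ka_tel (a b : ℕ) (hab : a ≤ b) (φ : ℝ) :
    2 * Real.sin (Real.pi * φ) * ∑ n ∈ Icc a b, Real.cos (2 * Real.pi * n * φ)
      = Real.sin (2 * Real.pi * b * φ + Real.pi * φ)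
        - Real.sin (2 * Real.pi * a * φ - Real.pi * φ) := by
  induction b, hab using Nat.le_induction with
  | base =>
    simp only [Icc_self, sum_singleton]
    rw [Real.sin_add, Real.sin_sub]; ring
  | succ b hb ih =>
    rw [Finset.sum_Icc_succ_top (by omega), mul_add, ih]
    have h1 : Real.sin (2 * Real.pi * b * φ + Real.pi * φ)
        = Real.sin (2 * Real.pi * ((b + 1 : ℕ) : ℝ) * φ - Real.pi * φ) := by
      congr 1; push_cast; ring
    rw [h1, Real.sin_sub (2 * Real.pi * ((b + 1 : ℕ) : ℝ) * φ) (Real.pi * φ), Real.sin_add]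
    ring

/-- module KA. `|sum_{a <= n <= b} cos(2 pi n φ)| <= 1/|sin(pi φ)| <= 1/(2 nrm φ)`. -/
theorem dirichlet (a b : ℕ) (φ : ℝ) (hφ : 0 < nrm φ) :
    |∑ n ∈ Icc a b, Real.cos (2 * Real.pi * n * φ)| ≤ 1 / (2 * nrm φ) := by
  rcases Nat.lt_or_ge b a with hba | hab
  · rw [Finset.Icc_eq_empty (by omega)]
    simp only [sum_empty, abs_zero]
    positivity
  · rw [le_div_iff₀ (by positivity)]
    have h1 := ka_sin φ
    have h2 := ka_tel a b hab φ
    set S := ∑ n ∈ Icc a b, Real.cos (2 * Real.pi * n * φ) with hS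
    have h3 : |2 * Real.sin (Real.pi * φ) * S| ≤ 2 := by
      rw [h2, abs_le]
      have e1 := Real.neg_one_le_sin (2 * Real.pi * b * φ + Real.pi * φ)
      have e2 := Real.sin_le_one (2 * Real.pi * b * φ + Real.pi * φ)
      have e3 := Real.neg_one_le_sin (2 * Real.pi * a * φ - Real.pi * φ)
      have e4 := Real.sin_le_one (2 * Real.pi * a * φ - Real.pi * φ)
      constructor <;> linarith
    rw [abs_mul, abs_mul, abs_two] at h3
    have h4 : |S| * (2 * nrm φ) ≤ |S| * |Real.sin (Real.pi * φ)| :=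
      mul_le_mul_of_nonneg_left h1 (abs_nonneg S)
    linarith

/-- module KB. Abel summation. -/
theorem tail (a b : ℕ) (ha : 1 ≤ a) (φ : ℝ) (hφ : 0 < nrm φ) :
    |∑ n ∈ Icc a b, Real.cos (2 * Real.pi * n * φ) / (n : ℝ)| ≤ 1 / ((a : ℝ) * nrm φ) := by
  have ha' : (0 : ℝ) < a := by exact_mod_cast ha
  rcases Nat.lt_or_ge b a with hba | hab
  · rw [Finset.Icc_eq_empty (by omega)]
    simp only [sum_empty, abs_zero]
    positivity
  · set M : ℝ := 1 / (2 * nrm φ) with hM
    have hM0 : 0 ≤ M := by positivity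
    have key : ∀ b : ℕ, a ≤ b →
        |∑ n ∈ Icc a b, Real.cos (2 * Real.pi * n * φ) / (n : ℝ)
          - (∑ n ∈ Icc a b, Real.cos (2 * Real.pi * n * φ)) / (b : ℝ)|
          ≤ M * (1 / (a : ℝ) - 1 / (b : ℝ)) := by
      intro b hb
      induction b, hb using Nat.le_induction with
      | base => simp
      | succ b hb ih =>
        have hb' : (0 : ℝ) < b := by
          have : (a : ℝ) ≤ b := by exact_mod_cast hb
          linarith
        rw [Finset.sum_Icc_succ_top (by omega), Finset.sum_Icc_succ_top (by omega)]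
        set T := ∑ n ∈ Icc a b, Real.cos (2 * Real.pi * n * φ) / (n : ℝ) with hT
        have hS := dirichlet a b φ hφ
        set S := ∑ n ∈ Icc a b, Real.cos (2 * Real.pi * n * φ) with hSdef
        have e1 : T + Real.cos (2 * Real.pi * ((b + 1 : ℕ) : ℝ) * φ) / ((b + 1 : ℕ) : ℝ)
            - (S + Real.cos (2 * Real.pi * ((b + 1 : ℕ) : ℝ) * φ)) / ((b + 1 : ℕ) : ℝ)
            = (T - S / (b : ℝ)) + S * (1 / (b : ℝ) - 1 / ((b + 1 : ℕ) : ℝ)) := by
          ring
        rw [e1]
        have e2 : 0 ≤ 1 / (b : ℝ) - 1 / ((b + 1 : ℕ) : ℝ) := by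
          have : 1 / ((b + 1 : ℕ) : ℝ) ≤ 1 / (b : ℝ) := by
            apply one_div_le_one_div_of_le hb'
            push_cast; linarith
          linarith
        calc |(T - S / (b : ℝ)) + S * (1 / (b : ℝ) - 1 / ((b + 1 : ℕ) : ℝ))|
            ≤ |T - S / (b : ℝ)| + |S * (1 / (b : ℝ) - 1 / ((b + 1 : ℕ) : ℝ))| := abs_add_le _ _
          _ = |T - S / (b : ℝ)| + |S| * (1 / (b : ℝ) - 1 / ((b + 1 : ℕ) : ℝ)) := by
              rw [abs_mul, abs_of_nonneg e2]
          _ ≤ M * (1 / (a : ℝ) - 1 / (b : ℝ)) + M * (1 / (b : ℝ) - 1 / ((b + 1 : ℕ) : ℝ)) :=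
              add_le_add ih (mul_le_mul_of_nonneg_right hS e2)
          _ = M * (1 / (a : ℝ) - 1 / ((b + 1 : ℕ) : ℝ)) := by ring
    have h1 := key b hab
    have hb' : (0 : ℝ) < b := by
      have : (a : ℝ) ≤ b := by exact_mod_cast hab
      linarith
    have hS := dirichlet a b φ hφ
    set T := ∑ n ∈ Icc a b, Real.cos (2 * Real.pi * n * φ) / (n : ℝ) with hT
    set S := ∑ n ∈ Icc a b, Real.cos (2 * Real.pi * n * φ) with hSdef
    have h2 : |T| ≤ |T - S / (b : ℝ)| + |S / (b : ℝ)| := by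
      have := abs_add_le (T - S / (b : ℝ)) (S / (b : ℝ))
      rwa [sub_add_cancel] at this
    have h3 : |S / (b : ℝ)| ≤ M * (1 / (b : ℝ)) := by
      rw [abs_div, abs_of_pos hb', div_eq_mul_one_div]
      exact mul_le_mul_of_nonneg_right hS (by positivity)
    have h4 : |T| ≤ M * (1 / (a : ℝ)) := by
      calc |T| ≤ M * (1 / (a : ℝ) - 1 / (b : ℝ)) + M * (1 / (b : ℝ)) := by linarith
        _ = M * (1 / (a : ℝ)) := by ring
    refine h4.trans ?_
    have h7 : 0 < 1 / ((a : ℝ) * nrm φ) := by positivity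
    have h8 : M * (1 / (a : ℝ)) = (1 / 2) * (1 / ((a : ℝ) * nrm φ)) := by
      rw [hM]; field_simp
    rw [h8]
    linarith

/-- module KC. -/
theorem harm (a b : ℕ) (ha : 1 ≤ a) (hab : a ≤ b) :
    |∑ n ∈ Icc a b, 1 / (n : ℝ) - Real.log ((b : ℝ) / (a : ℝ))| ≤ 1 := by
  have ha' : (1 : ℝ) ≤ a := by exact_mod_cast ha
  have ha0 : (0 : ℝ) < a := by linarith
  have key : Real.log (((b : ℝ) + 1) / a) ≤ ∑ n ∈ Icc a b, 1 / (n : ℝ) ∧
      ∑ n ∈ Icc a b, 1 / (n : ℝ) ≤ 1 / (a : ℝ) + Real.log ((b : ℝ) / a) := by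
    induction b, hab using Nat.le_induction with
    | base =>
      simp only [Icc_self, sum_singleton]
      constructor
      · have := Real.log_le_sub_one_of_pos (x := ((a : ℝ) + 1) / a) (by positivity)
        have e : ((a : ℝ) + 1) / a - 1 = 1 / a := by field_simp; ring
        linarith
      · rw [div_self ha0.ne', Real.log_one]; simp
    | succ b hb ih =>
      have hb0 : (0 : ℝ) < b := by
        have : (a : ℝ) ≤ b := by exact_mod_cast hb
        linarith
      rw [Finset.sum_Icc_succ_top (by omega)]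
      push_cast
      constructor
      · have h1 := Real.log_le_sub_one_of_pos (x := ((b : ℝ) + 1 + 1) / (b + 1)) (by positivity)
        have e : ((b : ℝ) + 1 + 1) / (b + 1) - 1 = 1 / (b + 1) := by field_simp; ring
        have e2 : Real.log (((b : ℝ) + 1 + 1) / a)
            = Real.log (((b : ℝ) + 1) / a) + Real.log (((b : ℝ) + 1 + 1) / (b + 1)) := by
          rw [← Real.log_mul (by positivity) (by positivity)]
          congr 1; field_simp
        rw [e2]
        linarith [ih.1]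
      · have h1 := Real.log_le_sub_one_of_pos (x := (b : ℝ) / (b + 1)) (by positivity)
        have e : (b : ℝ) / (b + 1) - 1 = - (1 / (b + 1)) := by field_simp; ring
        have e2 : Real.log ((b : ℝ) / a)
            = Real.log (((b : ℝ) + 1) / a) + Real.log ((b : ℝ) / (b + 1)) := by
          rw [← Real.log_mul (by positivity) (by positivity)]
          congr 1; field_simp
        linarith [ih.2]
  have hb0 : (0 : ℝ) < b := by
    have : (a : ℝ) ≤ b := by exact_mod_cast hab
    linarith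
  have h1 : Real.log ((b : ℝ) / a) ≤ Real.log (((b : ℝ) + 1) / a) := by
    apply Real.log_le_log (by positivity)
    apply div_le_div_of_nonneg_right (by linarith) ha0.le
  have h2 : 1 / (a : ℝ) ≤ 1 := by
    rw [div_le_one ha0]; exact ha'
  rw [abs_le]
  constructor <;> linarith [key.1, key.2]

private theorem kd_cos (n : ℕ) (φ : ℝ) :
    |Real.cos (2 * Real.pi * n * φ) - 1| ≤ 2 * Real.pi * n * nrm φ := by
  have h0 : Real.cos (2 * Real.pi * n * φ) = Real.cos (2 * Real.pi * n * (φ - round φ)) := by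
    have e : 2 * Real.pi * n * φ = 2 * Real.pi * n * (φ - round φ)
        + (((n : ℤ) * round φ : ℤ) : ℝ) * (2 * Real.pi) := by
      push_cast; ring
    rw [e, Real.cos_add_int_mul_two_pi]
  have h1 : ∀ t : ℝ, |Real.cos t - 1| ≤ |t| := by
    intro t
    have h2 := Real.one_sub_sq_div_two_le_cos (x := t)
    have h3 := Real.cos_le_one t
    have h4 := Real.neg_one_le_cos t
    rw [abs_sub_comm, abs_of_nonneg (by linarith)]
    rcases le_or_gt 2 |t| with h | h
    · linarith
    · have h5 : t ^ 2 = |t| ^ 2 := (sq_abs t).symm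
      nlinarith [abs_nonneg t]
  rw [h0]
  refine (h1 _).trans (le_of_eq ?_)
  unfold nrm
  rw [abs_mul, abs_of_nonneg (by positivity)]

private theorem kd_nrm_nonneg (φ : ℝ) : 0 ≤ nrm φ := abs_nonneg _

private theorem kd_nrm_le (φ : ℝ) : nrm φ ≤ 1 / 2 := abs_sub_round φ

/-- module KD. -/
theorem kern0 : ∃ C : ℝ, ∀ a b : ℕ, 1 ≤ a → 1 ≤ b → ∀ φ : ℝ,
    |∑ n ∈ Icc a b, Real.cos (2 * Real.pi * n * φ) / (n : ℝ)
      - max 0 (-(Real.log (max (nrm φ) (1 / (b : ℝ)))) - Real.log (a : ℝ))| ≤ C := by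
  refine ⟨2 * Real.pi + 4, fun a b ha hb φ => ?_⟩
  have hpi := Real.pi_pos
  have ha1 : (1 : ℝ) ≤ a := by exact_mod_cast ha
  have hb1 : (1 : ℝ) ≤ b := by exact_mod_cast hb
  have hv0 := kd_nrm_nonneg φ
  have hv1 := kd_nrm_le φ
  set v := nrm φ with hv
  set u := max v (1 / (b : ℝ)) with hu
  have hbu : 1 / (b : ℝ) ≤ u := le_max_right _ _
  have hvu : v ≤ u := le_max_left _ _
  have hu0 : 0 < u := lt_of_lt_of_le (by positivity) hbu
  have hu1 : u ≤ 1 := by
    rw [hu]
    apply max_le (by linarith)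
    rw [div_le_one (by linarith)]; exact hb1
  have hub : 1 / u ≤ b := by
    rw [div_le_iff₀ hu0]
    rw [div_le_iff₀ (by linarith)] at hbu
    linarith
  have hlogu : -Real.log u = Real.log (1 / u) := by
    rw [one_div, Real.log_inv]
  rcases Nat.lt_or_ge b a with hba | hab
  · rw [Finset.Icc_eq_empty (by omega)]
    have hba' : (b : ℝ) ≤ a := by exact_mod_cast hba.le
    have h1 : Real.log (1 / u) ≤ Real.log a :=
      Real.log_le_log (by positivity) (hub.trans hba')
    rw [max_eq_left (by linarith)]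
    simp only [sum_empty, sub_zero, abs_zero]
    positivity
  · set M := ⌊1 / u⌋₊ with hM
    have hM1 : 1 ≤ M := by
      rw [hM, Nat.one_le_floor_iff]
      rw [le_div_iff₀ hu0]; linarith
    have hMu : (M : ℝ) ≤ 1 / u := Nat.floor_le (by positivity)
    have huM : 1 / u < (M : ℝ) + 1 := Nat.lt_floor_add_one _
    have hMb : M ≤ b := by
      have : (M : ℝ) ≤ b := hMu.trans hub
      exact_mod_cast this
    have hM1' : (1 : ℝ) ≤ M := by exact_mod_cast hM1
    -- if M < b then u = v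
    have huv : M < b → u = v := by
      intro hlt
      rcases le_total v (1 / (b : ℝ)) with h | h
      · exfalso
        have hu' : u = 1 / (b : ℝ) := by rw [hu]; exact max_eq_right h
        have : M = b := by
          rw [hM, hu', one_div_one_div, Nat.floor_natCast]
        omega
      · rw [hu]; exact max_eq_left h
    have htail : ∀ c : ℕ, M + 1 ≤ c → 
        |∑ n ∈ Icc c b, Real.cos (2 * Real.pi * n * φ) / (n : ℝ)| ≤ 1 := by
      intro c hc
      rcases Nat.lt_or_ge b c with h | h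
      · rw [Finset.Icc_eq_empty (by omega)]; simp
      · have huv' := huv (by omega)
        have hvpos : 0 < v := by rw [← huv']; exact hu0
        refine (tail c b (by omega) φ hvpos).trans ?_
        have hc' : (M : ℝ) + 1 ≤ c := by exact_mod_cast hc
        have h2 : 1 / u ≤ c := huM.le.trans hc'
        rw [div_le_one (mul_pos (by linarith) hvpos)]
        rw [div_le_iff₀ hu0] at h2
        rw [← huv']
        exact h2
    rcases Nat.lt_or_ge M a with hMa | haM
    · have h1 := htail a (by omega)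
      have h2 : Real.log (1 / u) ≤ Real.log a := by
        apply Real.log_le_log (by positivity)
        have : (M : ℝ) + 1 ≤ a := by exact_mod_cast hMa
        linarith
      rw [max_eq_left (by linarith), sub_zero]
      linarith
    · have hsplit : ∑ n ∈ Icc a b, Real.cos (2 * Real.pi * n * φ) / (n : ℝ)
          = ∑ n ∈ Icc a M, Real.cos (2 * Real.pi * n * φ) / (n : ℝ)
            + ∑ n ∈ Icc (M + 1) b, Real.cos (2 * Real.pi * n * φ) / (n : ℝ) := by
        rw [← Finset.sum_union]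
        · apply Finset.sum_congr _ (fun _ _ => rfl)
          ext n; simp only [Finset.mem_Icc, Finset.mem_union]; omega
        · rw [Finset.disjoint_left]
          intro n hn hn'
          simp only [Finset.mem_Icc] at hn hn'; omega
      have h1 : |∑ n ∈ Icc a M, Real.cos (2 * Real.pi * n * φ) / (n : ℝ)
          - ∑ n ∈ Icc a M, 1 / (n : ℝ)| ≤ 2 * Real.pi := by
        rw [← Finset.sum_sub_distrib]
        refine (Finset.abs_sum_le_sum_abs _ _).trans ?_
        have h2 : ∀ n ∈ Icc a M,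
            |Real.cos (2 * Real.pi * n * φ) / (n : ℝ) - 1 / (n : ℝ)| ≤ 2 * Real.pi * v := by
          intro n hn
          rw [Finset.mem_Icc] at hn
          have hn0 : (0 : ℝ) < n := by
            have : 1 ≤ n := by omega
            exact_mod_cast this
          rw [← sub_div, abs_div, abs_of_pos hn0, div_le_iff₀ hn0]
          have := kd_cos n φ
          rw [← hv] at this
          linarith
        refine (Finset.sum_le_sum h2).trans ?_
        rw [Finset.sum_const, nsmul_eq_mul, Nat.card_Icc]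
        have h3 : ((M + 1 - a : ℕ) : ℝ) ≤ M := by
          have : M + 1 - a ≤ M := by omega
          exact_mod_cast this
        have h4 : (M : ℝ) * v ≤ 1 := by
          have : (M : ℝ) * u ≤ 1 := by
            rw [le_div_iff₀ hu0] at hMu; exact hMu
          have : (M : ℝ) * v ≤ (M : ℝ) * u := mul_le_mul_of_nonneg_left hvu (by linarith)
          linarith
        calc ((M + 1 - a : ℕ) : ℝ) * (2 * Real.pi * v)
            ≤ (M : ℝ) * (2 * Real.pi * v) := mul_le_mul_of_nonneg_right h3 (by positivity)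
          _ = 2 * Real.pi * ((M : ℝ) * v) := by ring
          _ ≤ 2 * Real.pi * 1 := mul_le_mul_of_nonneg_left h4 (by positivity)
          _ = 2 * Real.pi := by ring
      have h2 := harm a M ha haM
      have h3 := htail (M + 1) le_rfl
      have h4 : Real.log ((M : ℝ) / a) = Real.log M - Real.log a :=
        Real.log_div (by positivity) (by positivity)
      have h5 : Real.log M ≤ Real.log (1 / u) := Real.log_le_log (by linarith) hMu
      have h6 : Real.log (1 / u) ≤ Real.log M + 1 := by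
        have e1 : Real.log (1 / u) ≤ Real.log (2 * M) := by
          apply Real.log_le_log (by positivity)
          linarith
        rw [Real.log_mul (by norm_num) (by positivity)] at e1
        have e2 : Real.log 2 ≤ 1 := by
          have := Real.log_two_lt_d9; linarith
        linarith
      have h7 : Real.log a ≤ Real.log M := by
        apply Real.log_le_log (by linarith)
        exact_mod_cast haM
      rw [max_eq_right (by linarith), hsplit, hlogu]
      rw [abs_le] at h1 h2 h3 ⊢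
      constructor <;> linarith [h1.1, h1.2, h2.1, h2.2, h3.1, h3.2]

private theorem ke_kap (j Q : ℕ) (hQ : 1 ≤ Q) (θ : ℝ) :
    kap j Q θ = ∑ n ∈ Icc ((2 ^ j + Q - 1) / Q) (4 ^ j / Q),
      Real.cos (2 * Real.pi * n * ((Q : ℝ) * θ)) / (n : ℝ) := by
  unfold kap blk
  rw [Finset.mul_sum]
  have hQ0 : 0 < Q := hQ
  have h2j : 1 ≤ 2 ^ j := Nat.one_le_two_pow
  have hdm := Nat.div_add_mod (2 ^ j + Q - 1) Q
  have hml := Nat.mod_lt (2 ^ j + Q - 1) hQ0
  refine Finset.sum_nbij' (fun d => d / Q) (fun n => Q * n) ?_ ?_ ?_ ?_ ?_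
  · intro d hd
    simp only [mem_filter, mem_Icc] at hd
    obtain ⟨⟨h1, h2⟩, k, rfl⟩ := hd
    simp only [mem_Icc]
    rw [Nat.mul_div_cancel_left _ hQ0]
    constructor
    · by_contra hlt
      push Not at hlt
      have h3 : Q * (k + 1) ≤ Q * ((2 ^ j + Q - 1) / Q) := Nat.mul_le_mul_left _ hlt
      rw [Nat.mul_add, Nat.mul_one] at h3
      omega
    · rw [Nat.le_div_iff_mul_le hQ0, mul_comm]; exact h2
  · intro n hn
    simp only [mem_Icc] at hn
    simp only [mem_filter, mem_Icc]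
    refine ⟨⟨?_, ?_⟩, Dvd.intro _ rfl⟩
    · have h3 : Q * ((2 ^ j + Q - 1) / Q) ≤ Q * n := Nat.mul_le_mul_left _ hn.1
      omega
    · have := hn.2
      rw [Nat.le_div_iff_mul_le hQ0, mul_comm] at this
      exact this
  · intro d hd
    simp only [mem_filter, mem_Icc] at hd
    exact Nat.mul_div_cancel' hd.2
  · intro n hn
    exact Nat.mul_div_cancel_left _ hQ0
  · intro d hd
    simp only [mem_filter, mem_Icc] at hd
    obtain ⟨⟨h1, h2⟩, k, rfl⟩ := hd
    rw [Nat.mul_div_cancel_left _ hQ0]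
    have hk : (k : ℝ) ≠ 0 := by
      rintro h
      have : k = 0 := by exact_mod_cast h
      subst this
      simp at h1
    have hQr : (Q : ℝ) ≠ 0 := by exact_mod_cast hQ0.ne'
    have e : 2 * Real.pi * ((Q * k : ℕ) : ℝ) * θ = 2 * Real.pi * k * ((Q : ℝ) * θ) := by
      push_cast; ring
    rw [e]
    push_cast
    field_simp

private theorem ke_log4 (j : ℕ) : Real.log ((4 : ℝ) ^ j) = 2 * (j * Real.log 2) := by
  have : (4 : ℝ) = 2 ^ 2 := by norm_num
  rw [this, ← pow_mul, Real.log_pow]; push_cast; ring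

/-- module KE. -/
theorem kern (Q : ℕ) (hQ : 1 ≤ Q) : ∃ C : ℝ, ∀ (j : ℕ) (θ : ℝ),
    |kap j Q θ - GG j (nrm ((Q : ℝ) * θ) / (Q : ℝ))| ≤ C := by
  obtain ⟨C0, hC0⟩ := kern0
  have hC0' : 0 ≤ C0 := (abs_nonneg _).trans (hC0 1 1 le_rfl le_rfl 0)
  have hQ0 : 0 < Q := hQ
  have hQr : (1 : ℝ) ≤ Q := by exact_mod_cast hQ
  have hQr0 : (0 : ℝ) < Q := by linarith
  have hlogQ : 0 ≤ Real.log Q := Real.log_nonneg hQr
  have hl2 : 0 < Real.log 2 := Real.log_pos (by norm_num)
  have hl2Q : Real.log (2 * Q) = Real.log 2 + Real.log Q :=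
    Real.log_mul (by norm_num) hQr0.ne'
  refine ⟨C0 + Real.log 2 + Real.log (2 * Q) + Real.log Q, fun j θ => ?_⟩
  have hv0 := kd_nrm_nonneg ((Q : ℝ) * θ)
  have h4 : (0 : ℝ) < 4 ^ j := by positivity
  have h2j : (0 : ℝ) < 2 ^ j := by positivity
  have hlog2j : Real.log ((2 : ℝ) ^ j) = j * Real.log 2 := Real.log_pow _ _
  rcases Nat.lt_or_ge (4 ^ j) Q with hlt | hge
  · -- empty block
    have hkap : kap j Q θ = 0 := by
      rw [ke_kap j Q hQ θ, Nat.div_eq_of_lt hlt]
      apply Finset.sum_eq_zero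
      intro n hn
      rw [Finset.mem_Icc] at hn
      have : n = 0 := by omega
      subst this
      simp
    rw [hkap, zero_sub, abs_neg]
    have hGG0 : 0 ≤ GG j (nrm ((Q : ℝ) * θ) / (Q : ℝ)) := le_max_left _ _
    rw [abs_of_nonneg hGG0]
    have hlt' : (4 : ℝ) ^ j ≤ Q := by exact_mod_cast hlt.le
    have h24 : (2 : ℝ) ^ j ≤ 4 ^ j := pow_le_pow_left₀ (by norm_num) (by norm_num) j
    have hjQ : j * Real.log 2 ≤ Real.log Q := by
      rw [← hlog2j]
      exact Real.log_le_log h2j (h24.trans hlt')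
    have hGG : GG j (nrm ((Q : ℝ) * θ) / (Q : ℝ)) ≤ Real.log Q := by
      unfold GG
      apply max_le hlogQ
      have e1 : Real.log (1 / (4 : ℝ) ^ j)
          ≤ Real.log (max (nrm ((Q : ℝ) * θ) / (Q : ℝ)) (1 / (4 : ℝ) ^ j)) :=
        Real.log_le_log (by positivity) (le_max_right _ _)
      rw [one_div, Real.log_inv, ke_log4, ← one_div] at e1
      linarith
    linarith
  · set a := (2 ^ j + Q - 1) / Q with ha
    set b := 4 ^ j / Q with hb
    have h2jn : 1 ≤ 2 ^ j := Nat.one_le_two_pow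
    have hdm := Nat.div_add_mod (2 ^ j + Q - 1) Q
    have hml := Nat.mod_lt (2 ^ j + Q - 1) hQ0
    rw [← ha] at hdm
    have ha1 : 2 ^ j ≤ Q * a := by omega
    have ha2 : Q * a ≤ 2 ^ j + Q := by omega
    have ha3 : 1 ≤ a := by
      rcases Nat.eq_zero_or_pos a with h | h
      · rw [h] at ha1
        omega
      · exact h
    have hb1 : 1 ≤ b := by
      rw [hb, Nat.le_div_iff_mul_le hQ0]; omega
    have hb2 : Q * b ≤ 4 ^ j := Nat.mul_div_le _ _
    have hb3 : 4 ^ j < Q * (b + 1) := by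
      have := Nat.lt_mul_div_succ (4 ^ j) hQ0
      exact this
    have ha1r : (2 : ℝ) ^ j ≤ Q * a := by exact_mod_cast ha1
    have ha2r : (Q : ℝ) * a ≤ 2 ^ j + Q := by exact_mod_cast ha2
    have ha3r : (1 : ℝ) ≤ a := by exact_mod_cast ha3
    have hb1r : (1 : ℝ) ≤ b := by exact_mod_cast hb1
    have hb2r : (Q : ℝ) * b ≤ 4 ^ j := by exact_mod_cast hb2
    have hb3r : (4 : ℝ) ^ j < Q * (b + 1) := by exact_mod_cast hb3
    have hkd := hC0 a b ha3 hb1 ((Q : ℝ) * θ)
    rw [← ke_kap j Q hQ θ] at hkd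
    set v := nrm ((Q : ℝ) * θ) with hv
    -- comparison of the two models
    have hm0 : 0 < max v (1 / (b : ℝ)) := lt_of_lt_of_le (by positivity) (le_max_right _ _)
    have hm1 : 0 < max v ((Q : ℝ) / 4 ^ j) := lt_of_lt_of_le (by positivity) (le_max_right _ _)
    have e1 : Real.log (max (v / (Q : ℝ)) (1 / (4 : ℝ) ^ j))
        = Real.log (max v ((Q : ℝ) / 4 ^ j)) - Real.log Q := by
      rw [← Real.log_div hm1.ne' hQr0.ne']
      congr 1
      rw [← max_div_div_right hQr0.le]
      congr 1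
      field_simp
    have e2 : Real.log (max v ((Q : ℝ) / 4 ^ j)) ≤ Real.log (max v (1 / (b : ℝ))) := by
      apply Real.log_le_log hm1
      apply max_le_max le_rfl
      rw [div_le_div_iff₀ h4 (by linarith)]
      linarith
    have e3 : Real.log (max v (1 / (b : ℝ)))
        ≤ Real.log 2 + Real.log (max v ((Q : ℝ) / 4 ^ j)) := by
      rw [← Real.log_mul (by norm_num) hm1.ne']
      apply Real.log_le_log hm0
      apply max_le
      · have := le_max_left v ((Q : ℝ) / 4 ^ j)
        linarith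
      · have h5 := le_max_right v ((Q : ℝ) / 4 ^ j)
        have h6 : 1 / (b : ℝ) ≤ 2 * ((Q : ℝ) / 4 ^ j) := by
          rw [← mul_div_assoc, div_le_div_iff₀ (by linarith) h4]
          nlinarith
        linarith
    have e4 : j * Real.log 2 - Real.log Q ≤ Real.log a := by
      rw [← hlog2j, ← Real.log_div h2j.ne' hQr0.ne']
      apply Real.log_le_log (by positivity)
      rw [div_le_iff₀ hQr0]; linarith
    have e5 : Real.log a ≤ j * Real.log 2 - Real.log Q + Real.log (2 * Q) := by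
      have h5 : Real.log a ≤ Real.log (2 * 2 ^ j) := by
        apply Real.log_le_log (by linarith)
        have h6 : (1 : ℝ) ≤ 2 ^ j := one_le_pow₀ (by norm_num)
        by_contra h7
        push Not at h7
        have h8 : (Q : ℝ) * (2 * 2 ^ j) < Q * a := mul_lt_mul_of_pos_left h7 hQr0
        nlinarith
      rw [Real.log_mul (by norm_num) h2j.ne', hlog2j] at h5
      linarith
    have hGG : GG j (v / (Q : ℝ)) = max 0 (-(Real.log (max v ((Q : ℝ) / 4 ^ j)) - Real.log Q)
        - j * Real.log 2) := by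
      unfold GG
      rw [e1]
    rw [hGG]
    have hmax := abs_max_sub_max_le_max (0 : ℝ)
      (-(Real.log (max v (1 / (b : ℝ)))) - Real.log (a : ℝ)) 0
      (-(Real.log (max v ((Q : ℝ) / 4 ^ j)) - Real.log Q) - j * Real.log 2)
    rw [sub_zero, abs_zero] at hmax
    set X := -(Real.log (max v (1 / (b : ℝ)))) - Real.log (a : ℝ) with hX
    set Y := -(Real.log (max v ((Q : ℝ) / 4 ^ j)) - Real.log Q) - j * Real.log 2 with hY
    have hXY : |X - Y| ≤ Real.log 2 + Real.log (2 * Q) := by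
      rw [abs_le, hX, hY]
      constructor <;> linarith
    rw [max_eq_right (abs_nonneg (X - Y))] at hmax
    have h9 : |kap j Q θ - max 0 Y| ≤ |kap j Q θ - max 0 X| + |max 0 X - max 0 Y| := by
      have := abs_add_le (kap j Q θ - max 0 X) (max 0 X - max 0 Y)
      rwa [sub_add_sub_cancel] at this
    linarith

private theorem kf_eq (H : ℕ) (φ : ℝ) :
    fej H φ = (1 / (H : ℝ) ^ 2) * ((∑ h ∈ range H, Real.cos (2 * Real.pi * h * φ)) ^ 2
      + (∑ h ∈ range H, Real.sin (2 * Real.pi * h * φ)) ^ 2) := by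
  unfold fej
  congr 1
  rw [sq, sq, Finset.sum_mul_sum, Finset.sum_mul_sum, ← Finset.sum_add_distrib]
  refine Finset.sum_congr rfl fun h _ => ?_
  rw [← Finset.sum_add_distrib]
  refine Finset.sum_congr rfl fun h' _ => ?_
  rw [← Real.cos_sub]
  congr 1; ring

private theorem kf_cos (H : ℕ) (φ : ℝ) :
    2 * Real.sin (Real.pi * φ) * ∑ h ∈ range H, Real.cos (2 * Real.pi * h * φ)
      = Real.sin (2 * Real.pi * H * φ - Real.pi * φ) + Real.sin (Real.pi * φ) := by
  induction H with
  | zero => simp [Real.sin_neg]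
  | succ H ih =>
    rw [Finset.sum_range_succ, mul_add, ih]
    have e : 2 * Real.pi * ((H + 1 : ℕ) : ℝ) * φ - Real.pi * φ
        = 2 * Real.pi * H * φ + Real.pi * φ := by push_cast; ring
    rw [e, Real.sin_add, Real.sin_sub]
    ring

private theorem kf_sin (H : ℕ) (φ : ℝ) :
    2 * Real.sin (Real.pi * φ) * ∑ h ∈ range H, Real.sin (2 * Real.pi * h * φ)
      = Real.cos (Real.pi * φ) - Real.cos (2 * Real.pi * H * φ - Real.pi * φ) := by
  induction H with
  | zero => simp [Real.cos_neg]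
  | succ H ih =>
    rw [Finset.sum_range_succ, mul_add, ih]
    have e : 2 * Real.pi * ((H + 1 : ℕ) : ℝ) * φ - Real.pi * φ
        = 2 * Real.pi * H * φ + Real.pi * φ := by push_cast; ring
    rw [e, Real.cos_add, Real.cos_sub]
    ring

private theorem kf_alg (A B s c0 c t : ℝ) (h1 : 2 * s * c = A + s) (h2 : 2 * s * t = c0 - B)
    (e1 : s ^ 2 + c0 ^ 2 = 1) (e2 : A ^ 2 + B ^ 2 = 1) : s ^ 2 * (c ^ 2 + t ^ 2) ≤ 1 := by
  have e3 : 4 * (s ^ 2 * (c ^ 2 + t ^ 2)) = (2 * s * c) ^ 2 + (2 * s * t) ^ 2 := by ring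
  have e4 : (A + s) ^ 2 + (c0 - B) ^ 2 + ((A - s) ^ 2 + (c0 + B) ^ 2) = 4 := by
    linear_combination 2 * e1 + 2 * e2
  rw [h1, h2] at e3
  linarith [sq_nonneg (A - s), sq_nonneg (c0 + B)]

/-- module KF. -/
theorem fej_nonneg (H : ℕ) (φ : ℝ) : 0 ≤ fej H φ := by
  rw [kf_eq]
  positivity

/-- module KF. -/
theorem fej_le_one (H : ℕ) (φ : ℝ) : fej H φ ≤ 1 := by
  unfold fej
  rcases Nat.eq_zero_or_pos H with hH | hH
  · subst hH
    simp
  · have hH' : (0 : ℝ) < H := by exact_mod_cast hH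
    have h1 : ∑ h ∈ range H, ∑ h' ∈ range H,
        Real.cos (2 * Real.pi * ((h : ℝ) - (h' : ℝ)) * φ) ≤ ∑ h ∈ range H, ∑ h' ∈ range H, (1 : ℝ) :=
      Finset.sum_le_sum fun h _ => Finset.sum_le_sum fun h' _ => Real.cos_le_one _
    have h2 : ∑ h ∈ range H, ∑ h' ∈ range H, (1 : ℝ) = (H : ℝ) ^ 2 := by
      simp [sq]
    rw [h2] at h1
    rw [one_div, ← div_eq_inv_mul, div_le_one (by positivity)]
    exact h1

/-- module KF. -/
theorem fej_le (H : ℕ) (hH : 1 ≤ H) (φ : ℝ) (hφ : 0 < nrm φ) :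
    fej H φ ≤ 1 / (4 * (H : ℝ) ^ 2 * (nrm φ) ^ 2) := by
  have hH' : (0 : ℝ) < H := by exact_mod_cast hH
  have hv : (0 : ℝ) ≤ 2 * nrm φ := mul_nonneg (by norm_num) hφ.le
  have hd : 0 < 4 * (H : ℝ) ^ 2 * (nrm φ) ^ 2 := by positivity
  have h4 : (2 * nrm φ) ^ 2 ≤ Real.sin (Real.pi * φ) ^ 2 := by
    rw [← sq_abs (Real.sin (Real.pi * φ))]
    exact pow_le_pow_left₀ hv (ka_sin φ) 2
  have h6 := kf_alg _ _ _ _ _ _ (kf_cos H φ) (kf_sin H φ) (Real.sin_sq_add_cos_sq _)
    (Real.sin_sq_add_cos_sq _)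
  have h8 : ∀ X w h : ℝ, h ≠ 0 → 1 / h ^ 2 * X * (4 * h ^ 2 * w ^ 2) = (2 * w) ^ 2 * X := by
    intro X w h hh
    field_simp
    ring
  rw [kf_eq, le_div_iff₀ hd, h8 _ _ _ hH'.ne']
  exact (mul_le_mul_of_nonneg_right h4 (add_nonneg (sq_nonneg _) (sq_nonneg _))).trans h6

/-- module KG. With `H = 4^j / Q` (natural division, at least `1`). -/
theorem kern_fej (Q : ℕ) (hQ : 1 ≤ Q) : ∃ C : ℝ, ∀ (j : ℕ), Q ≤ 4 ^ j → ∀ θ : ℝ,
    (j : ℝ) * Real.log 2 * fej (4 ^ j / Q) ((Q : ℝ) * θ) - C ≤ kap j Q θ := by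
  obtain ⟨C1, hC1⟩ := kern Q hQ
  refine ⟨C1 + 1, fun j hj θ => ?_⟩
  have hQ0 : 0 < Q := hQ
  have hQr : (1 : ℝ) ≤ Q := by exact_mod_cast hQ
  have hQr0 : (0 : ℝ) < Q := by linarith
  have hl2 : 0 < Real.log 2 := Real.log_pos (by norm_num)
  have h4 : (0 : ℝ) < 4 ^ j := by positivity
  have hk := hC1 j θ
  rw [abs_le] at hk
  have hf0 := fej_nonneg (4 ^ j / Q) ((Q : ℝ) * θ)
  have hf1 := fej_le_one (4 ^ j / Q) ((Q : ℝ) * θ)
  have hv0 := kd_nrm_nonneg ((Q : ℝ) * θ)
  have hfl := fej_le (4 ^ j / Q) (by rw [Nat.le_div_iff_mul_le hQ0]; omega) ((Q : ℝ) * θ)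
  set F := fej (4 ^ j / Q) ((Q : ℝ) * θ) with hF
  set v := nrm ((Q : ℝ) * θ) with hv
  set L := (j : ℝ) * Real.log 2 with hL
  have hL0 : 0 ≤ L := by positivity
  suffices h : L * F ≤ GG j (v / (Q : ℝ)) + 1 by linarith [hk.1]
  rcases le_or_gt (v / (Q : ℝ)) (1 / (4 : ℝ) ^ j) with h | h
  · have e1 : L ≤ GG j (v / (Q : ℝ)) := by
      unfold GG
      rw [max_eq_right h, one_div, Real.log_inv, ke_log4]
      refine le_trans ?_ (le_max_right _ _)
      rw [hL]; linarith
    nlinarith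
  · have hvQ : 0 < v / (Q : ℝ) := lt_trans (by positivity) h
    have hvpos : 0 < v := by
      by_contra hneg
      have : v = 0 := le_antisymm (not_lt.mp hneg) hv0
      rw [this] at hvQ
      simp at hvQ
    have hfl' := hfl hvpos
    set H := 4 ^ j / Q with hH
    have hH1 : 1 ≤ H := by rw [hH, Nat.le_div_iff_mul_le hQ0]; omega
    have hH2 : 4 ^ j < Q * (H + 1) := Nat.lt_mul_div_succ (4 ^ j) hQ0
    have hH1r : (1 : ℝ) ≤ H := by exact_mod_cast hH1
    have hH2r : (4 : ℝ) ^ j < Q * (H + 1) := by exact_mod_cast hH2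
    -- t = 4^j v / Q > 1
    set t := (4 : ℝ) ^ j * v / Q with ht
    have ht1 : 1 < t := by
      rw [ht, mul_div_assoc]
      rw [div_lt_iff₀ h4] at h
      linarith
    have hlogt : Real.log t = 2 * L + Real.log (v / (Q : ℝ)) := by
      rw [ht, mul_div_assoc, Real.log_mul h4.ne' hvQ.ne', ke_log4]
    have htH : t ≤ 2 * H * v := by
      rw [ht, div_le_iff₀ hQr0]
      have h5 : (4 : ℝ) ^ j ≤ 2 * H * Q := by nlinarith
      nlinarith
    have hFt : F ≤ 1 / t ^ 2 := by
      refine hfl'.trans ?_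
      apply one_div_le_one_div_of_le (by positivity)
      calc t ^ 2 ≤ (2 * H * v) ^ 2 := pow_le_pow_left₀ (by linarith) htH 2
        _ = 4 * (H : ℝ) ^ 2 * v ^ 2 := by ring
    have ht2 : 1 < t ^ 2 := by nlinarith
    have hlt0 : 0 < Real.log t := Real.log_pos ht1
    have hlt1 : Real.log t ≤ t ^ 2 := by
      have := Real.log_le_sub_one_of_pos (x := t) (by linarith)
      nlinarith
    have hGG : GG j (v / (Q : ℝ)) = max 0 (L - Real.log t) := by
      unfold GG
      rw [max_eq_left h.le, hlogt]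
      congr 1
      ring
    rw [hGG]
    have hLF : L * F ≤ L / t ^ 2 := by
      rw [div_eq_mul_one_div]
      exact mul_le_mul_of_nonneg_left hFt hL0
    refine hLF.trans ?_
    rw [div_le_iff₀ (by positivity)]
    rcases le_or_gt (Real.log t) L with h6 | h6
    · have h7 := le_max_right 0 (L - Real.log t)
      have h8 : L ≤ (L - Real.log t + 1) * t ^ 2 := by nlinarith
      nlinarith
    · have h7 := le_max_left 0 (L - Real.log t)
      nlinarith

end Pool.Agent.RDf
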