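import Pool.Agent.RDf.Defs

/-! Spectral lemma and Fejer lower bound: modules SA, SB. -/

set_option autoImplicit false

namespace Pool.Agent.RDf

open Finset

private theorem sa_orth (P : ℕ) (t : ℤ) (h1 : |t| < (P : ℤ)) :
    ∑ k ∈ range P, Real.cos (2 * Real.pi * (k : ℝ) * (t : ℝ) / (P : ℝ)) =
      if t = 0 then (P : ℝ) else 0 := by
  have hP : (0 : ℤ) < P := lt_of_le_of_lt (abs_nonneg t) h1
  have hP' : (P : ℝ) ≠ 0 := by exact_mod_cast hP.ne'
  split_ifs with h0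
  · subst h0
    simp
  · set z : ℂ := Complex.exp (((2 * Real.pi * (t : ℝ) / (P : ℝ) : ℝ) : ℂ) * Complex.I) with hz
    have hpow : ∀ k : ℕ, (z ^ k).re = Real.cos (2 * Real.pi * (k : ℝ) * (t : ℝ) / (P : ℝ)) := by
      intro k
      rw [hz, ← Complex.exp_nat_mul]
      have : (k : ℂ) * (((2 * Real.pi * (t : ℝ) / (P : ℝ) : ℝ) : ℂ) * Complex.I) =
          (((2 * Real.pi * (k : ℝ) * (t : ℝ) / (P : ℝ) : ℝ)) : ℂ) * Complex.I := by
        push_cast
        ring
      rw [this, Complex.exp_ofReal_mul_I_re]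
    have hone : z ^ P = 1 := by
      rw [hz, ← Complex.exp_nat_mul, Complex.exp_eq_one_iff]
      refine ⟨t, ?_⟩
      have hPc : (P : ℂ) ≠ 0 := by exact_mod_cast hP.ne'
      push_cast
      field_simp
    have hne : z ≠ 1 := by
      intro h
      rw [hz, Complex.exp_eq_one_iff] at h
      obtain ⟨n, hn⟩ := h
      have hI : (((2 * Real.pi * (t : ℝ) / (P : ℝ) : ℝ) : ℂ)) = (n : ℂ) * (2 * (Real.pi : ℂ)) := by
        have h2 : (((2 * Real.pi * (t : ℝ) / (P : ℝ) : ℝ) : ℂ)) * Complex.I =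
            ((n : ℂ) * (2 * (Real.pi : ℂ))) * Complex.I := by
          rw [hn]; ring
        exact mul_right_cancel₀ Complex.I_ne_zero h2
      have hR : 2 * Real.pi * (t : ℝ) / (P : ℝ) = (n : ℝ) * (2 * Real.pi) := by
        exact_mod_cast hI
      have h3 : (t : ℝ) = (n : ℝ) * (P : ℝ) := by
        have hpi := Real.pi_pos
        field_simp at hR
        have h4 : Real.pi * (2 * ((t : ℝ) - (n : ℝ) * (P : ℝ))) = 0 := by
          linear_combination (Real.pi) * 2 * hR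
        rcases mul_eq_zero.1 h4 with h5 | h5
        · exact absurd h5 hpi.ne'
        · linarith
      have h4 : t = n * (P : ℤ) := by exact_mod_cast h3
      have h5 : n ≠ 0 := by
        intro hn0
        rw [hn0] at h4
        simp at h4
        exact h0 h4
      have h6 : (1 : ℤ) ≤ |n| := Int.one_le_abs h5
      have h7 : |t| = |n| * (P : ℤ) := by
        rw [h4, abs_mul, abs_of_pos hP]
      nlinarith
    have hsum : ∑ k ∈ range P, z ^ k = 0 := by
      have := mul_neg_geom_sum z P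
      rw [hone, sub_self] at this
      rcases mul_eq_zero.1 this with h | h
      · exact absurd (sub_eq_zero.1 h).symm hne
      · exact h
    calc ∑ k ∈ range P, Real.cos (2 * Real.pi * (k : ℝ) * (t : ℝ) / (P : ℝ))
        = ∑ k ∈ range P, (z ^ k).re := Finset.sum_congr rfl (fun k _ => (hpow k).symm)
      _ = (∑ k ∈ range P, z ^ k).re := by rw [Complex.re_sum]
      _ = 0 := by rw [hsum]; rfl

private theorem sa_cor (B : Finset ℕ) (n : ℕ) :
    cor B n = ∑ x ∈ B, ∑ y ∈ B, (if x + n = y then (1 : ℝ) else 0) := by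
  unfold cor
  rw [Finset.card_filter]
  push_cast
  refine Finset.sum_congr rfl (fun x _ => ?_)
  rw [Finset.sum_ite_eq]

private theorem sa_sq (B : Finset ℕ) (f : ℕ → ℝ) :
    (∑ x ∈ B, Real.cos (f x)) ^ 2 + (∑ x ∈ B, Real.sin (f x)) ^ 2 =
      ∑ x ∈ B, ∑ y ∈ B, Real.cos (f x - f y) := by
  rw [sq, sq, Finset.sum_mul_sum, Finset.sum_mul_sum, ← Finset.sum_add_distrib]
  refine Finset.sum_congr rfl (fun x _ => ?_)
  rw [← Finset.sum_add_distrib]
  refine Finset.sum_congr rfl (fun y _ => ?_)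
  rw [Real.cos_sub]

/-- module SA. Discrete Fourier transform modulo `P = N + R + 1`:
`g k = |sum_{x in B} e(- k x / P)|^2 / P`, `θ k = k / P`. -/
theorem spec (B : Finset ℕ) (N R : ℕ) (hB : ∀ x ∈ B, x < N) :
    ∃ (P : ℕ) (g θ : Fin P → ℝ), (∀ k, 0 ≤ g k) ∧
      ∀ n : ℕ, n ≤ R → cor B n = ∑ k, g k * Real.cos (2 * Real.pi * n * θ k) := by
  classical
  set P : ℕ := N + R + 1 with hPdef
  have hP : 0 < P := by omega
  have hPr : (0 : ℝ) < (P : ℝ) := by exact_mod_cast hP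
  refine ⟨P, fun k => ((∑ x ∈ B, Real.cos (2 * Real.pi * ((k : ℕ) : ℝ) * (x : ℝ) / (P : ℝ))) ^ 2
    + (∑ x ∈ B, Real.sin (2 * Real.pi * ((k : ℕ) : ℝ) * (x : ℝ) / (P : ℝ))) ^ 2) / (P : ℝ),
    fun k => ((k : ℕ) : ℝ) / (P : ℝ), ?_, ?_⟩
  · intro k
    positivity
  · intro n hn
    have hk : ∀ k : ℕ,
        ((∑ x ∈ B, Real.cos (2 * Real.pi * (k : ℝ) * (x : ℝ) / (P : ℝ))) ^ 2
          + (∑ x ∈ B, Real.sin (2 * Real.pi * (k : ℝ) * (x : ℝ) / (P : ℝ))) ^ 2) / (P : ℝ)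
          * Real.cos (2 * Real.pi * (n : ℝ) * ((k : ℝ) / (P : ℝ))) =
        ∑ x ∈ B, ∑ y ∈ B, (1 / (2 * (P : ℝ))) *
          (Real.cos (2 * Real.pi * (k : ℝ) * (((x : ℤ) + (n : ℤ) - (y : ℤ) : ℤ) : ℝ) / (P : ℝ))
          + Real.cos (2 * Real.pi * (k : ℝ) * (((y : ℤ) + (n : ℤ) - (x : ℤ) : ℤ) : ℝ) / (P : ℝ))) := by
      intro k
      rw [sa_sq, Finset.sum_div, Finset.sum_mul]
      refine Finset.sum_congr rfl (fun x _ => ?_)
      rw [Finset.sum_div, Finset.sum_mul]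
      refine Finset.sum_congr rfl (fun y _ => ?_)
      have e1 : 2 * Real.pi * (k : ℝ) * (((x : ℤ) + (n : ℤ) - (y : ℤ) : ℤ) : ℝ) / (P : ℝ) =
          (2 * Real.pi * (k : ℝ) * (x : ℝ) / (P : ℝ) - 2 * Real.pi * (k : ℝ) * (y : ℝ) / (P : ℝ))
            + 2 * Real.pi * (n : ℝ) * ((k : ℝ) / (P : ℝ)) := by
        push_cast
        ring
      have e2 : 2 * Real.pi * (k : ℝ) * (((y : ℤ) + (n : ℤ) - (x : ℤ) : ℤ) : ℝ) / (P : ℝ) =
          -((2 * Real.pi * (k : ℝ) * (x : ℝ) / (P : ℝ) - 2 * Real.pi * (k : ℝ) * (y : ℝ) / (P : ℝ))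
            - 2 * Real.pi * (n : ℝ) * ((k : ℝ) / (P : ℝ))) := by
        push_cast
        ring
      rw [e1, e2, Real.cos_neg, Real.cos_add, Real.cos_sub _ (2 * Real.pi * (n : ℝ) * ((k : ℝ) / (P : ℝ)))]
      field_simp
      ring
    have hfin : ∀ F : ℕ → ℝ, ∑ k : Fin P, F (k : ℕ) = ∑ k ∈ range P, F k :=
      fun F => Fin.sum_univ_eq_sum_range F P
    have hstep : ∑ k : Fin P, ((∑ x ∈ B, Real.cos (2 * Real.pi * ((k : ℕ) : ℝ) * (x : ℝ) / (P : ℝ))) ^ 2
          + (∑ x ∈ B, Real.sin (2 * Real.pi * ((k : ℕ) : ℝ) * (x : ℝ) / (P : ℝ))) ^ 2) / (P : ℝ)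
          * Real.cos (2 * Real.pi * (n : ℝ) * (((k : ℕ) : ℝ) / (P : ℝ))) =
        ∑ x ∈ B, ∑ y ∈ B, (1 / 2) *
          ((if x + n = y then (1 : ℝ) else 0) + (if y + n = x then (1 : ℝ) else 0)) := by
      rw [hfin (fun k => ((∑ x ∈ B, Real.cos (2 * Real.pi * (k : ℝ) * (x : ℝ) / (P : ℝ))) ^ 2
          + (∑ x ∈ B, Real.sin (2 * Real.pi * (k : ℝ) * (x : ℝ) / (P : ℝ))) ^ 2) / (P : ℝ)
          * Real.cos (2 * Real.pi * (n : ℝ) * ((k : ℝ) / (P : ℝ))))]
      rw [Finset.sum_congr rfl (fun k _ => hk k), Finset.sum_comm]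
      refine Finset.sum_congr rfl (fun x hx => ?_)
      rw [Finset.sum_comm]
      refine Finset.sum_congr rfl (fun y hy => ?_)
      rw [← Finset.mul_sum, Finset.sum_add_distrib]
      have hx' := hB x hx
      have hy' := hB y hy
      rw [sa_orth P _ (by rw [abs_lt]; constructor <;> omega),
        sa_orth P _ (by rw [abs_lt]; constructor <;> omega)]
      have c1 : ((x : ℤ) + (n : ℤ) - (y : ℤ) = 0) ↔ x + n = y := by omega
      have c2 : ((y : ℤ) + (n : ℤ) - (x : ℤ) = 0) ↔ y + n = x := by omega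
      simp only [c1, c2]
      split_ifs <;> field_simp <;> ring
    have hgoal : cor B n = ∑ x ∈ B, ∑ y ∈ B, (1 / 2) *
          ((if x + n = y then (1 : ℝ) else 0) + (if y + n = x then (1 : ℝ) else 0)) := by
      have h1 := sa_cor B n
      have h2 : cor B n = ∑ x ∈ B, ∑ y ∈ B, (if y + n = x then (1 : ℝ) else 0) := by
        rw [sa_cor B n, Finset.sum_comm]
      have h3 : ∑ x ∈ B, ∑ y ∈ B, (1 / 2) *
          ((if x + n = y then (1 : ℝ) else 0) + (if y + n = x then (1 : ℝ) else 0)) =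
          (1 / 2) * (∑ x ∈ B, ∑ y ∈ B, (if x + n = y then (1 : ℝ) else 0)
            + ∑ x ∈ B, ∑ y ∈ B, (if y + n = x then (1 : ℝ) else 0)) := by
        rw [← Finset.sum_add_distrib, Finset.mul_sum]
        refine Finset.sum_congr rfl (fun x _ => ?_)
        rw [← Finset.sum_add_distrib, Finset.mul_sum]
      rw [h3, ← h1, ← h2]
      ring
    rw [hgoal]
    exact hstep.symm

private theorem sb_pair (B : Finset ℕ) (Q h h' : ℕ) :
    ∑ x ∈ B, ∑ x' ∈ B, (if x + h * Q = x' + h' * Q then (1 : ℝ) else 0) =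
      cor B (Q * Nat.dist h h') := by
  rcases le_total h' h with hh | hh
  · rw [sa_cor, Nat.dist_eq_sub_of_le_right hh]
    refine Finset.sum_congr rfl (fun x _ => Finset.sum_congr rfl (fun y _ => ?_))
    have e : h * Q = Q * (h - h') + h' * Q := by
      obtain ⟨t, rfl⟩ := Nat.exists_eq_add_of_le hh
      rw [Nat.add_sub_cancel_left]
      ring
    have : (x + h * Q = y + h' * Q) ↔ (x + Q * (h - h') = y) := by
      rw [e]; omega
    simp only [this]
  · rw [sa_cor, Nat.dist_eq_sub_of_le hh, Finset.sum_comm]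
    refine Finset.sum_congr rfl (fun x _ => Finset.sum_congr rfl (fun y _ => ?_))
    have e : h' * Q = Q * (h' - h) + h * Q := by
      obtain ⟨t, rfl⟩ := Nat.exists_eq_add_of_le hh
      rw [Nat.add_sub_cancel_left]
      ring
    have : (y + h * Q = x + h' * Q) ↔ (x + Q * (h' - h) = y) := by
      rw [e]; omega
    simp only [this]

/-- module SB. Cauchy-Schwarz for `x |-> sum_{h<H} 1_B(x + h Q)`. -/
theorem fejer_low (B : Finset ℕ) (N H Q : ℕ) (hB : ∀ x ∈ B, x < N) (hH : 1 ≤ H) (hN : 1 ≤ N) :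
    (B.card : ℝ) ^ 2 / ((N : ℝ) + (H : ℝ) * (Q : ℝ)) ≤
      (1 / (H : ℝ) ^ 2) * ∑ h ∈ range H, ∑ h' ∈ range H, cor B (Q * Nat.dist h h') := by
  classical
  set F : ℕ → ℝ := fun y => ∑ h ∈ range H, ∑ x ∈ B, (if x + h * Q = y then (1 : ℝ) else 0) with hF
  have hlt : ∀ h ∈ range H, ∀ x ∈ B, x + h * Q < N + H * Q := by
    intro h hh x hx
    have h1 := hB x hx
    have h2 : h * Q ≤ H * Q := Nat.mul_le_mul_right Q (Finset.mem_range.1 hh).le
    omega
  have hS1 : ∑ y ∈ range (N + H * Q), F y = (H : ℝ) * (B.card : ℝ) := by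
    rw [hF, Finset.sum_comm]
    have : ∀ h ∈ range H, ∑ y ∈ range (N + H * Q), ∑ x ∈ B, (if x + h * Q = y then (1 : ℝ) else 0)
        = (B.card : ℝ) := by
      intro h hh
      rw [Finset.sum_comm]
      have h3 : ∀ x ∈ B, ∑ y ∈ range (N + H * Q), (if x + h * Q = y then (1 : ℝ) else 0) = 1 := by
        intro x hx
        rw [Finset.sum_ite_eq, if_pos (Finset.mem_range.2 (hlt h hh x hx))]
      rw [Finset.sum_congr rfl h3]
      simp
    rw [Finset.sum_congr rfl this]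
    simp
  have hS2 : ∑ y ∈ range (N + H * Q), (F y) ^ 2 =
      ∑ h ∈ range H, ∑ h' ∈ range H, cor B (Q * Nat.dist h h') := by
    have hsq : ∀ y ∈ range (N + H * Q), (F y) ^ 2 = ∑ h ∈ range H, ∑ h' ∈ range H,
        ∑ x ∈ B, ∑ x' ∈ B, (if x + h * Q = y then (1 : ℝ) else 0) *
          (if x' + h' * Q = y then (1 : ℝ) else 0) := by
      intro y _
      rw [hF]
      simp only
      rw [sq, Finset.sum_mul_sum]
      refine Finset.sum_congr rfl (fun h _ => Finset.sum_congr rfl (fun h' _ => ?_))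
      rw [Finset.sum_mul_sum]
    rw [Finset.sum_congr rfl hsq, Finset.sum_comm]
    refine Finset.sum_congr rfl (fun h hh => ?_)
    rw [Finset.sum_comm]
    refine Finset.sum_congr rfl (fun h' hh' => ?_)
    rw [← sb_pair, Finset.sum_comm]
    refine Finset.sum_congr rfl (fun x hx => ?_)
    rw [Finset.sum_comm]
    refine Finset.sum_congr rfl (fun x' hx' => ?_)
    have : ∀ y ∈ range (N + H * Q), (if x + h * Q = y then (1 : ℝ) else 0) *
          (if x' + h' * Q = y then (1 : ℝ) else 0) =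
          (if x + h * Q = y then (if x' + h' * Q = x + h * Q then (1 : ℝ) else 0) else 0) := by
      intro y _
      by_cases h1 : x + h * Q = y
      · subst h1
        simp
      · simp [h1]
    rw [Finset.sum_congr rfl this, Finset.sum_ite_eq, if_pos (Finset.mem_range.2 (hlt h hh x hx))]
    by_cases h2 : x + h * Q = x' + h' * Q
    · rw [if_pos h2.symm, if_pos h2]
    · rw [if_neg (fun h3 => h2 h3.symm), if_neg h2]
  have hCS := sq_sum_le_card_mul_sum_sq (s := range (N + H * Q)) (f := F)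
  rw [hS1, hS2, Finset.card_range] at hCS
  have hHr : (0 : ℝ) < (H : ℝ) := by exact_mod_cast hH
  have hNr : (0 : ℝ) < (N : ℝ) := by exact_mod_cast hN
  have hD : (0 : ℝ) < (N : ℝ) + (H : ℝ) * (Q : ℝ) := by positivity
  rw [div_le_iff₀ hD]
  push_cast at hCS
  have e : (1 / (H : ℝ) ^ 2) * (∑ h ∈ range H, ∑ h' ∈ range H, cor B (Q * Nat.dist h h')) *
      ((N : ℝ) + (H : ℝ) * (Q : ℝ)) = (1 / (H : ℝ) ^ 2) *
      (((N : ℝ) + (H : ℝ) * (Q : ℝ)) * ∑ h ∈ range H, ∑ h' ∈ range H, cor B (Q * Nat.dist h h')) := by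
    ring
  rw [e]
  calc (B.card : ℝ) ^ 2 = (1 / (H : ℝ) ^ 2) * (((H : ℝ) * (B.card : ℝ)) ^ 2) := by
        field_simp
    _ ≤ _ := mul_le_mul_of_nonneg_left hCS (by positivity)

end Pool.Agent.RDf
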