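import Pool.Agent.RDf.Comb
import Pool.Agent.RDf.Spec
import Pool.Agent.RDf.Kern

/-! Averages of correlations: modules DA - DE. -/

set_option autoImplicit false

namespace Pool.Agent.RDf

open Finset Filter

private theorem da_pos (j : ℕ) (u : ℝ) : 0 < max u (1 / (4 : ℝ) ^ j) :=
  lt_of_lt_of_le (by positivity) (le_max_right _ _)

/-- module DA. Properties of the model kernel. -/
theorem GG_anti (j : ℕ) {u v : ℝ} (huv : u ≤ v) : GG j v ≤ GG j u := by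
  unfold GG
  have h1 : Real.log (max u (1 / (4 : ℝ) ^ j)) ≤ Real.log (max v (1 / (4 : ℝ) ^ j)) :=
    Real.log_le_log (da_pos j u) (max_le_max huv le_rfl)
  exact max_le_max le_rfl (by linarith)

/-- module DA. -/
theorem GG_le (j : ℕ) (u : ℝ) : GG j u ≤ j * Real.log 2 := by
  unfold GG
  have hl2 : 0 < Real.log 2 := Real.log_pos (by norm_num)
  have h1 : Real.log (1 / (4 : ℝ) ^ j) ≤ Real.log (max u (1 / (4 : ℝ) ^ j)) :=
    Real.log_le_log (by positivity) (le_max_right _ _)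
  have h2 : Real.log (1 / (4 : ℝ) ^ j) = -(2 * (j : ℝ) * Real.log 2) := by
    have : (4 : ℝ) = 2 ^ 2 := by norm_num
    rw [one_div, Real.log_inv, Real.log_pow, this, Real.log_pow]
    push_cast
    ring
  refine max_le (by positivity) ?_
  rw [h2] at h1
  linarith

/-- module DA. -/
theorem GG_div (j m : ℕ) (hm : 1 ≤ m) (u : ℝ) (hu : 0 ≤ u) :
    GG j (u / (m : ℝ)) ≤ GG j u + Real.log m := by
  have hm' : (1 : ℝ) ≤ (m : ℝ) := by exact_mod_cast hm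
  have hm0 : (0 : ℝ) < (m : ℝ) := by linarith
  have hlm : 0 ≤ Real.log (m : ℝ) := Real.log_nonneg hm'
  unfold GG
  have h1 : max u (1 / (4 : ℝ) ^ j) / (m : ℝ) ≤ max (u / (m : ℝ)) (1 / (4 : ℝ) ^ j) := by
    rw [div_le_iff₀ hm0]
    refine max_le ?_ ?_
    · calc u = u / (m : ℝ) * (m : ℝ) := by field_simp
        _ ≤ _ := mul_le_mul_of_nonneg_right (le_max_left _ _) hm0.le
    · calc 1 / (4 : ℝ) ^ j ≤ 1 / (4 : ℝ) ^ j * (m : ℝ) :=
            le_mul_of_one_le_right (by positivity) hm'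
        _ ≤ _ := mul_le_mul_of_nonneg_right (le_max_right _ _) hm0.le
  have h2 : Real.log (max u (1 / (4 : ℝ) ^ j)) - Real.log (m : ℝ) ≤
      Real.log (max (u / (m : ℝ)) (1 / (4 : ℝ) ^ j)) := by
    rw [← Real.log_div (da_pos j u).ne' hm0.ne']
    exact Real.log_le_log (div_pos (da_pos j u) hm0) h1
  have h3 := le_max_left (0 : ℝ) (-(Real.log (max u (1 / (4 : ℝ) ^ j))) - j * Real.log 2)
  have h4 := le_max_right (0 : ℝ) (-(Real.log (max u (1 / (4 : ℝ) ^ j))) - j * Real.log 2)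
  refine max_le (by linarith) (by linarith)

/-- module DA. -/
theorem nrm_mul_le (m : ℕ) (x : ℝ) : nrm ((m : ℝ) * x) ≤ (m : ℝ) * nrm x := by
  unfold nrm
  have h := round_le ((m : ℝ) * x) ((m : ℤ) * round x)
  refine h.trans (le_of_eq ?_)
  push_cast
  rw [← mul_sub, abs_mul, abs_of_nonneg (by positivity : (0 : ℝ) ≤ (m : ℝ))]

private theorem db_nrm_nonneg (x : ℝ) : 0 ≤ nrm x := abs_nonneg _

private theorem db_le (j Q d : ℕ) (hd : d ∈ blk j Q) : d ≤ 4 ^ j :=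
  (Finset.mem_Icc.1 (Finset.mem_filter.1 hd).1).2

private theorem db_bound (B : Finset ℕ) : ∃ N : ℕ, ∀ x ∈ B, x < N :=
  ⟨B.sup id + 1, fun x hx => Nat.lt_succ_of_le (Finset.le_sup (f := id) hx)⟩

private theorem db_sum (B : Finset ℕ) (R P : ℕ) (g θ : Fin P → ℝ)
    (h : ∀ n : ℕ, n ≤ R → cor B n = ∑ k, g k * Real.cos (2 * Real.pi * n * θ k)) :
    ∑ k, g k = (B.card : ℝ) := by
  have h0 := h 0 (Nat.zero_le _)
  have h1 : cor B 0 = (B.card : ℝ) := by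
    unfold cor
    congr 2
    exact Finset.filter_true_of_mem (fun x hx => by simpa using hx)
  rw [← h1, h0]
  refine Finset.sum_congr rfl (fun k _ => ?_)
  simp

private theorem db_RR (B : Finset ℕ) (R P : ℕ) (g θ : Fin P → ℝ)
    (h : ∀ n : ℕ, n ≤ R → cor B n = ∑ k, g k * Real.cos (2 * Real.pi * n * θ k))
    (j Q m : ℕ) (hR : m * 4 ^ j ≤ R) :
    RR B j Q m = ∑ k, g k * kap j Q ((m : ℝ) * θ k) := by
  unfold RR kap
  have h1 : ∀ d ∈ blk j Q, cor B (m * d) / (d : ℝ) =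
      ∑ k, g k * (Real.cos (2 * Real.pi * d * ((m : ℝ) * θ k)) / (d : ℝ)) := by
    intro d hd
    rw [h (m * d) ((Nat.mul_le_mul_left m (db_le j Q d hd)).trans hR), Finset.sum_div]
    refine Finset.sum_congr rfl (fun k _ => ?_)
    rw [mul_div_assoc]
    congr 3
    push_cast
    ring
  rw [Finset.sum_congr rfl h1, Finset.sum_comm, Finset.mul_sum]
  refine Finset.sum_congr rfl (fun k _ => ?_)
  rw [← Finset.mul_sum]
  ring

private theorem db_RR1 (B : Finset ℕ) (R P : ℕ) (g θ : Fin P → ℝ)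
    (h : ∀ n : ℕ, n ≤ R → cor B n = ∑ k, g k * Real.cos (2 * Real.pi * n * θ k))
    (j Q : ℕ) (hR : 4 ^ j ≤ R) :
    RR B j Q 1 = ∑ k, g k * kap j Q (θ k) := by
  rw [db_RR B R P g θ h j Q 1 (by omega)]
  refine Finset.sum_congr rfl (fun k _ => ?_)
  rw [Nat.cast_one, one_mul]

/-- module DB. Lag `m` in block `Q` is lag `1` in block `m Q`. -/
theorem RR_lag (Q m : ℕ) (hQ : 1 ≤ Q) (hm : 1 ≤ m) : ∃ C : ℝ, ∀ (j : ℕ) (B : Finset ℕ),
    |RR B j Q m - RR B j (m * Q) 1| ≤ C * (B.card : ℝ) := by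
  obtain ⟨C1, hC1⟩ := kern Q hQ
  obtain ⟨C2, hC2⟩ := kern (m * Q) (Nat.mul_pos hm hQ)
  refine ⟨C1 + C2 + Real.log m, fun j B => ?_⟩
  obtain ⟨N, hN⟩ := db_bound B
  obtain ⟨P, g, θ, hg, hs⟩ := spec B N (m * 4 ^ j) hN
  have hsum := db_sum B _ P g θ hs
  rw [db_RR B _ P g θ hs j Q m le_rfl, db_RR1 B _ P g θ hs j (m * Q)
    (Nat.le_mul_of_pos_left _ hm), ← Finset.sum_sub_distrib, ← hsum, Finset.mul_sum]
  refine (Finset.abs_sum_le_sum_abs _ _).trans (Finset.sum_le_sum (fun k _ => ?_))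
  rw [← mul_sub, abs_mul, abs_of_nonneg (hg k), mul_comm (C1 + C2 + Real.log m)]
  refine mul_le_mul_of_nonneg_left ?_ (hg k)
  have k1 := hC1 j ((m : ℝ) * θ k)
  have k2 := hC2 j (θ k)
  set v : ℝ := nrm ((Q : ℝ) * ((m : ℝ) * θ k)) with hv
  have hv2 : nrm (((m * Q : ℕ) : ℝ) * θ k) = v := by
    rw [hv]
    congr 1
    push_cast
    ring
  rw [hv2] at k2
  have hQ0 : (0 : ℝ) < (Q : ℝ) := by exact_mod_cast hQ
  have hm0 : (0 : ℝ) < (m : ℝ) := by exact_mod_cast hm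
  have hm1 : (1 : ℝ) ≤ (m : ℝ) := by exact_mod_cast hm
  have hvQ : 0 ≤ v / (Q : ℝ) := div_nonneg (db_nrm_nonneg _) hQ0.le
  have e : v / ((m * Q : ℕ) : ℝ) = v / (Q : ℝ) / (m : ℝ) := by
    push_cast
    field_simp
  rw [e] at k2
  have g1 := GG_div j m hm _ hvQ
  have g2 : GG j (v / (Q : ℝ)) ≤ GG j (v / (Q : ℝ) / (m : ℝ)) :=
    GG_anti j (div_le_self hvQ hm1)
  rw [abs_le] at k1 k2 ⊢
  constructor <;> linarith [k1.1, k1.2, k2.1, k2.2, Real.log_nonneg hm1]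

/-- module DB. -/
theorem RR_mono (Q m : ℕ) (hQ : 1 ≤ Q) (hm : 1 ≤ m) : ∃ C : ℝ, ∀ (j : ℕ) (B : Finset ℕ),
    RR B j Q 1 ≤ RR B j (m * Q) 1 + C * (B.card : ℝ) := by
  obtain ⟨C1, hC1⟩ := kern Q hQ
  obtain ⟨C2, hC2⟩ := kern (m * Q) (Nat.mul_pos hm hQ)
  refine ⟨C1 + C2, fun j B => ?_⟩
  obtain ⟨N, hN⟩ := db_bound B
  obtain ⟨P, g, θ, hg, hs⟩ := spec B N (4 ^ j) hN
  have hsum := db_sum B _ P g θ hs
  rw [db_RR1 B _ P g θ hs j Q le_rfl, db_RR1 B _ P g θ hs j (m * Q) le_rfl,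
    ← hsum, Finset.mul_sum, ← Finset.sum_add_distrib]
  refine Finset.sum_le_sum (fun k _ => ?_)
  have k1 := hC1 j (θ k)
  have k2 := hC2 j (θ k)
  set x : ℝ := θ k with hx
  have hQ0 : (0 : ℝ) < (Q : ℝ) := by exact_mod_cast hQ
  have hm0 : (0 : ℝ) < (m : ℝ) := by exact_mod_cast hm
  have hn : nrm (((m * Q : ℕ) : ℝ) * x) / ((m * Q : ℕ) : ℝ) ≤ nrm ((Q : ℝ) * x) / (Q : ℝ) := by
    have h1 := nrm_mul_le m ((Q : ℝ) * x)
    have e1 : ((m * Q : ℕ) : ℝ) * x = (m : ℝ) * ((Q : ℝ) * x) := by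
      push_cast
      ring
    rw [e1]
    push_cast
    rw [div_le_div_iff₀ (by positivity) hQ0]
    calc nrm ((m : ℝ) * ((Q : ℝ) * x)) * (Q : ℝ)
        ≤ ((m : ℝ) * nrm ((Q : ℝ) * x)) * (Q : ℝ) := mul_le_mul_of_nonneg_right h1 hQ0.le
      _ = nrm ((Q : ℝ) * x) * ((m : ℝ) * (Q : ℝ)) := by ring
  have g1 := GG_anti j hn
  rw [abs_le] at k1 k2
  have : kap j Q x ≤ kap j (m * Q) x + (C1 + C2) := by linarith [k1.2, k2.1]
  calc g k * kap j Q x ≤ g k * (kap j (m * Q) x + (C1 + C2)) :=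
        mul_le_mul_of_nonneg_left this (hg k)
    _ = _ := by ring

/-- module DB. -/
theorem RR_up (Q : ℕ) (hQ : 1 ≤ Q) : ∃ C : ℝ, ∀ (j : ℕ) (B : Finset ℕ),
    RR B j Q 1 ≤ (j * Real.log 2 + C) * (B.card : ℝ) := by
  obtain ⟨C1, hC1⟩ := kern Q hQ
  refine ⟨C1, fun j B => ?_⟩
  obtain ⟨N, hN⟩ := db_bound B
  obtain ⟨P, g, θ, hg, hs⟩ := spec B N (4 ^ j) hN
  have hsum := db_sum B _ P g θ hs
  rw [db_RR1 B _ P g θ hs j Q le_rfl, ← hsum, Finset.mul_sum]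
  refine Finset.sum_le_sum (fun k _ => ?_)
  have k1 := hC1 j (θ k)
  have g1 := GG_le j (nrm ((Q : ℝ) * θ k) / (Q : ℝ))
  rw [abs_le] at k1
  rw [mul_comm ((j : ℝ) * Real.log 2 + C1)]
  exact mul_le_mul_of_nonneg_left (by linarith [k1.2]) (hg k)

/-- module DC. -/
theorem RR_low (Q : ℕ) (hQ : 1 ≤ Q) : ∃ C : ℝ, ∀ (j : ℕ), Q ≤ 4 ^ j → ∀ (N : ℕ), 1 ≤ N →
    ∀ B : Finset ℕ, (∀ x ∈ B, x < N) →
    (j : ℝ) * Real.log 2 * ((B.card : ℝ) ^ 2 / ((N : ℝ) + (4 : ℝ) ^ j)) - C * (B.card : ℝ)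
      ≤ RR B j Q 1 := by
  obtain ⟨C, hC⟩ := kern_fej Q hQ
  refine ⟨C, fun j hj N hN B hB => ?_⟩
  obtain ⟨P, g, θ, hg, hs⟩ := spec B N (4 ^ j) hB
  have hsum := db_sum B _ P g θ hs
  set H : ℕ := 4 ^ j / Q with hH
  have hH1 : 1 ≤ H := (Nat.one_le_div_iff (by omega)).2 hj
  have hHQ : H * Q ≤ 4 ^ j := Nat.div_mul_le_self _ _
  have hHQr : (H : ℝ) * (Q : ℝ) ≤ (4 : ℝ) ^ j := by exact_mod_cast hHQ
  have hlow := fejer_low B N H Q hB hH1 hN
  have hNr : (1 : ℝ) ≤ (N : ℝ) := by exact_mod_cast hN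
  have hlow2 : (B.card : ℝ) ^ 2 / ((N : ℝ) + (4 : ℝ) ^ j) ≤
      (B.card : ℝ) ^ 2 / ((N : ℝ) + (H : ℝ) * (Q : ℝ)) := by
    apply div_le_div_of_nonneg_left (by positivity) (by positivity) (by linarith)
  have hfej : ∑ k, g k * fej H ((Q : ℝ) * θ k) =
      (1 / (H : ℝ) ^ 2) * ∑ h ∈ range H, ∑ h' ∈ range H, cor B (Q * Nat.dist h h') := by
    unfold fej
    have h1 : ∀ h ∈ range H, ∀ h' ∈ range H, cor B (Q * Nat.dist h h') =
        ∑ k, g k * Real.cos (2 * Real.pi * ((h : ℝ) - (h' : ℝ)) * ((Q : ℝ) * θ k)) := by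
      intro h hh h' hh'
      have hd : Nat.dist h h' ≤ H := by
        have a1 := Finset.mem_range.1 hh
        have a2 := Finset.mem_range.1 hh'
        unfold Nat.dist
        omega
      have hle : Q * Nat.dist h h' ≤ 4 ^ j := by
        calc Q * Nat.dist h h' ≤ Q * H := Nat.mul_le_mul_left Q hd
          _ = H * Q := by ring
          _ ≤ 4 ^ j := hHQ
      rw [hs _ hle]
      refine Finset.sum_congr rfl (fun k _ => ?_)
      congr 1
      rcases le_total h' h with h2 | h2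
      · rw [Nat.dist_eq_sub_of_le_right h2]
        push_cast [Nat.cast_sub h2]
        congr 1
        ring
      · rw [Nat.dist_eq_sub_of_le h2, ← Real.cos_neg]
        push_cast [Nat.cast_sub h2]
        congr 1
        ring
    have h2 : ∑ h ∈ range H, ∑ h' ∈ range H, cor B (Q * Nat.dist h h') =
        ∑ k, g k * ∑ h ∈ range H, ∑ h' ∈ range H,
          Real.cos (2 * Real.pi * ((h : ℝ) - (h' : ℝ)) * ((Q : ℝ) * θ k)) := by
      have h3 : ∀ h ∈ range H, ∑ h' ∈ range H, cor B (Q * Nat.dist h h') =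
          ∑ k, ∑ h' ∈ range H,
            g k * Real.cos (2 * Real.pi * ((h : ℝ) - (h' : ℝ)) * ((Q : ℝ) * θ k)) := by
        intro h hh
        rw [Finset.sum_congr rfl (fun h' hh' => h1 h hh h' hh'), Finset.sum_comm]
      rw [Finset.sum_congr rfl h3, Finset.sum_comm]
      refine Finset.sum_congr rfl (fun k _ => ?_)
      rw [Finset.mul_sum]
      refine Finset.sum_congr rfl (fun h _ => ?_)
      rw [Finset.mul_sum]
    rw [h2, Finset.mul_sum]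
    refine Finset.sum_congr rfl (fun k _ => ?_)
    ring
  rw [db_RR1 B _ P g θ hs j Q le_rfl]
  have hL : (0 : ℝ) ≤ (j : ℝ) * Real.log 2 := by
    have := Real.log_pos (show (1 : ℝ) < 2 by norm_num)
    positivity
  have hkey : ∑ k, g k * ((j : ℝ) * Real.log 2 * fej H ((Q : ℝ) * θ k) - C) ≤
      ∑ k, g k * kap j Q (θ k) :=
    Finset.sum_le_sum (fun k _ => mul_le_mul_of_nonneg_left (hC j hj (θ k)) (hg k))
  refine le_trans ?_ hkey
  have hexp : ∑ k, g k * ((j : ℝ) * Real.log 2 * fej H ((Q : ℝ) * θ k) - C) =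
      (j : ℝ) * Real.log 2 * ∑ k, g k * fej H ((Q : ℝ) * θ k) - C * ∑ k, g k := by
    rw [Finset.mul_sum, Finset.mul_sum, ← Finset.sum_sub_distrib]
    refine Finset.sum_congr rfl (fun k _ => ?_)
    ring
  rw [hexp, hsum, hfej]
  have := mul_le_mul_of_nonneg_left (hlow2.trans hlow) hL
  linarith

/-- module DD. Transfer from the weights to the correlations. -/
theorem transfer (W : ℕ → ℝ) (j Q m : ℕ) (ε : ℝ)
    (hW : ∀ θ : ℝ, |∑ d ∈ blk j Q, (W d - 1 / (d : ℝ)) * Real.cos (2 * Real.pi * d * θ)| ≤ ε * j)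
    (B : Finset ℕ) :
    |∑ d ∈ blk j Q, (W d - 1 / (d : ℝ)) * cor B (m * d)| ≤ ε * j * (B.card : ℝ) := by
  obtain ⟨N, hN⟩ := db_bound B
  obtain ⟨P, g, θ, hg, hs⟩ := spec B N (m * 4 ^ j) hN
  have hsum := db_sum B _ P g θ hs
  have h1 : ∑ d ∈ blk j Q, (W d - 1 / (d : ℝ)) * cor B (m * d) =
      ∑ k, g k * ∑ d ∈ blk j Q, (W d - 1 / (d : ℝ)) *
        Real.cos (2 * Real.pi * d * ((m : ℝ) * θ k)) := by
    have h2 : ∀ d ∈ blk j Q, (W d - 1 / (d : ℝ)) * cor B (m * d) =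
        ∑ k, g k * ((W d - 1 / (d : ℝ)) * Real.cos (2 * Real.pi * d * ((m : ℝ) * θ k))) := by
      intro d hd
      rw [hs (m * d) (Nat.mul_le_mul_left m (db_le j Q d hd)), Finset.mul_sum]
      refine Finset.sum_congr rfl (fun k _ => ?_)
      have : 2 * Real.pi * ((m * d : ℕ) : ℝ) * θ k = 2 * Real.pi * d * ((m : ℝ) * θ k) := by
        push_cast
        ring
      rw [this]
      ring
    rw [Finset.sum_congr rfl h2, Finset.sum_comm]
    refine Finset.sum_congr rfl (fun k _ => ?_)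
    rw [Finset.mul_sum]
  rw [h1, ← hsum, Finset.mul_sum]
  refine (Finset.abs_sum_le_sum_abs _ _).trans (Finset.sum_le_sum (fun k _ => ?_))
  rw [abs_mul, abs_of_nonneg (hg k), mul_comm (ε * (j : ℝ))]
  exact mul_le_mul_of_nonneg_left (hW _) (hg k)

/-- module DD. Mass of the block. -/
theorem blk_mass (Q : ℕ) (hQ : 1 ≤ Q) : ∃ C : ℝ, ∀ j : ℕ,
    |(Q : ℝ) * ∑ d ∈ blk j Q, 1 / (d : ℝ) - j * Real.log 2| ≤ C := by
  obtain ⟨C, hC⟩ := kern Q hQ
  refine ⟨C, fun j => ?_⟩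
  have h := hC j 0
  have h1 : kap j Q 0 = (Q : ℝ) * ∑ d ∈ blk j Q, 1 / (d : ℝ) := by
    unfold kap
    congr 1
    refine Finset.sum_congr rfl (fun d _ => ?_)
    simp
  have h2 : GG j (nrm ((Q : ℝ) * 0) / (Q : ℝ)) = j * Real.log 2 := by
    have h3 : nrm ((Q : ℝ) * 0) / (Q : ℝ) = 0 := by
      simp [nrm]
    rw [h3]
    unfold GG
    have h4 : max (0 : ℝ) (1 / (4 : ℝ) ^ j) = 1 / (4 : ℝ) ^ j := max_eq_right (by positivity)
    have h5 : Real.log (1 / (4 : ℝ) ^ j) = -(2 * (j : ℝ) * Real.log 2) := by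
      have : (4 : ℝ) = 2 ^ 2 := by norm_num
      rw [one_div, Real.log_inv, Real.log_pow, this, Real.log_pow]
      push_cast
      ring
    rw [h4, h5]
    have hl2 : 0 < Real.log 2 := Real.log_pos (by norm_num)
    have : (0 : ℝ) ≤ (j : ℝ) * Real.log 2 := by positivity
    rw [max_eq_right (by linarith)]
    ring
  rw [h1, h2] at h
  exact h

end Pool.Agent.RDf
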