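import Pool.Agent.RDf.CombA

/-! Combinatorial inequality: modules CA, CB, CC. -/

set_option autoImplicit false

namespace Pool.Agent.RDf

open Finset

/-- module CB. For every r >= 1: r * #(pairs at lag d) <= (r - 1) |B|. -/
theorem combGen (r : ℕ) (hr : 1 ≤ r) (B : Finset ℕ) (d : ℕ) (hd : 0 < d)
    (h : ∀ x : ℕ, ∃ i : ℕ, i ≤ r ∧ x + i * d ∉ B) :
    (r : ℝ) * cor B d ≤ ((r : ℝ) - 1) * (B.card : ℝ) := by
  classical
  have hcard : cor B d + ((B.filter (fun x => x + d ∉ B)).card : ℝ) = B.card := by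
    unfold cor
    have := Finset.card_filter_add_card_filter_not (s := B) (fun x => x + d ∈ B)
    exact_mod_cast this
  have hex : ∀ x ∈ B, ∃ i, i < r ∧ x + i * d ∈ B ∧ x + (i + 1) * d ∉ B := by
    intro x hx
    have hP : ∃ i, x + i * d ∉ B := by
      obtain ⟨i, _, hi⟩ := h x
      exact ⟨i, hi⟩
    have h0 : Nat.find hP ≠ 0 := by
      intro h1
      have h2 := Nat.find_spec hP
      rw [h1, zero_mul, add_zero] at h2
      exact h2 hx
    obtain ⟨k, hk⟩ := Nat.exists_eq_succ_of_ne_zero h0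
    refine ⟨k, ?_, ?_, ?_⟩
    · obtain ⟨i, hi, hi'⟩ := h x
      have := Nat.find_min' hP hi'
      omega
    · by_contra hc
      exact Nat.find_min hP (m := k) (by omega) hc
    · have h2 := Nat.find_spec hP
      rw [hk] at h2
      exact h2
  choose! f hf1 hf2 hf3 using hex
  have key : B.card ≤ ((B.filter (fun x => x + d ∉ B)) ×ˢ Finset.range r).card := by
    refine Finset.card_le_card_of_injOn (fun x => (x + f x * d, f x)) ?_ ?_
    · intro x hx
      have hx' : x ∈ B := hx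
      have h2 : x + f x * d + d ∉ B := by
        have h3 := hf3 x hx'
        rwa [add_mul, one_mul, ← add_assoc] at h3
      exact Finset.mem_coe.2 (Finset.mem_product.2
        ⟨Finset.mem_filter.2 ⟨hf2 x hx', h2⟩, Finset.mem_range.2 (hf1 x hx')⟩)
    · intro x _ y _ hxy
      have h1 : x + f x * d = y + f y * d := congrArg Prod.fst hxy
      have h2 : f x = f y := congrArg Prod.snd hxy
      rw [h2] at h1
      exact Nat.add_right_cancel h1
  rw [Finset.card_product, Finset.card_range] at key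
  have key' : (B.card : ℝ) ≤ ((B.filter (fun x => x + d ∉ B)).card : ℝ) * r := by
    exact_mod_cast key
  have h4 : ((B.filter (fun x => x + d ∉ B)).card : ℝ) = B.card - cor B d := by linarith
  rw [h4] at key'
  nlinarith

/-- module CC. -/
theorem comb (r : ℕ) (hr : 1 ≤ r) (B : Finset ℕ) (d : ℕ) (hd : 0 < d)
    (h : ∀ x : ℕ, ∃ i : ℕ, i ≤ r ∧ x + i * d ∉ B) :
    ∑ m ∈ Finset.Icc 1 5, (cc r m : ℝ) * cor B (m * d) ≤ (gg r : ℝ) * (B.card : ℝ) := by
  by_cases h234 : r = 2 ∨ r = 3 ∨ r = 4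
  · exact comb234 r h234 B d hd h
  · push Not at h234
    obtain ⟨h2, h3, h4⟩ := h234
    have hI : Finset.Icc 1 5 = ({1, 2, 3, 4, 5} : Finset ℕ) := by decide
    have := combGen r hr B d hd h
    rw [hI]
    simp [cc, gg, h2, h3, h4]
    exact this

/-- module CC. -/
theorem cc_sum (r : ℕ) : ∑ m ∈ Finset.Icc 1 5, cc r m = ss r := by
  have hI : Finset.Icc 1 5 = ({1, 2, 3, 4, 5} : Finset ℕ) := by decide
  rw [hI]
  by_cases h2 : r = 2
  · subst h2; simp [cc, ss]
  by_cases h3 : r = 3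
  · subst h3; simp [cc, ss]
  by_cases h4 : r = 4
  · subst h4; simp [cc, ss]
  simp [cc, ss, h2, h3, h4]

/-- module CC. -/
theorem ss_pos (r : ℕ) (hr : 1 ≤ r) : 0 < ss r := by
  unfold ss
  split_ifs <;> omega

/-- module CC. -/
theorem tau_eq (r : ℕ) (hr : 1 ≤ r) : tau r = (gg r : ℝ) / (ss r : ℝ) := by
  unfold tau gg ss
  by_cases h2 : r = 2
  · subst h2; norm_num
  by_cases h3 : r = 3
  · subst h3; norm_num
  by_cases h4 : r = 4
  · subst h4; norm_num
  have hr0 : (r : ℝ) ≠ 0 := by positivity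
  simp only [h2, h3, h4, if_false]
  push_cast
  field_simp

private noncomputable def CD_sm (B B' : Finset ℕ) (x y : ℕ) : ℝ :=
  if (x ∈ B ∧ y ∈ B) ∨ (x ∈ B' ∧ y ∈ B') then 1 else 0

private theorem CD_nonneg (B B' : Finset ℕ) (x y : ℕ) : 0 ≤ CD_sm B B' x y := by
  unfold CD_sm
  split_ifs <;> norm_num

private theorem CD_le (B B' : Finset ℕ) (x y : ℕ) : CD_sm B B' x y ≤ 1 := by
  unfold CD_sm
  split_ifs <;> norm_num

private theorem CD_cor (N : ℕ) (B B' : Finset ℕ) (hB : B ∪ B' = Finset.range N) (hd' : Disjoint B B')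
    (n : ℕ) : cor B n + cor B' n = ∑ y ∈ Finset.range N, CD_sm B B' y (y + n) := by
  classical
  have h1 : ∀ C : Finset ℕ, cor C n = ∑ y ∈ C, if y + n ∈ C then (1 : ℝ) else 0 := by
    intro C
    unfold cor
    rw [Finset.sum_boole]
  rw [h1 B, h1 B', ← hB, Finset.sum_union hd']
  refine congrArg₂ (· + ·) (Finset.sum_congr rfl fun y hy => ?_) (Finset.sum_congr rfl fun y hy => ?_)
  · have h2 : y ∉ B' := Finset.disjoint_left.1 hd' hy
    unfold CD_sm
    simp only [hy, h2, true_and, false_and, or_false]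
  · have h2 : y ∉ B := Finset.disjoint_right.1 hd' hy
    unfold CD_sm
    simp only [hy, h2, true_and, false_and, false_or]

private theorem CD_shift (N d i : ℕ) (hi : i ≤ 4) (hN : 4 * d ≤ N) (F : ℕ → ℝ) (h0 : ∀ y, 0 ≤ F y)
    (h1 : ∀ y, F y ≤ 1) :
    ∑ y ∈ Finset.range N, F y ≤ ∑ x ∈ Finset.range (N - 4 * d), F (x + i * d) + 4 * (d : ℝ) := by
  have hid : i * d ≤ 4 * d := Nat.mul_le_mul_right d hi
  have e : N = i * d + ((N - 4 * d) + (4 * d - i * d)) := by omega
  have h2 : ∑ y ∈ Finset.range N, F y = ∑ x ∈ Finset.range (i * d), F x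
      + (∑ x ∈ Finset.range (N - 4 * d), F (i * d + x)
        + ∑ x ∈ Finset.range (4 * d - i * d), F (i * d + ((N - 4 * d) + x))) := by
    conv_lhs => rw [e]
    rw [Finset.sum_range_add, Finset.sum_range_add]
  rw [h2]
  have h3 : ∑ x ∈ Finset.range (i * d), F x ≤ (i * d : ℕ) := by
    refine (Finset.sum_le_sum (fun x _ => h1 x)).trans ?_
    simp
  have h4 : ∑ x ∈ Finset.range (4 * d - i * d), F (i * d + ((N - 4 * d) + x)) ≤ (4 * d - i * d : ℕ) := by
    refine (Finset.sum_le_sum (fun x _ => h1 _)).trans ?_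
    simp
  have h5 : ((i * d : ℕ) : ℝ) + ((4 * d - i * d : ℕ) : ℝ) = 4 * d := by
    rw [← Nat.cast_add, Nat.add_sub_cancel' hid]
    push_cast
    ring
  have h6 : ∑ x ∈ Finset.range (N - 4 * d), F (i * d + x)
      = ∑ x ∈ Finset.range (N - 4 * d), F (x + i * d) :=
    Finset.sum_congr rfl fun x _ => by rw [add_comm]
  rw [h6]
  linarith

/-- module CD. Colourings of `[0, N)` with two colours (`B` and its complement) and a difference `d`
without monochromatic four term progression: sum over `x` with `x + 4 d < N` of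
`(e0 + e1 + e2 + e3)^2 + (e1 + e2 + e3 + e4)^2 <= 6 + 2 e0 e4` (`ei = 1` or `-1` the colour of `x + i d`). -/
theorem combCol (N : ℕ) (B B' : Finset ℕ) (hB : B ∪ B' = Finset.range N) (hd' : Disjoint B B')
    (d : ℕ) (hd : 0 < d)
    (h : ∀ x : ℕ, x + 3 * d < N → (∃ i : ℕ, i ≤ 3 ∧ x + i * d ∉ B) ∧ (∃ i : ℕ, i ≤ 3 ∧ x + i * d ∉ B')) :
    6 * (cor B d + cor B' d) + 4 * (cor B (2 * d) + cor B' (2 * d))
      + 2 * (cor B (3 * d) + cor B' (3 * d)) - (cor B (4 * d) + cor B' (4 * d))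
      ≤ 5 * (N : ℝ) + 100 * (d : ℝ) := by
  classical
  have hmem : ∀ y, y < N → (y ∈ B' ↔ y ∉ B) := by
    intro y hy
    have h1 : y ∈ B ∪ B' := by
      rw [hB]
      exact Finset.mem_range.2 hy
    constructor
    · intro h2 h3
      exact (Finset.disjoint_left.1 hd' h3) h2
    · intro h2
      rcases Finset.mem_union.1 h1 with h3 | h3
      · exact absurd h3 h2
      · exact h3
  have hD : ∀ m, cor B (m * d) + cor B' (m * d)
      = ∑ y ∈ Finset.range N, CD_sm B B' y (y + m * d) := fun m => CD_cor N B B' hB hd' (m * d)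
  by_cases hN : N < 4 * d
  · have hle : ∀ m, cor B (m * d) + cor B' (m * d) ≤ N := by
      intro m
      rw [hD m]
      refine (Finset.sum_le_sum (fun y _ => CD_le B B' y (y + m * d))).trans ?_
      simp
    have h0 : 0 ≤ cor B (4 * d) + cor B' (4 * d) := by
      unfold cor
      positivity
    have h1 := hle 1
    have h2 := hle 2
    have h3 := hle 3
    rw [one_mul] at h1
    have h4 : (N : ℝ) ≤ 4 * d := by exact_mod_cast hN.le
    linarith
  · have hN' : 4 * d ≤ N := Nat.le_of_not_lt hN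
    have hS : ∀ m i : ℕ, i ≤ 4 → cor B (m * d) + cor B' (m * d)
        ≤ ∑ x ∈ Finset.range (N - 4 * d), CD_sm B B' (x + i * d) (x + (i + m) * d) + 4 * (d : ℝ) := by
      intro m i hi
      rw [hD m]
      refine (CD_shift N d i hi hN' (fun y => CD_sm B B' y (y + m * d))
        (fun y => CD_nonneg B B' _ _) (fun y => CD_le B B' _ _)).trans (le_of_eq ?_)
      have h5 : ∀ x : ℕ, x + i * d + m * d = x + (i + m) * d := fun x => by ring
      simp only [h5]
    have h4 : ∑ x ∈ Finset.range (N - 4 * d), CD_sm B B' (x + 0 * d) (x + 4 * d)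
        ≤ cor B (4 * d) + cor B' (4 * d) := by
      rw [hD 4]
      simp only [zero_mul, add_zero]
      exact Finset.sum_le_sum_of_subset_of_nonneg
        (Finset.range_subset_range.2 (Nat.sub_le _ _)) (fun y _ _ => CD_nonneg B B' _ _)
    have hP : ∀ x ∈ Finset.range (N - 4 * d),
        CD_sm B B' (x + 0 * d) (x + 1 * d) + 2 * CD_sm B B' (x + 1 * d) (x + 2 * d)
        + 2 * CD_sm B B' (x + 2 * d) (x + 3 * d) + CD_sm B B' (x + 3 * d) (x + 4 * d)
        + CD_sm B B' (x + 0 * d) (x + 2 * d) + 2 * CD_sm B B' (x + 1 * d) (x + 3 * d)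
        + CD_sm B B' (x + 2 * d) (x + 4 * d)
        + CD_sm B B' (x + 0 * d) (x + 3 * d) + CD_sm B B' (x + 1 * d) (x + 4 * d)
        ≤ 5 + CD_sm B B' (x + 0 * d) (x + 4 * d) := by
      intro x hx
      have hx' : x + 4 * d < N := by
        have := Finset.mem_range.1 hx
        omega
      have e0 := hmem (x + 0 * d) (by omega)
      have e1 := hmem (x + 1 * d) (by omega)
      have e2 := hmem (x + 2 * d) (by omega)
      have e3 := hmem (x + 3 * d) (by omega)
      have e4 := hmem (x + 4 * d) hx'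
      obtain ⟨⟨i, hi, hiB⟩, ⟨i', hi', hiB'⟩⟩ := h x (by omega)
      obtain ⟨⟨j, hj, hjB⟩, ⟨j', hj', hjB'⟩⟩ := h (x + d) (by omega)
      have w1 : ¬ (x + 0 * d ∈ B ∧ x + 1 * d ∈ B ∧ x + 2 * d ∈ B ∧ x + 3 * d ∈ B) := by
        rintro ⟨a0, a1, a2, a3⟩
        interval_cases i
        · exact hiB a0
        · exact hiB a1
        · exact hiB a2
        · exact hiB a3
      have w1' : ¬ (x + 0 * d ∉ B ∧ x + 1 * d ∉ B ∧ x + 2 * d ∉ B ∧ x + 3 * d ∉ B) := by
        rintro ⟨a0, a1, a2, a3⟩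
        interval_cases i'
        · exact hiB' (e0.2 a0)
        · exact hiB' (e1.2 a1)
        · exact hiB' (e2.2 a2)
        · exact hiB' (e3.2 a3)
      have r0 : x + d + 0 * d = x + 1 * d := by ring
      have r1 : x + d + 1 * d = x + 2 * d := by ring
      have r2 : x + d + 2 * d = x + 3 * d := by ring
      have r3 : x + d + 3 * d = x + 4 * d := by ring
      have w2 : ¬ (x + 1 * d ∈ B ∧ x + 2 * d ∈ B ∧ x + 3 * d ∈ B ∧ x + 4 * d ∈ B) := by
        rintro ⟨a0, a1, a2, a3⟩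
        interval_cases j
        · exact hjB (r0 ▸ a0)
        · exact hjB (r1 ▸ a1)
        · exact hjB (r2 ▸ a2)
        · exact hjB (r3 ▸ a3)
      have w2' : ¬ (x + 1 * d ∉ B ∧ x + 2 * d ∉ B ∧ x + 3 * d ∉ B ∧ x + 4 * d ∉ B) := by
        rintro ⟨a0, a1, a2, a3⟩
        interval_cases j'
        · exact hjB' (r0 ▸ (e1.2 a0))
        · exact hjB' (r1 ▸ (e2.2 a1))
        · exact hjB' (r2 ▸ (e3.2 a2))
        · exact hjB' (r3 ▸ (e4.2 a3))
      unfold CD_sm
      simp only [e0, e1, e2, e3, e4]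
      clear hx hmem hD hS h4 hiB hiB' hjB hjB' e0 e1 e2 e3 e4
      by_cases c0 : x + 0 * d ∈ B <;> by_cases c1 : x + 1 * d ∈ B <;>
        by_cases c2 : x + 2 * d ∈ B <;> by_cases c3 : x + 3 * d ∈ B <;>
        by_cases c4 : x + 4 * d ∈ B <;>
        simp only [c0, c1, c2, c3, c4, not_true_eq_false, not_false_eq_true,
          and_self, and_true, and_false, true_and, false_and, or_self, or_true, or_false, true_or,
          false_or, if_true, if_false] at w1 w1' w2 w2' ⊢ <;> norm_num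
    have hT := Finset.sum_le_sum hP
    simp only [Finset.sum_add_distrib, ← Finset.mul_sum] at hT
    rw [Finset.sum_const, Finset.card_range, nsmul_eq_mul, Nat.cast_sub hN'] at hT
    push_cast at hT
    have s01 : cor B (1 * d) + cor B' (1 * d) ≤ ∑ x ∈ Finset.range (N - 4 * d),
      CD_sm B B' (x + 0 * d) (x + 1 * d) + 4 * (d : ℝ) := hS 1 0 (by norm_num)
    have s12 : cor B (1 * d) + cor B' (1 * d) ≤ ∑ x ∈ Finset.range (N - 4 * d),
      CD_sm B B' (x + 1 * d) (x + 2 * d) + 4 * (d : ℝ) := hS 1 1 (by norm_num)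
    have s23 : cor B (1 * d) + cor B' (1 * d) ≤ ∑ x ∈ Finset.range (N - 4 * d),
      CD_sm B B' (x + 2 * d) (x + 3 * d) + 4 * (d : ℝ) := hS 1 2 (by norm_num)
    have s34 : cor B (1 * d) + cor B' (1 * d) ≤ ∑ x ∈ Finset.range (N - 4 * d),
      CD_sm B B' (x + 3 * d) (x + 4 * d) + 4 * (d : ℝ) := hS 1 3 (by norm_num)
    have s02 : cor B (2 * d) + cor B' (2 * d) ≤ ∑ x ∈ Finset.range (N - 4 * d),
      CD_sm B B' (x + 0 * d) (x + 2 * d) + 4 * (d : ℝ) := hS 2 0 (by norm_num)
    have s13 : cor B (2 * d) + cor B' (2 * d) ≤ ∑ x ∈ Finset.range (N - 4 * d),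
      CD_sm B B' (x + 1 * d) (x + 3 * d) + 4 * (d : ℝ) := hS 2 1 (by norm_num)
    have s24 : cor B (2 * d) + cor B' (2 * d) ≤ ∑ x ∈ Finset.range (N - 4 * d),
      CD_sm B B' (x + 2 * d) (x + 4 * d) + 4 * (d : ℝ) := hS 2 2 (by norm_num)
    have s03 : cor B (3 * d) + cor B' (3 * d) ≤ ∑ x ∈ Finset.range (N - 4 * d),
      CD_sm B B' (x + 0 * d) (x + 3 * d) + 4 * (d : ℝ) := hS 3 0 (by norm_num)
    have s14 : cor B (3 * d) + cor B' (3 * d) ≤ ∑ x ∈ Finset.range (N - 4 * d),
      CD_sm B B' (x + 1 * d) (x + 4 * d) + 4 * (d : ℝ) := hS 3 1 (by norm_num)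
    have g1 : cor B d = cor B (1 * d) := by rw [one_mul]
    have g2 : cor B' d = cor B' (1 * d) := by rw [one_mul]
    rw [g1, g2]
    have hd0 : (0 : ℝ) ≤ d := Nat.cast_nonneg d
    linarith

end Pool.Agent.RDf
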