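import Pool.Agent.RDf.Defs

/-! Module CA. -/

set_option autoImplicit false

namespace Pool.Agent.RDf

open Finset

/-- `0` or `1`. -/
def ca_b (b : Bool) : ℤ := if b then 1 else 0

/-- `0` or `1`. -/
def ca_n (b : Bool) : ℕ := if b then 1 else 0

def ca_h2 (a b c : Bool) : ℤ :=
  ([0, 2, 1, 0, 0, 1, 0, 0] : List ℤ).getD (ca_n a + 2 * ca_n b + 4 * ca_n c) 0

def ca_h3 (a b c d : Bool) : ℤ :=
  ([0, 4, 3, 4, 0, 3, 2, 0, 0, 3, 1, 2, 0, 1, 0, 0] : List ℤ).getD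
    (ca_n a + 2 * ca_n b + 4 * ca_n c + 8 * ca_n d) 0

def ca_h4 (a b c d e : Bool) : ℤ :=
  ([0, 6, 6, 9, 0, 6, 6, 6, 0, 3, 3, 6, 0, 3, 3, 0, 0, 6, 3, 6, 0, 3, 3, 3, 0, 3, 0, 3, 0, 0, 0, 0] :
    List ℤ).getD (ca_n a + 2 * ca_n b + 4 * ca_n c + 8 * ca_n d + 16 * ca_n e) 0

theorem ca_p2 : ∀ a b c d : Bool, ¬ (a = true ∧ b = true ∧ c = true) → ¬ (b = true ∧ c = true ∧ d = true) →
    4 * (ca_b a * ca_b b) + 2 * (ca_b a * ca_b c) - 1 * (ca_b a * ca_b d) - 2 * ca_b a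
      ≤ ca_h2 b c d - ca_h2 a b c := by
  decide

theorem ca_p3 : ∀ a b c d e : Bool, ¬ (a = true ∧ b = true ∧ c = true ∧ d = true) →
    ¬ (b = true ∧ c = true ∧ d = true ∧ e = true) →
    4 * (ca_b a * ca_b b) + 4 * (ca_b a * ca_b c) + 1 * (ca_b a * ca_b d) - 2 * (ca_b a * ca_b e) - 4 * ca_b a
      ≤ ca_h3 b c d e - ca_h3 a b c d := by
  decide

set_option maxRecDepth 4000 in
theorem ca_p4 : ∀ a b c d e f : Bool, ¬ (a = true ∧ b = true ∧ c = true ∧ d = true ∧ e = true) →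
    ¬ (b = true ∧ c = true ∧ d = true ∧ e = true ∧ f = true) →
    3 * (ca_b a * ca_b b) + 6 * (ca_b a * ca_b c) + 3 * (ca_b a * ca_b d) - 3 * (ca_b a * ca_b f) - 6 * ca_b a
      ≤ ca_h4 b c d e f - ca_h4 a b c d e := by
  decide

theorem ca_h2_nonneg : ∀ a b c : Bool, 0 ≤ ca_h2 a b c := by decide
theorem ca_h3_nonneg : ∀ a b c d : Bool, 0 ≤ ca_h3 a b c d := by decide
theorem ca_h4_nonneg : ∀ a b c d e : Bool, 0 ≤ ca_h4 a b c d e := by decide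

/-- Telescoping. -/
theorem ca_tel (H : ℕ → ℤ) (hH : ∀ x, 0 ≤ H x) (T d : ℕ) (hT : ∀ x, T ≤ x → H x = 0) :
    ∑ x ∈ range T, (H (x + d) - H x) ≤ 0 := by
  rw [Finset.sum_sub_distrib]
  have h1 : ∑ x ∈ range T, H (x + d) ≤ ∑ x ∈ range (T + d), H x := by
    rw [Nat.add_comm T d, Finset.sum_range_add]
    have : ∀ x, H (x + d) = H (d + x) := fun x => by rw [Nat.add_comm]
    simp only [this]
    have h0 : 0 ≤ ∑ x ∈ range d, H x := Finset.sum_nonneg (fun x _ => hH x)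
    linarith
  have h2 : ∑ x ∈ range (T + d), H x = ∑ x ∈ range T, H x := by
    rw [Finset.sum_range_add]
    have : ∑ x ∈ range d, H (T + x) = 0 := Finset.sum_eq_zero (fun x _ => hT _ (Nat.le_add_right _ _))
    rw [this, add_zero]
  linarith

/-- Membership as a Boolean. -/
def ca_m (B : Finset ℕ) (x : ℕ) : Bool := decide (x ∈ B)

theorem ca_cor (B : Finset ℕ) (T n : ℕ) (hT : ∀ x ∈ B, x < T) :
    cor B n = ((∑ x ∈ range T, ca_b (ca_m B x) * ca_b (ca_m B (x + n)) : ℤ) : ℝ) := by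
  have h1 : ∑ x ∈ range T, ca_b (ca_m B x) * ca_b (ca_m B (x + n))
      = ∑ x ∈ range T, (if x ∈ B ∧ x + n ∈ B then (1 : ℤ) else 0) := by
    refine Finset.sum_congr rfl (fun x _ => ?_)
    unfold ca_b ca_m
    by_cases h1 : x ∈ B <;> by_cases h2 : x + n ∈ B <;> simp [h1, h2]
  rw [h1, Finset.sum_boole]
  unfold cor
  have h2 : (range T).filter (fun x => x ∈ B ∧ x + n ∈ B) = B.filter (fun x => x + n ∈ B) := by
    ext x
    simp only [Finset.mem_filter, Finset.mem_range]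
    constructor
    · rintro ⟨_, h1, h2⟩; exact ⟨h1, h2⟩
    · rintro ⟨h1, h2⟩; exact ⟨hT x h1, h1, h2⟩
  rw [h2]
  push_cast
  rfl

theorem ca_card (B : Finset ℕ) (T : ℕ) (hT : ∀ x ∈ B, x < T) :
    (B.card : ℝ) = ((∑ x ∈ range T, ca_b (ca_m B x) : ℤ) : ℝ) := by
  have h1 : ∑ x ∈ range T, ca_b (ca_m B x) = ∑ x ∈ range T, (if x ∈ B then (1 : ℤ) else 0) := by
    refine Finset.sum_congr rfl (fun x _ => ?_)
    unfold ca_b ca_m
    by_cases h1 : x ∈ B <;> simp [h1]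
  rw [h1, Finset.sum_boole]
  have h2 : (range T).filter (fun x => x ∈ B) = B := by
    ext x
    simp only [Finset.mem_filter, Finset.mem_range]
    constructor
    · rintro ⟨_, h1⟩; exact h1
    · intro h1; exact ⟨hT x h1, h1⟩
  rw [h2]
  push_cast
  rfl

theorem ca_bd (B : Finset ℕ) : ∃ T : ℕ, ∀ x ∈ B, x < T :=
  ⟨B.sup id + 1, fun x hx => Nat.lt_succ_of_le (Finset.le_sup (f := id) hx)⟩

theorem ca_out (B : Finset ℕ) (T : ℕ) (hT : ∀ x ∈ B, x < T) (x : ℕ) (hx : T ≤ x) : ca_m B x = false := by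
  unfold ca_m
  simp only [decide_eq_false_iff_not]
  intro h
  exact absurd (hT x h) (not_lt.mpr hx)

theorem ca_r2 (B : Finset ℕ) (d : ℕ)
    (h : ∀ x : ℕ, ∃ i : ℕ, i ≤ 2 ∧ x + i * d ∉ B) :
    4 * cor B (1 * d) + 2 * cor B (2 * d) - cor B (3 * d) ≤ 2 * (B.card : ℝ) := by
  obtain ⟨T, hT⟩ := ca_bd B
  rw [ca_cor B T _ hT, ca_cor B T _ hT, ca_cor B T _ hT, ca_card B T hT]
  have key : ∀ x, ¬ (ca_m B x = true ∧ ca_m B (x + 1 * d) = true ∧ ca_m B (x + 2 * d) = true) := by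
    intro x hx
    obtain ⟨i, hi, hxi⟩ := h x
    unfold ca_m at hx
    simp only [decide_eq_true_eq] at hx
    interval_cases i
    · simp at hxi; exact hxi hx.1
    · exact hxi hx.2.1
    · exact hxi hx.2.2
  have hs := ca_tel (fun x => ca_h2 (ca_m B x) (ca_m B (x + 1 * d)) (ca_m B (x + 2 * d)))
    (fun x => ca_h2_nonneg _ _ _) T d (by
      intro x hx
      rw [ca_out B T hT x hx, ca_out B T hT (x + 1 * d) (by omega), ca_out B T hT (x + 2 * d) (by omega)]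
      decide)
  have hsum : ∑ x ∈ range T, (4 * (ca_b (ca_m B x) * ca_b (ca_m B (x + 1 * d)))
      + 2 * (ca_b (ca_m B x) * ca_b (ca_m B (x + 2 * d))) - 1 * (ca_b (ca_m B x) * ca_b (ca_m B (x + 3 * d)))
      - 2 * ca_b (ca_m B x)) ≤ 0 := by
    refine le_trans (Finset.sum_le_sum (fun x _ => ?_)) hs
    have e1 : x + d + 1 * d = x + 2 * d := by ring
    have e2 : x + d + 2 * d = x + 3 * d := by ring
    have k1 := key x
    have k2 := key (x + d)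
    rw [e1, e2] at k2 ⊢
    have e0 : x + d = x + 1 * d := by ring
    rw [e0] at k2 ⊢
    exact ca_p2 _ _ _ _ k1 k2
  have : ∑ x ∈ range T, (4 * (ca_b (ca_m B x) * ca_b (ca_m B (x + 1 * d)))
      + 2 * (ca_b (ca_m B x) * ca_b (ca_m B (x + 2 * d))) - 1 * (ca_b (ca_m B x) * ca_b (ca_m B (x + 3 * d)))
      - 2 * ca_b (ca_m B x))
      = 4 * ∑ x ∈ range T, (ca_b (ca_m B x) * ca_b (ca_m B (x + 1 * d)))
      + 2 * ∑ x ∈ range T, (ca_b (ca_m B x) * ca_b (ca_m B (x + 2 * d)))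
      - 1 * ∑ x ∈ range T, (ca_b (ca_m B x) * ca_b (ca_m B (x + 3 * d)))
      - 2 * ∑ x ∈ range T, ca_b (ca_m B x) := by
    simp only [Finset.sum_sub_distrib, Finset.sum_add_distrib, Finset.mul_sum]
  rw [this] at hsum
  have hr : ((4 * ∑ x ∈ range T, (ca_b (ca_m B x) * ca_b (ca_m B (x + 1 * d)))
      + 2 * ∑ x ∈ range T, (ca_b (ca_m B x) * ca_b (ca_m B (x + 2 * d)))
      - 1 * ∑ x ∈ range T, (ca_b (ca_m B x) * ca_b (ca_m B (x + 3 * d)))
      - 2 * ∑ x ∈ range T, ca_b (ca_m B x) : ℤ) : ℝ) ≤ 0 := by exact_mod_cast hsum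
  rw [Int.cast_sub, Int.cast_sub, Int.cast_add, Int.cast_mul, Int.cast_mul, Int.cast_mul, Int.cast_mul] at hr
  push_cast at hr ⊢
  linarith

theorem ca_r3 (B : Finset ℕ) (d : ℕ)
    (h : ∀ x : ℕ, ∃ i : ℕ, i ≤ 3 ∧ x + i * d ∉ B) :
    4 * cor B (1 * d) + 4 * cor B (2 * d) + cor B (3 * d) - 2 * cor B (4 * d) ≤ 4 * (B.card : ℝ) := by
  obtain ⟨T, hT⟩ := ca_bd B
  rw [ca_cor B T _ hT, ca_cor B T _ hT, ca_cor B T _ hT, ca_cor B T _ hT, ca_card B T hT]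
  have key : ∀ x, ¬ (ca_m B x = true ∧ ca_m B (x + 1 * d) = true ∧ ca_m B (x + 2 * d) = true
      ∧ ca_m B (x + 3 * d) = true) := by
    intro x hx
    obtain ⟨i, hi, hxi⟩ := h x
    unfold ca_m at hx
    simp only [decide_eq_true_eq] at hx
    interval_cases i
    · simp at hxi; exact hxi hx.1
    · exact hxi hx.2.1
    · exact hxi hx.2.2.1
    · exact hxi hx.2.2.2
  have hs := ca_tel (fun x => ca_h3 (ca_m B x) (ca_m B (x + 1 * d)) (ca_m B (x + 2 * d)) (ca_m B (x + 3 * d)))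
    (fun x => ca_h3_nonneg _ _ _ _) T d (by
      intro x hx
      rw [ca_out B T hT x hx, ca_out B T hT (x + 1 * d) (by omega), ca_out B T hT (x + 2 * d) (by omega),
        ca_out B T hT (x + 3 * d) (by omega)]
      decide)
  have hsum : ∑ x ∈ range T, (4 * (ca_b (ca_m B x) * ca_b (ca_m B (x + 1 * d)))
      + 4 * (ca_b (ca_m B x) * ca_b (ca_m B (x + 2 * d))) + 1 * (ca_b (ca_m B x) * ca_b (ca_m B (x + 3 * d)))
      - 2 * (ca_b (ca_m B x) * ca_b (ca_m B (x + 4 * d)))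
      - 4 * ca_b (ca_m B x)) ≤ 0 := by
    refine le_trans (Finset.sum_le_sum (fun x _ => ?_)) hs
    have e1 : x + d + 1 * d = x + 2 * d := by ring
    have e2 : x + d + 2 * d = x + 3 * d := by ring
    have e3 : x + d + 3 * d = x + 4 * d := by ring
    have k1 := key x
    have k2 := key (x + d)
    rw [e1, e2, e3] at k2 ⊢
    have e0 : x + d = x + 1 * d := by ring
    rw [e0] at k2 ⊢
    exact ca_p3 _ _ _ _ _ k1 k2
  have : ∑ x ∈ range T, (4 * (ca_b (ca_m B x) * ca_b (ca_m B (x + 1 * d)))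
      + 4 * (ca_b (ca_m B x) * ca_b (ca_m B (x + 2 * d))) + 1 * (ca_b (ca_m B x) * ca_b (ca_m B (x + 3 * d)))
      - 2 * (ca_b (ca_m B x) * ca_b (ca_m B (x + 4 * d)))
      - 4 * ca_b (ca_m B x))
      = 4 * ∑ x ∈ range T, (ca_b (ca_m B x) * ca_b (ca_m B (x + 1 * d)))
      + 4 * ∑ x ∈ range T, (ca_b (ca_m B x) * ca_b (ca_m B (x + 2 * d)))
      + 1 * ∑ x ∈ range T, (ca_b (ca_m B x) * ca_b (ca_m B (x + 3 * d)))
      - 2 * ∑ x ∈ range T, (ca_b (ca_m B x) * ca_b (ca_m B (x + 4 * d)))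
      - 4 * ∑ x ∈ range T, ca_b (ca_m B x) := by
    simp only [Finset.sum_sub_distrib, Finset.sum_add_distrib, Finset.mul_sum]
  rw [this] at hsum
  have hr : ((4 * ∑ x ∈ range T, (ca_b (ca_m B x) * ca_b (ca_m B (x + 1 * d)))
      + 4 * ∑ x ∈ range T, (ca_b (ca_m B x) * ca_b (ca_m B (x + 2 * d)))
      + 1 * ∑ x ∈ range T, (ca_b (ca_m B x) * ca_b (ca_m B (x + 3 * d)))
      - 2 * ∑ x ∈ range T, (ca_b (ca_m B x) * ca_b (ca_m B (x + 4 * d)))
      - 4 * ∑ x ∈ range T, ca_b (ca_m B x) : ℤ) : ℝ) ≤ 0 := by exact_mod_cast hsum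
  push_cast at hr ⊢
  linarith

theorem ca_r4 (B : Finset ℕ) (d : ℕ)
    (h : ∀ x : ℕ, ∃ i : ℕ, i ≤ 4 ∧ x + i * d ∉ B) :
    3 * cor B (1 * d) + 6 * cor B (2 * d) + 3 * cor B (3 * d) - 3 * cor B (5 * d) ≤ 6 * (B.card : ℝ) := by
  obtain ⟨T, hT⟩ := ca_bd B
  rw [ca_cor B T _ hT, ca_cor B T _ hT, ca_cor B T _ hT, ca_cor B T _ hT, ca_card B T hT]
  have key : ∀ x, ¬ (ca_m B x = true ∧ ca_m B (x + 1 * d) = true ∧ ca_m B (x + 2 * d) = true
      ∧ ca_m B (x + 3 * d) = true ∧ ca_m B (x + 4 * d) = true) := by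
    intro x hx
    obtain ⟨i, hi, hxi⟩ := h x
    unfold ca_m at hx
    simp only [decide_eq_true_eq] at hx
    interval_cases i
    · simp at hxi; exact hxi hx.1
    · exact hxi hx.2.1
    · exact hxi hx.2.2.1
    · exact hxi hx.2.2.2.1
    · exact hxi hx.2.2.2.2
  have hs := ca_tel (fun x => ca_h4 (ca_m B x) (ca_m B (x + 1 * d)) (ca_m B (x + 2 * d)) (ca_m B (x + 3 * d))
      (ca_m B (x + 4 * d)))
    (fun x => ca_h4_nonneg _ _ _ _ _) T d (by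
      intro x hx
      rw [ca_out B T hT x hx, ca_out B T hT (x + 1 * d) (by omega), ca_out B T hT (x + 2 * d) (by omega),
        ca_out B T hT (x + 3 * d) (by omega), ca_out B T hT (x + 4 * d) (by omega)]
      decide)
  have hsum : ∑ x ∈ range T, (3 * (ca_b (ca_m B x) * ca_b (ca_m B (x + 1 * d)))
      + 6 * (ca_b (ca_m B x) * ca_b (ca_m B (x + 2 * d))) + 3 * (ca_b (ca_m B x) * ca_b (ca_m B (x + 3 * d)))
      - 3 * (ca_b (ca_m B x) * ca_b (ca_m B (x + 5 * d)))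
      - 6 * ca_b (ca_m B x)) ≤ 0 := by
    refine le_trans (Finset.sum_le_sum (fun x _ => ?_)) hs
    have e1 : x + d + 1 * d = x + 2 * d := by ring
    have e2 : x + d + 2 * d = x + 3 * d := by ring
    have e3 : x + d + 3 * d = x + 4 * d := by ring
    have e4 : x + d + 4 * d = x + 5 * d := by ring
    have k1 := key x
    have k2 := key (x + d)
    rw [e1, e2, e3, e4] at k2 ⊢
    have e0 : x + d = x + 1 * d := by ring
    rw [e0] at k2 ⊢
    exact ca_p4 _ _ _ _ _ _ k1 k2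
  have : ∑ x ∈ range T, (3 * (ca_b (ca_m B x) * ca_b (ca_m B (x + 1 * d)))
      + 6 * (ca_b (ca_m B x) * ca_b (ca_m B (x + 2 * d))) + 3 * (ca_b (ca_m B x) * ca_b (ca_m B (x + 3 * d)))
      - 3 * (ca_b (ca_m B x) * ca_b (ca_m B (x + 5 * d)))
      - 6 * ca_b (ca_m B x))
      = 3 * ∑ x ∈ range T, (ca_b (ca_m B x) * ca_b (ca_m B (x + 1 * d)))
      + 6 * ∑ x ∈ range T, (ca_b (ca_m B x) * ca_b (ca_m B (x + 2 * d)))
      + 3 * ∑ x ∈ range T, (ca_b (ca_m B x) * ca_b (ca_m B (x + 3 * d)))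
      - 3 * ∑ x ∈ range T, (ca_b (ca_m B x) * ca_b (ca_m B (x + 5 * d)))
      - 6 * ∑ x ∈ range T, ca_b (ca_m B x) := by
    simp only [Finset.sum_sub_distrib, Finset.sum_add_distrib, Finset.mul_sum]
  rw [this] at hsum
  have hr : ((3 * ∑ x ∈ range T, (ca_b (ca_m B x) * ca_b (ca_m B (x + 1 * d)))
      + 6 * ∑ x ∈ range T, (ca_b (ca_m B x) * ca_b (ca_m B (x + 2 * d)))
      + 3 * ∑ x ∈ range T, (ca_b (ca_m B x) * ca_b (ca_m B (x + 3 * d)))
      - 3 * ∑ x ∈ range T, (ca_b (ca_m B x) * ca_b (ca_m B (x + 5 * d)))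
      - 6 * ∑ x ∈ range T, ca_b (ca_m B x) : ℤ) : ℝ) ≤ 0 := by exact_mod_cast hsum
  push_cast at hr ⊢
  linarith

/-- module CA. For r = 2, 3, 4: sum over `x` of the pointwise inequality
`sum_m cc r m * e 0 * e m - gg r * e 0 <= h (e 1, .., e (r+1)) - h (e 0, .., e r)`, `e i = 1_B (x + i d)`, with
potentials `h >= 0`, `h 0 = 0`. -/
theorem comb234 (r : ℕ) (hr : r = 2 ∨ r = 3 ∨ r = 4) (B : Finset ℕ) (d : ℕ) (hd : 0 < d)
    (h : ∀ x : ℕ, ∃ i : ℕ, i ≤ r ∧ x + i * d ∉ B) :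
    ∑ m ∈ Finset.Icc 1 5, (cc r m : ℝ) * cor B (m * d) ≤ (gg r : ℝ) * (B.card : ℝ) := by
  have hI : Finset.Icc 1 5 = ({1, 2, 3, 4, 5} : Finset ℕ) := by decide
  rw [hI]
  rcases hr with rfl | rfl | rfl
  · have := ca_r2 B d h
    simp [cc, gg]
    simp at this
    linarith
  · have := ca_r3 B d h
    simp [cc, gg]
    simp at this
    linarith
  · have := ca_r4 B d h
    simp [cc, gg]
    simp at this
    linarith

end Pool.Agent.RDf
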