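import Pool.Agent.RDf.Ana

/-! The core inequality behind `det` and `detCol`, for finite families of sets. -/

set_option autoImplicit false

namespace Pool.Agent.RDf

open Finset Filter

theorem co_unif (n : ℕ) (P : ℕ → ℝ → Prop) (hmono : ∀ i C C', C ≤ C' → P i C → P i C')
    (h : ∀ i, ∃ C, P i C) : ∃ C, 0 ≤ C ∧ ∀ i < n, P i C := by
  choose C hC using h
  refine ⟨∑ i ∈ range n, |C i|, Finset.sum_nonneg (fun i _ => abs_nonneg _), fun i hi => ?_⟩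
  refine hmono i (C i) _ ?_ (hC i)
  exact le_trans (le_abs_self _)
    (Finset.single_le_sum (f := fun i => |C i|) (fun i _ => abs_nonneg _) (Finset.mem_range.mpr hi))

/-- Sum of `RR` over a family. -/
noncomputable def RS {k : ℕ} (B : Fin k → Finset ℕ) (j Q m : ℕ) : ℝ := ∑ i, RR (B i) j Q m

/-- Total size of a family. -/
noncomputable def TT {k : ℕ} (B : Fin k → Finset ℕ) : ℝ := ∑ i, ((B i).card : ℝ)

theorem TT_nonneg {k : ℕ} (B : Fin k → Finset ℕ) : 0 ≤ TT B :=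
  Finset.sum_nonneg (fun i _ => by positivity)

theorem fam_lag (k Q m : ℕ) (hQ : 1 ≤ Q) (hm : 1 ≤ m) : ∃ C : ℝ, ∀ (j : ℕ) (B : Fin k → Finset ℕ),
    |RS B j Q m - RS B j (m * Q) 1| ≤ C * TT B := by
  obtain ⟨C, hC⟩ := RR_lag Q m hQ hm
  refine ⟨C, fun j B => ?_⟩
  unfold RS TT
  rw [← Finset.sum_sub_distrib, Finset.mul_sum]
  exact le_trans (Finset.abs_sum_le_sum_abs _ _) (Finset.sum_le_sum (fun i _ => hC j (B i)))

theorem fam_mono (k Q m : ℕ) (hQ : 1 ≤ Q) (hm : 1 ≤ m) : ∃ C : ℝ, ∀ (j : ℕ) (B : Fin k → Finset ℕ),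
    RS B j Q 1 ≤ RS B j (m * Q) 1 + C * TT B := by
  obtain ⟨C, hC⟩ := RR_mono Q m hQ hm
  refine ⟨C, fun j B => ?_⟩
  unfold RS TT
  rw [Finset.mul_sum, ← Finset.sum_add_distrib]
  exact Finset.sum_le_sum (fun i _ => hC j (B i))

theorem fam_up (k Q : ℕ) (hQ : 1 ≤ Q) : ∃ C : ℝ, ∀ (j : ℕ) (B : Fin k → Finset ℕ),
    RS B j Q 1 ≤ (j * Real.log 2 + C) * TT B := by
  obtain ⟨C, hC⟩ := RR_up Q hQ
  refine ⟨C, fun j B => ?_⟩
  unfold RS TT
  rw [Finset.mul_sum]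
  exact Finset.sum_le_sum (fun i _ => hC j (B i))

theorem fam_low (k Q : ℕ) (hQ : 1 ≤ Q) : ∃ C : ℝ, ∀ (j : ℕ), Q ≤ 4 ^ j → ∀ (N : ℕ), 1 ≤ N →
    ∀ B : Fin k → Finset ℕ, (∀ i, ∀ x ∈ B i, x < N) →
    (j : ℝ) * Real.log 2 * ((∑ i, ((B i).card : ℝ) ^ 2) / ((N : ℝ) + (4 : ℝ) ^ j)) - C * TT B
      ≤ RS B j Q 1 := by
  obtain ⟨C, hC⟩ := RR_low Q hQ
  refine ⟨C, fun j hj N hN B hB => ?_⟩
  unfold RS TT
  rw [Finset.sum_div, Finset.mul_sum, Finset.mul_sum, ← Finset.sum_sub_distrib]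
  exact Finset.sum_le_sum (fun i _ => hC j hj N hN (B i) (hB i))

/-- All estimates at the modulus `Q`, with the constant `C`. -/
def PCon (k Q : ℕ) (C : ℝ) : Prop := ∀ (B : Fin k → Finset ℕ) (j : ℕ),
   (∀ m ∈ Finset.Icc 1 5, |RS B j Q m - RS B j Q 1| ≤ (RS B j (60 * Q) 1 - RS B j Q 1) + C * TT B) ∧
   RS B j Q 1 ≤ (j * Real.log 2 + C) * TT B ∧
   (Q ≤ 4 ^ j → ∀ N : ℕ, 1 ≤ N → (∀ i, ∀ x ∈ B i, x < N) →
    (j : ℝ) * Real.log 2 * ((∑ i, ((B i).card : ℝ) ^ 2) / ((N : ℝ) + (4 : ℝ) ^ j)) - C * TT B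
      ≤ RS B j Q 1) ∧
   |(Q : ℝ) * ∑ d ∈ blk j Q, 1 / (d : ℝ) - j * Real.log 2| ≤ C

theorem pcon_mono (k Q : ℕ) (C C' : ℝ) (h : C ≤ C') (hC : PCon k Q C) : PCon k Q C' := by
  intro B j
  obtain ⟨h1, h2, h3, h4⟩ := hC B j
  have hT := mul_le_mul_of_nonneg_right h (TT_nonneg B)
  refine ⟨fun m hm => ?_, ?_, fun hQ N hN hB => ?_, ?_⟩
  · have := h1 m hm; linarith
  · have : (j * Real.log 2 + C') * TT B = (j * Real.log 2 + C) * TT B + (C' * TT B - C * TT B) := by ring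
    linarith
  · have := h3 hQ N hN hB; linarith
  · linarith

theorem pcon_lag (k Q m : ℕ) (hQ : 1 ≤ Q) (hm1 : 1 ≤ m) (hm5 : m ≤ 5) :
    ∃ C : ℝ, ∀ (B : Fin k → Finset ℕ) (j : ℕ),
    |RS B j Q m - RS B j Q 1| ≤ (RS B j (60 * Q) 1 - RS B j Q 1) + C * TT B := by
  obtain ⟨C1, h1⟩ := fam_lag k Q m hQ hm1
  obtain ⟨C2, h2⟩ := fam_mono k Q m hQ hm1
  have hmd : m * (60 / m) = 60 := by interval_cases m <;> norm_num
  have hmp : 1 ≤ 60 / m := by interval_cases m <;> norm_num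
  obtain ⟨C3, h3⟩ := fam_mono k (m * Q) (60 / m) (Nat.mul_pos hm1 hQ) hmp
  have e : (60 / m) * (m * Q) = 60 * Q := by rw [← Nat.mul_assoc, Nat.mul_comm (60 / m) m, hmd]
  rw [e] at h3
  refine ⟨|C1| + 2 * |C2| + |C3| + |C1|, fun B j => ?_⟩
  have a1 := h1 j B
  have a2 := h2 j B
  have a3 := h3 j B
  have hT := TT_nonneg B
  have b1 := mul_le_mul_of_nonneg_right (le_abs_self C1) hT
  have b2 := mul_le_mul_of_nonneg_right (le_abs_self C2) hT
  have b3 := mul_le_mul_of_nonneg_right (le_abs_self C3) hT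
  have c1 := mul_nonneg (abs_nonneg C1) hT
  have c2 := mul_nonneg (abs_nonneg C2) hT
  have c3 := mul_nonneg (abs_nonneg C3) hT
  rw [abs_le] at a1 ⊢
  have e2 : (|C1| + 2 * |C2| + |C3| + |C1|) * TT B
    = 2 * (|C1| * TT B) + 2 * (|C2| * TT B) + |C3| * TT B := by ring
  rw [e2]
  constructor <;> linarith [a1.1, a1.2]

theorem pcon_ex (k Q : ℕ) (hQ : 1 ≤ Q) : ∃ C : ℝ, PCon k Q C := by
  have h1 : ∀ m : ℕ, ∃ C : ℝ, 1 ≤ m → m ≤ 5 → ∀ (B : Fin k → Finset ℕ) (j : ℕ),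
    |RS B j Q m - RS B j Q 1| ≤ (RS B j (60 * Q) 1 - RS B j Q 1) + C * TT B := by
    intro m
    by_cases hm : 1 ≤ m ∧ m ≤ 5
    · obtain ⟨C, hC⟩ := pcon_lag k Q m hQ hm.1 hm.2
      exact ⟨C, fun _ _ => hC⟩
    · exact ⟨0, fun h1 h2 => absurd ⟨h1, h2⟩ hm⟩
  obtain ⟨C1, hC1, h1'⟩ := co_unif 6 _ (fun m C C' hCC h hm hm' B j => by
    have := h hm hm' B j
    have hT := mul_le_mul_of_nonneg_right hCC (TT_nonneg B)
    linarith) h1
  obtain ⟨C2, h2⟩ := fam_up k Q hQ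
  obtain ⟨C3, h3⟩ := fam_low k Q hQ
  obtain ⟨C4, h4⟩ := blk_mass Q hQ
  refine ⟨C1 + |C2| + |C3| + |C4|, fun B j => ?_⟩
  have hT := TT_nonneg B
  have b2 := mul_le_mul_of_nonneg_right (le_abs_self C2) hT
  have b3 := mul_le_mul_of_nonneg_right (le_abs_self C3) hT
  have c1 := mul_nonneg hC1 hT
  have c2 := mul_nonneg (abs_nonneg C2) hT
  have c3 := mul_nonneg (abs_nonneg C3) hT
  have c4 := mul_nonneg (abs_nonneg C4) hT
  have e2 : (C1 + |C2| + |C3| + |C4|) * TT B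
    = C1 * TT B + |C2| * TT B + |C3| * TT B + |C4| * TT B := by ring
  refine ⟨fun m hm => ?_, ?_, fun hQ' N hN hB => ?_, ?_⟩
  · rw [Finset.mem_Icc] at hm
    have := h1' m (by omega) hm.1 hm.2 B j
    rw [e2]; linarith
  · have := h2 j B
    have e3 : (j * Real.log 2 + (C1 + |C2| + |C3| + |C4|)) * TT B
      = (j * Real.log 2 + C2) * TT B + (C1 * TT B + (|C2| * TT B - C2 * TT B) + |C3| * TT B + |C4| * TT B) := by ring
    rw [e3]; linarith
  · have := h3 j hQ' N hN B hB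
    rw [e2]; linarith
  · have := h4 j
    have := le_abs_self C4
    have := abs_nonneg C2
    have := abs_nonneg C3
    linarith

/-- One block. -/
theorem one_block (S : Set ℕ) (k : ℕ) (c : ℕ → ℝ) (g E : ℝ) (hg : 0 ≤ g) (hE : 0 ≤ E)
    (W : ℕ → ℝ) (hW0 : ∀ d, 0 ≤ W d) (hWS : ∀ d, W d ≠ 0 → d ∈ S) (Q : ℕ) (C : ℝ) (hP : PCon k Q C)
    (η : ℝ) (j : ℕ)
    (hW : ∀ θ : ℝ, |∑ d ∈ blk j Q, (W d - 1 / (d : ℝ)) * Real.cos (2 * Real.pi * d * θ)| ≤ η * j)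
    (B : Fin k → Finset ℕ)
    (h : ∀ d : ℕ, 0 < d → d ∈ S →
      ∑ m ∈ Finset.Icc 1 5, c m * ∑ i, cor (B i) (m * d) ≤ g * TT B + E * d) :
    (∑ m ∈ Finset.Icc 1 5, c m) * RS B j Q 1 ≤
      (g * TT B + E * 4 ^ j) * (j * Real.log 2 + C + Q * (η * j))
      + (∑ m ∈ Finset.Icc 1 5, |c m|) * (Q * (η * j) * TT B)
      + (∑ m ∈ Finset.Icc 1 5, |c m|) * ((RS B j (60 * Q) 1 - RS B j Q 1) + C * TT B) := by
  obtain ⟨p1, p2, p3, p4⟩ := hP B j
  have hQ0 : (0 : ℝ) ≤ (Q : ℝ) := Nat.cast_nonneg _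
  have hT := TT_nonneg B
  have hpos : ∀ d ∈ blk j Q, 0 < d ∧ d ≤ 4 ^ j := by
    intro d hd
    unfold blk at hd
    rw [Finset.mem_filter, Finset.mem_Icc] at hd
    exact ⟨lt_of_lt_of_le (by positivity) hd.1.1, hd.1.2⟩
  -- A1
  have A1 : ∑ d ∈ blk j Q, W d * (∑ m ∈ Finset.Icc 1 5, c m * ∑ i, cor (B i) (m * d))
      ≤ ∑ d ∈ blk j Q, W d * (g * TT B + E * 4 ^ j) := by
    refine Finset.sum_le_sum (fun d hd => ?_)
    by_cases hd0 : W d = 0
    · rw [hd0]; simp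
    · have h1 := h d (hpos d hd).1 (hWS d hd0)
      have h2 : E * (d : ℝ) ≤ E * 4 ^ j := by
        refine mul_le_mul_of_nonneg_left ?_ hE
        exact_mod_cast (hpos d hd).2
      exact mul_le_mul_of_nonneg_left (by linarith) (hW0 d)
  -- mass
  have M1 : ∑ d ∈ blk j Q, W d ≤ ∑ d ∈ blk j Q, 1 / (d : ℝ) + η * j := by
    have h0 := hW 0
    simp only [mul_zero, Real.cos_zero, mul_one, Finset.sum_sub_distrib] at h0
    have := (abs_le.mp h0).2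
    linarith
  have A4 : (Q : ℝ) * ∑ d ∈ blk j Q, W d * (g * TT B + E * 4 ^ j)
      ≤ (g * TT B + E * 4 ^ j) * (j * Real.log 2 + C + Q * (η * j)) := by
    rw [← Finset.sum_mul]
    have h0 : (0 : ℝ) ≤ g * TT B + E * 4 ^ j := by positivity
    have h1 : (Q : ℝ) * ∑ d ∈ blk j Q, W d ≤ j * Real.log 2 + C + Q * (η * j) := by
      have h2 := mul_le_mul_of_nonneg_left M1 hQ0
      rw [mul_add] at h2
      have := (abs_le.mp p4).2
      linarith
    have := mul_le_mul_of_nonneg_left h1 h0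
    calc (Q : ℝ) * ((∑ d ∈ blk j Q, W d) * (g * TT B + E * 4 ^ j))
        = (g * TT B + E * 4 ^ j) * ((Q : ℝ) * ∑ d ∈ blk j Q, W d) := by ring
      _ ≤ _ := this
  -- swapping
  have A2 : ∑ d ∈ blk j Q, W d * (∑ m ∈ Finset.Icc 1 5, c m * ∑ i, cor (B i) (m * d))
      = ∑ m ∈ Finset.Icc 1 5, c m * ∑ i, ∑ d ∈ blk j Q, W d * cor (B i) (m * d) := by
    simp only [Finset.mul_sum]
    rw [Finset.sum_comm]
    refine Finset.sum_congr rfl (fun m _ => ?_)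
    rw [Finset.sum_comm]
    refine Finset.sum_congr rfl (fun i _ => ?_)
    refine Finset.sum_congr rfl (fun d _ => ?_)
    ring
  have A3 : ∀ m, |(Q : ℝ) * ∑ i, ∑ d ∈ blk j Q, W d * cor (B i) (m * d) - RS B j Q m|
      ≤ Q * (η * j) * TT B := by
    intro m
    unfold RS RR TT
    rw [Finset.mul_sum, ← Finset.sum_sub_distrib, Finset.mul_sum]
    refine le_trans (Finset.abs_sum_le_sum_abs _ _) (Finset.sum_le_sum (fun i _ => ?_))
    have ht := transfer W j Q m η hW (B i)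
    have e1 : (Q : ℝ) * ∑ d ∈ blk j Q, W d * cor (B i) (m * d) - (Q : ℝ) * ∑ d ∈ blk j Q, cor (B i) (m * d) / (d : ℝ)
        = (Q : ℝ) * ∑ d ∈ blk j Q, (W d - 1 / (d : ℝ)) * cor (B i) (m * d) := by
      rw [← mul_sub, ← Finset.sum_sub_distrib]
      congr 1
      refine Finset.sum_congr rfl (fun d _ => ?_)
      ring
    rw [e1, abs_mul, abs_of_nonneg hQ0]
    have := mul_le_mul_of_nonneg_left ht hQ0
    calc (Q : ℝ) * |∑ d ∈ blk j Q, (W d - 1 / (d : ℝ)) * cor (B i) (m * d)|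
        ≤ Q * (η * j * ((B i).card : ℝ)) := this
      _ = Q * (η * j) * ((B i).card : ℝ) := by ring
  have A5 : ∑ m ∈ Finset.Icc 1 5, c m * RS B j Q m - (∑ m ∈ Finset.Icc 1 5, |c m|) * (Q * (η * j) * TT B)
      ≤ (Q : ℝ) * ∑ d ∈ blk j Q, W d * (∑ m ∈ Finset.Icc 1 5, c m * ∑ i, cor (B i) (m * d)) := by
    rw [A2, Finset.sum_mul, ← Finset.sum_sub_distrib, Finset.mul_sum]
    refine Finset.sum_le_sum (fun m _ => ?_)
    have h1 := A3 m
    have h2 : |c m * ((Q : ℝ) * ∑ i, ∑ d ∈ blk j Q, W d * cor (B i) (m * d) - RS B j Q m)|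
        ≤ |c m| * (Q * (η * j) * TT B) := by
      rw [abs_mul]; exact mul_le_mul_of_nonneg_left h1 (abs_nonneg _)
    have h3 := (abs_le.mp h2).1
    have e : (Q : ℝ) * (c m * ∑ i, ∑ d ∈ blk j Q, W d * cor (B i) (m * d))
      = c m * ((Q : ℝ) * ∑ i, ∑ d ∈ blk j Q, W d * cor (B i) (m * d) - RS B j Q m) + c m * RS B j Q m := by ring
    rw [e]; linarith
  have A6 : (∑ m ∈ Finset.Icc 1 5, c m) * RS B j Q 1
      - (∑ m ∈ Finset.Icc 1 5, |c m|) * ((RS B j (60 * Q) 1 - RS B j Q 1) + C * TT B)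
      ≤ ∑ m ∈ Finset.Icc 1 5, c m * RS B j Q m := by
    rw [Finset.sum_mul, Finset.sum_mul, ← Finset.sum_sub_distrib]
    refine Finset.sum_le_sum (fun m hm => ?_)
    have h1 := p1 m hm
    have h2 : |c m * (RS B j Q m - RS B j Q 1)|
        ≤ |c m| * ((RS B j (60 * Q) 1 - RS B j Q 1) + C * TT B) := by
      rw [abs_mul]; exact mul_le_mul_of_nonneg_left h1 (abs_nonneg _)
    have h3 := (abs_le.mp h2).1
    have e : c m * RS B j Q m = c m * (RS B j Q m - RS B j Q 1) + c m * RS B j Q 1 := by ring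
    rw [e]; linarith
  have A7 := mul_le_mul_of_nonneg_left A1 hQ0
  linarith

/-- Pigeonhole. -/
theorem co_pigeon (R : ℕ → ℝ) (J : ℕ) (hJ : 1 ≤ J) (X : ℝ) (h : R J - R 0 ≤ X) :
    ∃ i, i < J ∧ R (i + 1) - R i ≤ X / J := by
  by_contra hcon
  push Not at hcon
  have h1 : ∑ i ∈ range J, X / (J : ℝ) < ∑ i ∈ range J, (R (i + 1) - R i) := by
    refine Finset.sum_lt_sum_of_nonempty (by simpa using by omega) (fun i hi => hcon i (Finset.mem_range.mp hi))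
  rw [Finset.sum_range_sub, Finset.sum_const, Finset.card_range, nsmul_eq_mul] at h1
  have hJ0 : (J : ℝ) ≠ 0 := by positivity
  rw [mul_div_cancel₀ _ hJ0] at h1
  linarith

theorem co_ar (s T x Y g K C P EE ε D R J : ℝ) (hs : 0 ≤ s) (hT : 0 ≤ T) (hx : 0 ≤ x) (hK : 0 ≤ K)
    (hC : 0 ≤ C) (hJ1 : 1 ≤ J) (h1 : (g + K + s) * C ≤ ε / 8 * x) (h2 : 2 * K * C ≤ ε / 8 * x)
    (hgP : (g + K) * P ≤ ε / 8 * x) (hKJ : K / J ≤ ε / 8)
    (ob : s * R ≤ (g * T + EE) * (x + C + P) + K * (P * T) + K * (D + C * T))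
    (hD : D ≤ (x + 2 * C) * T / J) (low : x * Y - C * T ≤ R) :
    s * (x * Y) ≤ T * x * (g + ε / 2) + EE * (x + C + P) := by
  have a1 := mul_le_mul_of_nonneg_left h1 hT
  have a2 := mul_le_mul_of_nonneg_left hgP hT
  have a3 := mul_le_mul_of_nonneg_left hD hK
  have a4 := mul_le_mul_of_nonneg_left low hs
  have a5 : K * ((x + 2 * C) * T / J) ≤ (ε / 8 * x + ε / 8 * x) * T := by
    have e : K * ((x + 2 * C) * T / J) = (K / J * x + 2 * K * C / J) * T := by ring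
    rw [e]
    refine mul_le_mul_of_nonneg_right ?_ hT
    have a := mul_le_mul_of_nonneg_right hKJ hx
    have b : 2 * K * C / J ≤ 2 * K * C := div_le_self (by positivity) hJ1
    linarith
  nlinarith [a1, a2, a3, a4, a5, ob]

/-- The core inequality. -/
theorem core (S : Set ℕ) (hS : Good S) (k : ℕ) (c : ℕ → ℝ) (g E ε : ℝ) (hg : 0 ≤ g) (hE : 0 ≤ E)
    (hε : 0 < ε) (hs : 0 ≤ ∑ m ∈ Finset.Icc 1 5, c m) :
    ∃ M : ℕ, ∀ N : ℕ, M ≤ N → ∀ B : Fin k → Finset ℕ, (∀ i, ∀ x ∈ B i, x < N) →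
      (∀ d : ℕ, 0 < d → d ∈ S →
        ∑ m ∈ Finset.Icc 1 5, c m * ∑ i, cor (B i) (m * d) ≤ g * TT B + E * d) →
      (∑ m ∈ Finset.Icc 1 5, c m) * ∑ i, ((B i).card : ℝ) ^ 2 ≤ (g + ε) * TT B * N + ε * N ^ 2 := by
  obtain ⟨W, hW0, hWS, hWG⟩ := hS
  generalize hK : ∑ m ∈ Finset.Icc 1 5, |c m| = K
  generalize hsd : ∑ m ∈ Finset.Icc 1 5, c m = s at hs ⊢
  have hK0 : 0 ≤ K := by rw [← hK]; exact Finset.sum_nonneg (fun _ _ => abs_nonneg _)
  have hL : 0 < Real.log 2 := Real.log_pos (by norm_num)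
  generalize hLd : Real.log 2 = L at hL
  obtain ⟨J, hJ1, hJ⟩ : ∃ J : ℕ, 1 ≤ J ∧ K / (J : ℝ) ≤ ε / 8 := by
    obtain ⟨J, hJ⟩ := exists_nat_ge (8 * K / ε)
    refine ⟨J + 1, by omega, ?_⟩
    rw [div_le_iff₀ (by positivity)]
    rw [div_le_iff₀ hε] at hJ
    push_cast
    nlinarith
  obtain ⟨C, hC0, hC⟩ := co_unif (J + 1) (fun i C => PCon k (60 ^ i) C)
    (fun i C C' h => pcon_mono k _ C C' h) (fun i => pcon_ex k (60 ^ i) (Nat.one_le_pow _ _ (by norm_num)))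
  obtain ⟨η, hη, hη1⟩ : ∃ η : ℝ, 0 < η ∧ (g + K) * (60 ^ J * η) ≤ ε / 8 * L := by
    refine ⟨ε * L / (8 * ((g + K + 1) * 60 ^ J)), by positivity, ?_⟩
    have h1 : (60 : ℝ) ^ J * (ε * L / (8 * ((g + K + 1) * 60 ^ J))) = ε * L / (8 * (g + K + 1)) := by
      field_simp
    rw [h1]
    rw [mul_div_assoc', div_le_iff₀ (by positivity)]
    have : 0 ≤ ε * L := by positivity
    nlinarith
  -- choice of j
  have T0 : Tendsto (fun j : ℕ => ε / 8 * ((j : ℝ) * L)) atTop atTop := by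
    refine Tendsto.const_mul_atTop (by positivity) ?_
    exact Tendsto.atTop_mul_const hL tendsto_natCast_atTop_atTop
  have E1 := T0.eventually_ge_atTop ((g + K + s) * C)
  have E2 := T0.eventually_ge_atTop (2 * K * C)
  have E3 : ∀ᶠ j : ℕ in atTop, 60 ^ J ≤ 4 ^ j :=
    (tendsto_pow_atTop_atTop_of_one_lt (by norm_num : 1 < 4)).eventually_ge_atTop _
  have E4 : ∀ᶠ j : ℕ in atTop, ∀ i ∈ range (J + 1), ∀ θ : ℝ,
      |∑ d ∈ blk j (60 ^ i), (W d - 1 / (d : ℝ)) * Real.cos (2 * Real.pi * d * θ)| ≤ η * j := by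
    rw [Filter.eventually_all_finset]
    intro i _
    obtain ⟨j0, hj0⟩ := hWG (60 ^ i) (Nat.one_le_pow _ _ (by norm_num)) η hη
    exact eventually_atTop.mpr ⟨j0, hj0⟩
  obtain ⟨j, h1, h2, h3, h4, h5⟩ := (E1.and (E2.and (E3.and (E4.and (eventually_ge_atTop 1))))).exists
  have hj0 : (0 : ℝ) < j := by exact_mod_cast h5
  have hLj : 0 < (j : ℝ) * L := by positivity
  generalize hF : E * 4 ^ j * ((j : ℝ) * L + C + 60 ^ J * (η * j)) = F
  have hF0 : 0 ≤ F := by rw [← hF]; positivity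
  refine ⟨⌈(4 : ℝ) ^ j * (g + ε / 2) * 2 / ε⌉₊ + ⌈2 * F / ((j : ℝ) * L * ε)⌉₊ + 4 ^ j + 1, ?_⟩
  intro N hN B hB hcomb
  have h4p : 0 < 4 ^ j := by positivity
  have hN1 : 1 ≤ N := by omega
  have hN1' : (1 : ℝ) ≤ N := by exact_mod_cast hN1
  have hNa : (4 : ℝ) ^ j * (g + ε / 2) * 2 / ε ≤ N := by
    refine le_trans (Nat.le_ceil _) ?_
    exact_mod_cast (by omega : ⌈(4 : ℝ) ^ j * (g + ε / 2) * 2 / ε⌉₊ ≤ N)
  have hNb : 2 * F / ((j : ℝ) * L * ε) ≤ N := by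
    refine le_trans (Nat.le_ceil _) ?_
    exact_mod_cast (by omega : ⌈2 * F / ((j : ℝ) * L * ε)⌉₊ ≤ N)
  have hNc : (4 : ℝ) ^ j ≤ N := by exact_mod_cast (by omega : 4 ^ j ≤ N)
  have hT := TT_nonneg B
  generalize hV : ∑ i, ((B i).card : ℝ) ^ 2 = V
  have hV0 : 0 ≤ V := by rw [← hV]; exact Finset.sum_nonneg (fun _ _ => by positivity)
  have hpow : ∀ i, i ≤ J → (60 : ℕ) ^ i ≤ 4 ^ j := fun i hi =>
    le_trans (Nat.pow_le_pow_right (by norm_num) hi) h3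
  -- pigeonhole
  have up : RS B j (60 ^ J) 1 ≤ ((j : ℝ) * L + C) * TT B := by
    have := (hC J (by omega) B j).2.1
    rwa [hLd] at this
  have low0 : - (C * TT B) ≤ RS B j (60 ^ 0) 1 := by
    have := (hC 0 (by omega) B j).2.2.1 (hpow 0 (by omega)) N hN1 hB
    rw [hLd, hV] at this
    have h0 : 0 ≤ (j : ℝ) * L * (V / ((N : ℝ) + 4 ^ j)) := by positivity
    refine le_trans ?_ this
    linarith
  obtain ⟨i, hi, hpg⟩ := co_pigeon (fun i => RS B j (60 ^ i) 1) J hJ1 (((j : ℝ) * L + 2 * C) * TT B) (by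
    have e : ((j : ℝ) * L + 2 * C) * TT B = ((j : ℝ) * L + C) * TT B + C * TT B := by ring
    linarith)
  have ob := one_block S k c g E hg hE W hW0 hWS (60 ^ i) C (hC i (by omega)) η j
    (h4 i (Finset.mem_range.mpr (by omega))) B hcomb
  have e60 : 60 * 60 ^ i = 60 ^ (i + 1) := by rw [pow_succ, Nat.mul_comm]
  rw [e60, hK, hsd, hLd] at ob
  have lowi := (hC i (by omega) B j).2.2.1 (hpow i (by omega)) N hN1 hB
  rw [hLd, hV] at lowi
  -- bounds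
  have hQi : ((60 ^ i : ℕ) : ℝ) * (η * j) ≤ 60 ^ J * (η * j) := by
    refine mul_le_mul_of_nonneg_right ?_ (by positivity)
    exact_mod_cast Nat.pow_le_pow_right (by norm_num) hi.le
  generalize hP : (60 : ℝ) ^ J * (η * j) = P at hQi hF
  have hP0 : 0 ≤ P := by rw [← hP]; positivity
  have hgP : (g + K) * P ≤ ε / 8 * ((j : ℝ) * L) := by
    have := mul_le_mul_of_nonneg_right hη1 hj0.le
    calc (g + K) * P = (g + K) * (60 ^ J * η) * j := by rw [← hP]; ring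
      _ ≤ ε / 8 * L * j := this
      _ = _ := by ring
  have hx1 : (g * TT B + E * 4 ^ j) * ((j : ℝ) * L + C + ((60 ^ i : ℕ) : ℝ) * (η * j))
      ≤ (g * TT B + E * 4 ^ j) * ((j : ℝ) * L + C + P) :=
    mul_le_mul_of_nonneg_left (by linarith) (by positivity)
  have hx2 : K * (((60 ^ i : ℕ) : ℝ) * (η * j) * TT B) ≤ K * (P * TT B) :=
    mul_le_mul_of_nonneg_left (mul_le_mul_of_nonneg_right hQi hT) hK0
  have hJp : (1 : ℝ) ≤ J := by exact_mod_cast hJ1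
  have hmain : s * ((j : ℝ) * L * (V / ((N : ℝ) + 4 ^ j)))
      ≤ TT B * ((j : ℝ) * L) * (g + ε / 2) + F := by
    rw [← hF]
    exact co_ar s (TT B) ((j : ℝ) * L) (V / ((N : ℝ) + 4 ^ j)) g K C P (E * 4 ^ j) ε
      (RS B j (60 ^ (i + 1)) 1 - RS B j (60 ^ i) 1) (RS B j (60 ^ i) 1) J hs hT hLj.le hK0 hC0 hJp
      h1 h2 hgP hJ (le_trans ob (by linarith only [hx1, hx2])) hpg lowi
  have hNp : (0 : ℝ) < (N : ℝ) + 4 ^ j := by positivity
  have h8 : s * V * ((j : ℝ) * L) ≤ (TT B * ((j : ℝ) * L) * (g + ε / 2) + F) * ((N : ℝ) + 4 ^ j) := by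
    have := mul_le_mul_of_nonneg_right hmain hNp.le
    have e : s * ((j : ℝ) * L * (V / ((N : ℝ) + 4 ^ j))) * ((N : ℝ) + 4 ^ j) = s * V * ((j : ℝ) * L) := by
      field_simp
    linarith only [this, e]
  have h9 : (g + ε / 2) * ((N : ℝ) + 4 ^ j) ≤ (g + ε) * N := by
    rw [div_le_iff₀ hε] at hNa
    have e : (g + ε / 2) * ((N : ℝ) + 4 ^ j) = (g + ε) * N - (N * ε - 4 ^ j * (g + ε / 2) * 2) / 2 := by ring
    rw [e]
    linarith only [hNa]
  have h10 : F * ((N : ℝ) + 4 ^ j) ≤ ε * N ^ 2 * ((j : ℝ) * L) := by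
    rw [div_le_iff₀ (by positivity)] at hNb
    calc F * ((N : ℝ) + 4 ^ j) ≤ F * (2 * N) := mul_le_mul_of_nonneg_left (by linarith only [hNc]) hF0
      _ = 2 * F * N := by ring
      _ ≤ (N : ℝ) * ((j : ℝ) * L * ε) * N := mul_le_mul_of_nonneg_right hNb (Nat.cast_nonneg _)
      _ = ε * N ^ 2 * ((j : ℝ) * L) := by ring
  have h11 : TT B * ((j : ℝ) * L) * ((g + ε / 2) * ((N : ℝ) + 4 ^ j)) ≤ TT B * ((j : ℝ) * L) * ((g + ε) * N) :=
    mul_le_mul_of_nonneg_left h9 (by positivity)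
  have h12 : s * V * ((j : ℝ) * L) ≤ ((g + ε) * TT B * N + ε * N ^ 2) * ((j : ℝ) * L) := by
    have e : (TT B * ((j : ℝ) * L) * (g + ε / 2) + F) * ((N : ℝ) + 4 ^ j)
      = TT B * ((j : ℝ) * L) * ((g + ε / 2) * ((N : ℝ) + 4 ^ j)) + F * ((N : ℝ) + 4 ^ j) := by ring
    have e' : ((g + ε) * TT B * N + ε * N ^ 2) * ((j : ℝ) * L)
      = TT B * ((j : ℝ) * L) * ((g + ε) * N) + ε * N ^ 2 * ((j : ℝ) * L) := by ring
    rw [e'] ; rw [e] at h8
    linarith only [h8, h10, h11]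
  exact le_of_mul_le_mul_right h12 hLj

theorem gg_nonneg (r : ℕ) (hr : 1 ≤ r) : 0 ≤ gg r := by
  unfold gg
  split_ifs <;> omega

/-- module DE. The deterministic theorem. -/
theorem det (S : Set ℕ) (hS : Good S) (r : ℕ) (hr : 1 ≤ r) (A : Set ℕ) (ε : ℝ) (hε : 0 < ε)
    (hA : ∃ᶠ N : ℕ in atTop, (tau r + ε) * (N : ℝ) < ((A ∩ Set.Iio N).ncard : ℝ)) :
    ∃ a d : ℕ, 0 < d ∧ d ∈ S ∧ ∀ i : ℕ, i ≤ r → a + i * d ∈ A := by
  classical
  by_contra hcon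
  push Not at hcon
  have hs : (0 : ℝ) < (ss r : ℝ) := by exact_mod_cast ss_pos r hr
  have hg : (0 : ℝ) ≤ (gg r : ℝ) := by exact_mod_cast gg_nonneg r hr
  have htau := tau_eq r hr
  have htau0 : 0 ≤ tau r := by rw [htau]; positivity
  have hst : (ss r : ℝ) * tau r = (gg r : ℝ) := by rw [htau]; field_simp
  have hsum : ∑ m ∈ Finset.Icc 1 5, (cc r m : ℝ) = (ss r : ℝ) := by exact_mod_cast cc_sum r
  obtain ⟨M, hM⟩ := core S hS 1 (fun m => (cc r m : ℝ)) (gg r) 0 ((ss r : ℝ) * ε ^ 2 / (1 + ε)) hg le_rfl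
    (by positivity) (by simp only [hsum]; exact hs.le)
  obtain ⟨N, hN, hN1, hbig⟩ := ((hA.and_eventually (eventually_ge_atTop (M + 1))).exists.imp
    (fun N hN => (⟨by omega, by omega, hN.1⟩ : M ≤ N ∧ 1 ≤ N ∧ _)))
  set B0 : Finset ℕ := (Finset.range N).filter (fun x => x ∈ A) with hB0
  have hset : A ∩ Set.Iio N = (B0 : Set ℕ) := by
    ext x
    simp only [hB0, Set.mem_inter_iff, Set.mem_Iio, Finset.coe_filter, Finset.mem_range, Set.mem_ofPred_eq]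
    tauto
  rw [hset, Set.ncard_coe_finset] at hbig
  have h1 := hM N hN (fun _ => B0) (by
    intro i x hx
    simp only [hB0, Finset.mem_filter, Finset.mem_range] at hx
    exact hx.1) (by
    intro d hd hdS
    have hc := comb r hr B0 d hd (fun x => by
      obtain ⟨i, hi, hx⟩ := hcon x d hd hdS
      refine ⟨i, hi, fun hmem => hx ?_⟩
      simp only [hB0, Finset.mem_filter] at hmem
      exact hmem.2)
    simpa [TT] using hc)
  simp only [TT, Finset.univ_unique, Finset.sum_singleton, hsum] at h1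
  have hNp : (0 : ℝ) < N := by exact_mod_cast hN1
  have hb : 0 < (B0.card : ℝ) := lt_of_le_of_lt (by positivity) hbig
  -- s b^2 > (g + s ε) b N
  have e1 : ((gg r : ℝ) + ss r * ε) * N * B0.card < (ss r : ℝ) * (B0.card : ℝ) ^ 2 := by
    have := mul_lt_mul_of_pos_right (mul_lt_mul_of_pos_left hbig hs) hb
    calc ((gg r : ℝ) + ss r * ε) * N * B0.card = (ss r : ℝ) * ((tau r + ε) * (N : ℝ)) * B0.card := by
          rw [← hst]; ring
      _ < _ := this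
      _ = _ := by ring
  set s : ℝ := (ss r : ℝ) with hsdef
  have e2 : (s * ε - s * ε ^ 2 / (1 + ε)) * N * B0.card < s * ε ^ 2 / (1 + ε) * N ^ 2 := by
    have e : (s * ε - s * ε ^ 2 / (1 + ε)) * N * B0.card
      = ((gg r : ℝ) + s * ε) * N * B0.card - (gg r + s * ε ^ 2 / (1 + ε)) * B0.card * N := by ring
    rw [e]
    linarith only [e1, h1]
  have e3 : s * ε - s * ε ^ 2 / (1 + ε) = s * ε / (1 + ε) := by
    have : (1 + ε) ≠ 0 := by positivity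
    field_simp
    ring
  rw [e3] at e2
  have e4 : ε * N ≤ B0.card := by
    have : ε * (N : ℝ) ≤ (tau r + ε) * (N : ℝ) := by
      refine mul_le_mul_of_nonneg_right (by linarith) hNp.le
    linarith
  have e5 : s * ε / (1 + ε) * N * (ε * N) ≤ s * ε / (1 + ε) * N * B0.card :=
    mul_le_mul_of_nonneg_left e4 (by positivity)
  have e6 : s * ε / (1 + ε) * N * (ε * N) = s * ε ^ 2 / (1 + ε) * N ^ 2 := by ring
  linarith only [e2, e5, e6]

/-- module DF. The deterministic theorem for colourings with two colours and four term progressions. -/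
theorem detCol (S : Set ℕ) (hS : Good S) (A : Set ℕ) :
    ∃ a d : ℕ, 0 < d ∧ d ∈ S ∧
      ((∀ i : ℕ, i ≤ 3 → a + i * d ∈ A) ∨ (∀ i : ℕ, i ≤ 3 → a + i * d ∉ A)) := by
  classical
  by_contra hcon
  push Not at hcon
  have hI : Finset.Icc 1 5 = ({1, 2, 3, 4, 5} : Finset ℕ) := by decide
  set c : ℕ → ℝ := fun m => if m = 1 then 6 else if m = 2 then 4 else if m = 3 then 2 else
    if m = 4 then -1 else 0 with hc
  have hsum : ∑ m ∈ Finset.Icc 1 5, c m = 11 := by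
    rw [hI]; simp [hc]; norm_num
  obtain ⟨M, hM⟩ := core S hS 2 c 5 100 (1 / 8) (by norm_num) (by norm_num)
    (by norm_num) (by rw [hsum]; norm_num)
  set N := M + 1 with hNdef
  set B0 : Finset ℕ := (Finset.range N).filter (fun x => x ∈ A) with hB0
  set B1 : Finset ℕ := (Finset.range N).filter (fun x => ¬ x ∈ A) with hB1
  have hU : B0 ∪ B1 = Finset.range N := Finset.filter_union_filter_not_eq _ _
  have hD : Disjoint B0 B1 := Finset.disjoint_filter_filter_not _ _ _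
  have hcard : (B0.card : ℝ) + B1.card = N := by
    rw [← Nat.cast_add, ← Finset.card_union_of_disjoint hD, hU, Finset.card_range]
  have h1 := hM N (by omega) ![B0, B1] (by
    intro i x hx
    fin_cases i
    · simp [hB0] at hx; exact hx.1
    · simp [hB1] at hx; exact hx.1) (by
    intro d hd hdS
    have hc2 := combCol N B0 B1 hU hD d hd (fun x hx => by
      obtain ⟨⟨i, hi, hxi⟩, ⟨i', hi', hxi'⟩⟩ := hcon x d hd hdS
      refine ⟨⟨i, hi, fun hmem => hxi ?_⟩, ⟨i', hi', fun hmem => ?_⟩⟩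
      · simp only [hB0, Finset.mem_filter] at hmem
        exact hmem.2
      · simp only [hB1, Finset.mem_filter] at hmem
        exact hmem.2 hxi')
    rw [hI]
    simp [hc, TT]
    linarith)
  simp only [TT, Fin.sum_univ_two, hsum, Matrix.cons_val_zero, Matrix.cons_val_one] at h1
  rw [hcard] at h1
  have hNp : (1 : ℝ) ≤ N := by exact_mod_cast (by omega : 1 ≤ N)
  have hsq : (N : ℝ) ^ 2 / 2 ≤ (B0.card : ℝ) ^ 2 + (B1.card : ℝ) ^ 2 := by
    rw [← hcard]; nlinarith [sq_nonneg ((B0.card : ℝ) - B1.card)]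
  nlinarith

end Pool.Agent.RDf
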