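import Mathlib

/-!
Random differences in Szemeredi's theorem at the optimal sparsity (MP_24534d_co).
Basic definitions.
-/

set_option autoImplicit false

namespace Pool.Agent.RDf

open Finset

/-- The multiples of `Q` in `[2^j, 4^j]`. -/
def blk (j Q : ℕ) : Finset ℕ := (Finset.Icc (2 ^ j) (4 ^ j)).filter (fun d => Q ∣ d)

/-- `S` carries nonnegative weights which are close to `1/d`, on every block and uniformly in all frequencies. -/
def Good (S : Set ℕ) : Prop :=
  ∃ W : ℕ → ℝ, (∀ d, 0 ≤ W d) ∧ (∀ d, W d ≠ 0 → d ∈ S) ∧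
    ∀ Q : ℕ, 1 ≤ Q → ∀ ε : ℝ, 0 < ε → ∃ j0 : ℕ, ∀ j : ℕ, j0 ≤ j → ∀ θ : ℝ,
      |∑ d ∈ blk j Q, (W d - 1 / (d : ℝ)) * Real.cos (2 * Real.pi * d * θ)| ≤ ε * j

/-- Number of `x ∈ B` with `x + n ∈ B`. -/
def cor (B : Finset ℕ) (n : ℕ) : ℝ := ((B.filter (fun x => x + n ∈ B)).card : ℝ)

/-- Coefficients of the combinatorial inequality for progressions with `r + 1` terms. -/
def cc (r m : ℕ) : ℤ :=
  if r = 2 then (if m = 1 then 4 else if m = 2 then 2 else if m = 3 then -1 else 0)
  else if r = 3 then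
    (if m = 1 then 4 else if m = 2 then 4 else if m = 3 then 1 else if m = 4 then -2 else 0)
  else if r = 4 then
    (if m = 1 then 3 else if m = 2 then 6 else if m = 3 then 3 else if m = 5 then -3 else 0)
  else (if m = 1 then (r : ℤ) else 0)

/-- Right hand side of the combinatorial inequality. -/
def gg (r : ℕ) : ℤ := if r = 2 then 2 else if r = 3 then 4 else if r = 4 then 6 else (r : ℤ) - 1

/-- Sum of the coefficients `cc r m`. -/
def ss (r : ℕ) : ℤ := if r = 2 then 5 else if r = 3 then 7 else if r = 4 then 9 else (r : ℤ)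

/-- The density threshold: `2/5` for three terms, `4/7` for four terms, `2/3` for five terms,
`1 - 1/r` for `r + 1` terms otherwise (so `0` for `r = 1`). -/
noncomputable def tau (r : ℕ) : ℝ :=
  if r = 2 then 2 / 5 else if r = 3 then 4 / 7 else if r = 4 then 2 / 3 else 1 - 1 / (r : ℝ)

/-- Distance to the nearest integer. -/
noncomputable def nrm (x : ℝ) : ℝ := |x - round x|

/-- The model of the kernel of the block `[2^j, 4^j]`: it is `j log 2` for `u ≤ 4^(-j)`, it decreases
like `- log u`, and it is `0` for `u ≥ 2^(-j)`. -/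
noncomputable def GG (j : ℕ) (u : ℝ) : ℝ :=
  max 0 (-(Real.log (max u (1 / (4 : ℝ) ^ j))) - j * Real.log 2)

/-- The kernel of the block. -/
noncomputable def kap (j Q : ℕ) (θ : ℝ) : ℝ :=
  (Q : ℝ) * ∑ d ∈ blk j Q, Real.cos (2 * Real.pi * d * θ) / (d : ℝ)

/-- The weighted average of the correlations at the lags `m * d`, `d` in the block. -/
noncomputable def RR (B : Finset ℕ) (j Q m : ℕ) : ℝ :=
  (Q : ℝ) * ∑ d ∈ blk j Q, cor B (m * d) / (d : ℝ)

/-- The Fejer kernel `|(1/H) sum_{h<H} e(h φ)|^2`, written with cosines. -/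
noncomputable def fej (H : ℕ) (φ : ℝ) : ℝ :=
  (1 / (H : ℝ) ^ 2) * ∑ h ∈ range H, ∑ h' ∈ range H, Real.cos (2 * Real.pi * ((h : ℝ) - (h' : ℝ)) * φ)

end Pool.Agent.RDf
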