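import Pool.Agent.RDf.Defs

/-! Probability: modules PA - PF. -/

set_option autoImplicit false

namespace Pool.Agent.RDf

open Finset Filter MeasureTheory ProbabilityTheory

private theorem PA_p_le_one {Ω : Type} [MeasurableSpace Ω] (μ : Measure Ω) [IsProbabilityMeasure μ]
    (E : Set Ω) (p : ℝ) (hμ : μ E = ENNReal.ofReal p) : p ≤ 1 := by
  have h : ENNReal.ofReal p ≤ 1 := hμ ▸ prob_le_one
  exact ENNReal.ofReal_le_one.mp h

/-- module PA. -/
theorem mgf_one {Ω : Type} [MeasurableSpace Ω] (μ : Measure Ω) [IsProbabilityMeasure μ]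
    (E : Set Ω) (hE : MeasurableSet E) (p : ℝ) (hp : 0 ≤ p) (hμ : μ E = ENNReal.ofReal p)
    (t : ℝ) (ht : |t| ≤ 1) :
    ∫ ω, Real.exp (t * (E.indicator (fun _ => (1 : ℝ)) ω - p)) ∂μ ≤ Real.exp (t ^ 2 * p) := by
  have hfun : (fun ω => Real.exp (t * (E.indicator (fun _ => (1 : ℝ)) ω - p)))
      = fun ω => Real.exp (-(t * p)) +
        E.indicator (fun _ => Real.exp (t * (1 - p)) - Real.exp (-(t * p))) ω := by
    funext ω
    by_cases h : ω ∈ E
    · simp [Set.indicator_of_mem h]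
    · simp [Set.indicator_of_notMem h]
  have hreal : μ.real E = p := by
    rw [measureReal_def, hμ, ENNReal.toReal_ofReal hp]
  rw [hfun, integral_add (integrable_const _) ((integrable_const _).indicator hE),
    integral_indicator_const _ hE, hreal, integral_const, probReal_univ]
  simp only [smul_eq_mul, one_mul]
  have e1 : Real.exp (t * (1 - p)) = Real.exp (-(t * p)) * Real.exp t := by
    rw [← Real.exp_add]; congr 1; ring
  rw [e1]
  have e2 : Real.exp (-(t * p)) + p * (Real.exp (-(t * p)) * Real.exp t - Real.exp (-(t * p)))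
      = Real.exp (-(t * p)) * (p * (Real.exp t - 1) + 1) := by ring
  rw [e2]
  have h1 : p * (Real.exp t - 1) + 1 ≤ Real.exp (p * (Real.exp t - 1)) := Real.add_one_le_exp _
  have h2 := (abs_le.mp (Real.abs_exp_sub_one_sub_id_le ht)).2
  calc Real.exp (-(t * p)) * (p * (Real.exp t - 1) + 1)
      ≤ Real.exp (-(t * p)) * Real.exp (p * (Real.exp t - 1)) :=
        mul_le_mul_of_nonneg_left h1 (Real.exp_pos _).le
    _ = Real.exp (p * (Real.exp t - 1 - t)) := by rw [← Real.exp_add]; congr 1; ring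
    _ ≤ Real.exp (t ^ 2 * p) := by
        apply Real.exp_le_exp.mpr
        rw [mul_comm (t ^ 2) p]
        exact mul_le_mul_of_nonneg_left h2 hp

private theorem PB_indep {Ω : Type} [MeasurableSpace Ω] (μ : Measure Ω)
    (p : ℕ → ℝ) (E : ℕ → Set Ω) (hi : iIndepSet E μ) (c : ℕ → ℝ) :
    iIndepFun (fun n ω => c n * ((E n).indicator (fun _ => (1 : ℝ)) ω - p n)) μ := by
  have h := (hi.iIndepFun_indicator (β := ℝ)).comp (fun n x => c n * (x - p n))
    (fun n => by fun_prop)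
  exact h

private theorem PB_meas {Ω : Type} [MeasurableSpace Ω]
    (p : ℕ → ℝ) (E : ℕ → Set Ω) (hE : ∀ n, MeasurableSet (E n)) (c : ℕ → ℝ) (n : ℕ) :
    Measurable (fun ω => c n * ((E n).indicator (fun _ => (1 : ℝ)) ω - p n)) :=
  ((measurable_const.indicator (hE n)).sub_const _).const_mul _

/-- module PB. -/
theorem mgf_sum {Ω : Type} [MeasurableSpace Ω] (μ : Measure Ω) [IsProbabilityMeasure μ]
    (p : ℕ → ℝ) (E : ℕ → Set Ω) (hp : ∀ n, 0 ≤ p n) (hE : ∀ n, MeasurableSet (E n))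
    (hi : iIndepSet E μ) (hμ : ∀ n, μ (E n) = ENNReal.ofReal (p n))
    (s : Finset ℕ) (c : ℕ → ℝ) (hc : ∀ n ∈ s, |c n| ≤ 1) :
    ∫ ω, Real.exp (∑ n ∈ s, c n * ((E n).indicator (fun _ => (1 : ℝ)) ω - p n)) ∂μ
      ≤ Real.exp (∑ n ∈ s, (c n) ^ 2 * p n) := by
  have h1 := iIndepFun.mgf_sum (t := 1) (PB_indep μ p E hi c) (fun n => PB_meas p E hE c n) s
  have h2 : ∫ ω, Real.exp (∑ n ∈ s, c n * ((E n).indicator (fun _ => (1 : ℝ)) ω - p n)) ∂μ
      = mgf (∑ i ∈ s, fun ω => c i * ((E i).indicator (fun _ => (1 : ℝ)) ω - p i)) μ 1 := by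
    unfold mgf
    congr 1
    funext ω
    beta_reduce
    rw [Finset.sum_apply, one_mul]
  rw [h2, h1, Real.exp_sum]
  apply Finset.prod_le_prod
  · intro i _
    exact mgf_nonneg
  · intro i hi'
    have h3 := mgf_one μ (E i) (hE i) (p i) (hp i) (hμ i) (c i) (hc i hi')
    unfold mgf
    simpa [one_mul] using h3

private theorem PC_int {Ω : Type} [MeasurableSpace Ω] (μ : Measure Ω) [IsProbabilityMeasure μ]
    (p : ℕ → ℝ) (E : ℕ → Set Ω) (hE : ∀ n, MeasurableSet (E n))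
    (s : Finset ℕ) (c : ℕ → ℝ) (l : ℝ) :
    Integrable (fun ω => Real.exp (l * ∑ n ∈ s, c n * ((E n).indicator (fun _ => (1 : ℝ)) ω - p n))) μ := by
  have hm : Measurable (fun ω => ∑ n ∈ s, c n * ((E n).indicator (fun _ => (1 : ℝ)) ω - p n)) :=
    Finset.measurable_sum s (fun n _ => PB_meas p E hE c n)
  refine Integrable.of_bound ((hm.const_mul l).exp.aestronglyMeasurable)
    (Real.exp (|l| * ∑ n ∈ s, |c n| * (1 + |p n|))) (Filter.Eventually.of_forall fun ω => ?_)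
  rw [Real.norm_eq_abs, Real.abs_exp]
  apply Real.exp_le_exp.mpr
  refine (le_abs_self _).trans ?_
  rw [abs_mul]
  apply mul_le_mul_of_nonneg_left _ (abs_nonneg l)
  refine (Finset.abs_sum_le_sum_abs _ _).trans (Finset.sum_le_sum fun n _ => ?_)
  rw [abs_mul]
  apply mul_le_mul_of_nonneg_left _ (abs_nonneg _)
  refine (abs_sub _ _).trans ?_
  have : |(E n).indicator (fun _ => (1 : ℝ)) ω| ≤ 1 := by
    by_cases h : ω ∈ E n
    · simp [Set.indicator_of_mem h]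
    · simp [Set.indicator_of_notMem h]
  linarith

private theorem PC_half {Ω : Type} [MeasurableSpace Ω] (μ : Measure Ω) [IsProbabilityMeasure μ]
    (p : ℕ → ℝ) (E : ℕ → Set Ω) (hp : ∀ n, 0 ≤ p n) (hE : ∀ n, MeasurableSet (E n))
    (hi : iIndepSet E μ) (hμ : ∀ n, μ (E n) = ENNReal.ofReal (p n))
    (s : Finset ℕ) (c : ℕ → ℝ) (l u : ℝ) (hl : 0 < l) (hc : ∀ n ∈ s, |l * c n| ≤ 1) :
    μ {ω | u ≤ ∑ n ∈ s, c n * ((E n).indicator (fun _ => (1 : ℝ)) ω - p n)}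
      ≤ ENNReal.ofReal (Real.exp (-(l * u) + l ^ 2 * ∑ n ∈ s, (c n) ^ 2 * p n)) := by
  have h1 := measure_ge_le_exp_mul_mgf (μ := μ)
    (X := fun ω => ∑ n ∈ s, c n * ((E n).indicator (fun _ => (1 : ℝ)) ω - p n)) u hl.le
    (PC_int μ p E hE s c l)
  have h2 : mgf (fun ω => ∑ n ∈ s, c n * ((E n).indicator (fun _ => (1 : ℝ)) ω - p n)) μ l
      ≤ Real.exp (l ^ 2 * ∑ n ∈ s, (c n) ^ 2 * p n) := by
    have h3 := mgf_sum μ p E hp hE hi hμ s (fun n => l * c n) hc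
    have e1 : ∑ n ∈ s, (l * c n) ^ 2 * p n = l ^ 2 * ∑ n ∈ s, (c n) ^ 2 * p n := by
      rw [Finset.mul_sum]
      exact Finset.sum_congr rfl fun n _ => by ring
    rw [e1] at h3
    refine le_trans (le_of_eq ?_) h3
    unfold mgf
    congr 1
    funext ω
    beta_reduce
    rw [Finset.mul_sum]
    congr 1
    exact Finset.sum_congr rfl fun n _ => by ring
  have h4 : μ.real {ω | u ≤ ∑ n ∈ s, c n * ((E n).indicator (fun _ => (1 : ℝ)) ω - p n)}
      ≤ Real.exp (-(l * u) + l ^ 2 * ∑ n ∈ s, (c n) ^ 2 * p n) := by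
    refine h1.trans ?_
    rw [Real.exp_add]
    have e2 : -l * u = -(l * u) := by ring
    rw [e2]
    exact mul_le_mul_of_nonneg_left h2 (Real.exp_pos _).le
  rw [← ofReal_measureReal (measure_ne_top μ _)]
  exact ENNReal.ofReal_le_ofReal h4

/-- module PC. -/
theorem tailBd {Ω : Type} [MeasurableSpace Ω] (μ : Measure Ω) [IsProbabilityMeasure μ]
    (p : ℕ → ℝ) (E : ℕ → Set Ω) (hp : ∀ n, 0 ≤ p n) (hE : ∀ n, MeasurableSet (E n))
    (hi : iIndepSet E μ) (hμ : ∀ n, μ (E n) = ENNReal.ofReal (p n))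
    (s : Finset ℕ) (c : ℕ → ℝ) (l u : ℝ) (hl : 0 < l) (hc : ∀ n ∈ s, |l * c n| ≤ 1) :
    μ {ω | u ≤ |∑ n ∈ s, c n * ((E n).indicator (fun _ => (1 : ℝ)) ω - p n)|}
      ≤ ENNReal.ofReal (2 * Real.exp (-(l * u) + l ^ 2 * ∑ n ∈ s, (c n) ^ 2 * p n)) := by
  have hsub : {ω | u ≤ |∑ n ∈ s, c n * ((E n).indicator (fun _ => (1 : ℝ)) ω - p n)|}
      ⊆ {ω | u ≤ ∑ n ∈ s, c n * ((E n).indicator (fun _ => (1 : ℝ)) ω - p n)} ∪
        {ω | u ≤ ∑ n ∈ s, (-c n) * ((E n).indicator (fun _ => (1 : ℝ)) ω - p n)} := by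
    intro ω hω
    simp only [Set.mem_setOf_eq, Set.mem_union] at hω ⊢
    rcases le_abs.mp hω with h | h
    · exact Or.inl h
    · right
      refine h.trans (le_of_eq ?_)
      rw [← Finset.sum_neg_distrib]
      exact Finset.sum_congr rfl fun n _ => by ring
  have h1 := PC_half μ p E hp hE hi hμ s c l u hl hc
  have h2 := PC_half μ p E hp hE hi hμ s (fun n => -c n) l u hl (fun n hn => by
    have := hc n hn
    rwa [mul_neg, abs_neg])
  have e3 : ∑ n ∈ s, (-c n) ^ 2 * p n = ∑ n ∈ s, (c n) ^ 2 * p n :=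
    Finset.sum_congr rfl fun n _ => by ring
  rw [e3] at h2
  refine (measure_mono hsub).trans ((measure_union_le _ _).trans ((add_le_add h1 h2).trans ?_))
  rw [← ENNReal.ofReal_add (Real.exp_pos _).le (Real.exp_pos _).le, ← two_mul]

/-- module PD. The weights of the random set. -/
noncomputable def WW {Ω : Type} (p : ℕ → ℝ) (E : ℕ → Set Ω) (ω : Ω) (d : ℕ) : ℝ :=
  (E d).indicator (fun _ => (1 : ℝ)) ω / ((d : ℝ) * p d)

private theorem PD_dyad (j m : ℕ) :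
    ∑ d ∈ Finset.Ico (2 ^ j : ℕ) (2 ^ (j + m)), (1 : ℝ) / (d : ℝ) ≤ m := by
  induction m with
  | zero => simp
  | succ m ih =>
    have h1 : 2 ^ j ≤ 2 ^ (j + m) := Nat.pow_le_pow_right (by norm_num) (by omega)
    have h2 : 2 ^ (j + m) ≤ 2 ^ (j + (m + 1)) := Nat.pow_le_pow_right (by norm_num) (by omega)
    rw [← Finset.sum_Ico_consecutive _ h1 h2]
    have h3 : ∑ d ∈ Finset.Ico (2 ^ (j + m) : ℕ) (2 ^ (j + (m + 1))), (1 : ℝ) / (d : ℝ) ≤ 1 := by
      have h4 : ∀ d ∈ Finset.Ico (2 ^ (j + m) : ℕ) (2 ^ (j + (m + 1))),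
          (1 : ℝ) / (d : ℝ) ≤ 1 / (2 : ℝ) ^ (j + m) := by
        intro d hd
        rw [Finset.mem_Ico] at hd
        apply one_div_le_one_div_of_le (by positivity)
        exact_mod_cast hd.1
      refine (Finset.sum_le_sum h4).trans ?_
      rw [Finset.sum_const, Nat.card_Ico, nsmul_eq_mul]
      have e : 2 ^ (j + (m + 1)) - 2 ^ (j + m) = 2 ^ (j + m) := by
        rw [← Nat.add_assoc, Nat.pow_succ]; omega
      rw [e]
      push_cast
      rw [mul_one_div_cancel (by positivity)]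
    push_cast
    linarith

private theorem PD_mass (j Q : ℕ) (hj : 1 ≤ j) :
    ∑ d ∈ blk j Q, (1 : ℝ) / (d : ℝ) ≤ 2 * j := by
  have hsub : blk j Q ⊆ insert (4 ^ j : ℕ) (Finset.Ico (2 ^ j : ℕ) (2 ^ (j + j))) := by
    intro d hd
    rw [blk, Finset.mem_filter, Finset.mem_Icc] at hd
    rw [Finset.mem_insert, Finset.mem_Ico]
    have e : 2 ^ (j + j) = 4 ^ j := by
      rw [← two_mul, pow_mul]; norm_num
    rw [e]
    omega
  have h1 : ∑ d ∈ blk j Q, (1 : ℝ) / (d : ℝ)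
      ≤ ∑ d ∈ insert (4 ^ j : ℕ) (Finset.Ico (2 ^ j : ℕ) (2 ^ (j + j))), (1 : ℝ) / (d : ℝ) :=
    Finset.sum_le_sum_of_subset_of_nonneg hsub (fun d _ _ => by positivity)
  have hn : (4 ^ j : ℕ) ∉ Finset.Ico (2 ^ j : ℕ) (2 ^ (j + j)) := by
    rw [Finset.mem_Ico]
    have e : 2 ^ (j + j) = 4 ^ j := by
      rw [← two_mul, pow_mul]; norm_num
    omega
  rw [Finset.sum_insert hn] at h1
  have h2 := PD_dyad j j
  have h3 : (1 : ℝ) / ((4 ^ j : ℕ) : ℝ) ≤ 1 := by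
    push_cast
    rw [div_le_one (by positivity)]
    exact one_le_pow₀ (by norm_num)
  have hj' : (1 : ℝ) ≤ j := by exact_mod_cast hj
  linarith

/-- module PD. One frequency, one block. -/
theorem blkTail {Ω : Type} [MeasurableSpace Ω] (μ : Measure Ω) [IsProbabilityMeasure μ]
    (p : ℕ → ℝ) (E : ℕ → Set Ω) (hp : ∀ n, 0 ≤ p n) (hE : ∀ n, MeasurableSet (E n))
    (hi : iIndepSet E μ) (hμ : ∀ n, μ (E n) = ENNReal.ofReal (p n))
    (j Q : ℕ) (hj : 1 ≤ j) (K ε : ℝ) (hK : 1 ≤ K) (hε : 0 < ε) (hε1 : ε ≤ 1)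
    (hKp : ∀ d ∈ blk j Q, K ≤ (d : ℝ) * p d) (θ : ℝ) :
    μ {ω | ε * j ≤ |∑ d ∈ blk j Q, (WW p E ω d - 1 / (d : ℝ)) * Real.cos (2 * Real.pi * d * θ)|}
      ≤ ENNReal.ofReal (2 * Real.exp (-(ε ^ 2 * K * j / 8))) := by
  have hK0 : 0 < K := by linarith
  have hd0 : ∀ d ∈ blk j Q, (0 : ℝ) < d := by
    intro d hd
    rw [blk, Finset.mem_filter, Finset.mem_Icc] at hd
    have : 0 < d := lt_of_lt_of_le (by positivity) hd.1.1
    exact_mod_cast this
  have hdp : ∀ d ∈ blk j Q, 0 < (d : ℝ) * p d := fun d hd => lt_of_lt_of_le hK0 (hKp d hd)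
  have hp0 : ∀ d ∈ blk j Q, 0 < p d := fun d hd => (pos_iff_pos_of_mul_pos (hdp d hd)).mp (hd0 d hd)
  set c : ℕ → ℝ := fun d => Real.cos (2 * Real.pi * d * θ) / ((d : ℝ) * p d) with hcdef
  have habs : ∀ d ∈ blk j Q, |c d| ≤ 1 / ((d : ℝ) * p d) := by
    intro d hd
    rw [hcdef]
    simp only
    rw [abs_div, abs_of_pos (hdp d hd)]
    exact div_le_div_of_nonneg_right (Real.abs_cos_le_one _) (hdp d hd).le
  have hK1 : ∀ d ∈ blk j Q, 1 / ((d : ℝ) * p d) ≤ 1 / K := fun d hd =>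
    one_div_le_one_div_of_le hK0 (hKp d hd)
  have hset : {ω | ε * j ≤ |∑ d ∈ blk j Q, (WW p E ω d - 1 / (d : ℝ)) * Real.cos (2 * Real.pi * d * θ)|}
      = {ω | ε * j ≤ |∑ n ∈ blk j Q, c n * ((E n).indicator (fun _ => (1 : ℝ)) ω - p n)|} := by
    ext ω
    simp only [Set.mem_setOf_eq]
    have e : ∑ d ∈ blk j Q, (WW p E ω d - 1 / (d : ℝ)) * Real.cos (2 * Real.pi * d * θ)
        = ∑ n ∈ blk j Q, c n * ((E n).indicator (fun _ => (1 : ℝ)) ω - p n) := by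
      apply Finset.sum_congr rfl
      intro d hd
      have h1 := hd0 d hd
      have h2 := hp0 d hd
      simp only [WW, hcdef]
      field_simp
    rw [e]
  rw [hset]
  have hl : 0 < ε * K / 4 := by positivity
  have hc : ∀ n ∈ blk j Q, |ε * K / 4 * c n| ≤ 1 := by
    intro d hd
    rw [abs_mul, abs_of_pos hl]
    calc ε * K / 4 * |c d| ≤ ε * K / 4 * (1 / K) :=
          mul_le_mul_of_nonneg_left ((habs d hd).trans (hK1 d hd)) hl.le
      _ = ε / 4 := by field_simp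
      _ ≤ 1 := by linarith
  refine (tailBd μ p E hp hE hi hμ (blk j Q) c (ε * K / 4) (ε * j) hl hc).trans ?_
  apply ENNReal.ofReal_le_ofReal
  apply mul_le_mul_of_nonneg_left _ (by norm_num)
  apply Real.exp_le_exp.mpr
  have hsum : ∑ n ∈ blk j Q, (c n) ^ 2 * p n ≤ 2 * j / K := by
    have h1 : ∀ d ∈ blk j Q, (c d) ^ 2 * p d ≤ (1 / K) * (1 / (d : ℝ)) := by
      intro d hd
      have hd1 := hd0 d hd
      have hp1 := hp0 d hd
      have hx : (c d) ^ 2 ≤ (1 / ((d : ℝ) * p d)) ^ 2 := by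
        rw [← sq_abs (c d)]
        exact pow_le_pow_left₀ (abs_nonneg _) (habs d hd) 2
      calc (c d) ^ 2 * p d ≤ (1 / ((d : ℝ) * p d)) ^ 2 * p d :=
            mul_le_mul_of_nonneg_right hx hp1.le
        _ = (1 / ((d : ℝ) * p d)) * (1 / (d : ℝ)) := by field_simp
        _ ≤ (1 / K) * (1 / (d : ℝ)) :=
            mul_le_mul_of_nonneg_right (hK1 d hd) (by positivity)
    refine (Finset.sum_le_sum h1).trans ?_
    rw [← Finset.mul_sum]
    calc (1 / K) * ∑ d ∈ blk j Q, (1 : ℝ) / (d : ℝ) ≤ (1 / K) * (2 * j) :=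
          mul_le_mul_of_nonneg_left (PD_mass j Q hj) (by positivity)
      _ = 2 * j / K := by ring
  have h2 : (ε * K / 4) ^ 2 * ∑ n ∈ blk j Q, (c n) ^ 2 * p n ≤ (ε * K / 4) ^ 2 * (2 * j / K) :=
    mul_le_mul_of_nonneg_left hsum (by positivity)
  have h3 : (ε * K / 4) ^ 2 * (2 * j / K) = ε ^ 2 * K * j / 8 := by
    field_simp
    ring
  rw [h3] at h2
  nlinarith [h2]

private theorem PE_cos (d : ℕ) (θ : ℝ) :
    Real.cos (2 * Real.pi * d * θ) = Real.cos (2 * Real.pi * d * Int.fract θ) := by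
  have h : 2 * Real.pi * d * θ = 2 * Real.pi * d * Int.fract θ + ((d : ℤ) * ⌊θ⌋ : ℤ) * (2 * Real.pi) := by
    have := Int.floor_add_fract θ
    push_cast
    nth_rewrite 1 [← this]
    ring
  rw [h, Real.cos_add_int_mul_two_pi]

/-- module PE. Deterministic passage from the grid `k / 64^j` to all frequencies. -/
theorem grid {Ω : Type} (p : ℕ → ℝ) (E : ℕ → Set Ω) (ω : Ω) (j Q : ℕ) (ε : ℝ) (hε : 0 < ε)
    (hKp : ∀ d ∈ blk j Q, 1 ≤ (d : ℝ) * p d)
    (hj : 13 ≤ ε * j * (4 : ℝ) ^ j)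
    (h : ∀ k : ℕ, k < 64 ^ j →
      |∑ d ∈ blk j Q, (WW p E ω d - 1 / (d : ℝ)) * Real.cos (2 * Real.pi * d * ((k : ℝ) / (64 : ℝ) ^ j))|
        ≤ ε * j) (θ : ℝ) :
    |∑ d ∈ blk j Q, (WW p E ω d - 1 / (d : ℝ)) * Real.cos (2 * Real.pi * d * θ)| ≤ 2 * ε * j := by
  have h64 : (0 : ℝ) < (64 : ℝ) ^ j := by positivity
  have hx0 : 0 ≤ Int.fract θ := Int.fract_nonneg θ
  have hx1 : Int.fract θ < 1 := Int.fract_lt_one θ
  set x : ℝ := Int.fract θ with hxdef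
  set k : ℕ := ⌊x * (64 : ℝ) ^ j⌋₊ with hk
  have hk1 : (k : ℝ) ≤ x * (64 : ℝ) ^ j := Nat.floor_le (by positivity)
  have hk2 : x * (64 : ℝ) ^ j < (k : ℝ) + 1 := Nat.lt_floor_add_one _
  have hklt : k < 64 ^ j := by
    have : (k : ℝ) < (64 : ℝ) ^ j := by
      refine lt_of_le_of_lt hk1 ?_
      calc x * (64 : ℝ) ^ j < 1 * (64 : ℝ) ^ j := mul_lt_mul_of_pos_right hx1 h64
        _ = (64 : ℝ) ^ j := one_mul _
    exact_mod_cast this
  have hdist : |x - (k : ℝ) / (64 : ℝ) ^ j| ≤ 1 / (64 : ℝ) ^ j := by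
    rw [abs_le]
    constructor
    · have : (k : ℝ) / (64 : ℝ) ^ j ≤ x := by rw [div_le_iff₀ h64]; exact hk1
      have h0 : (0 : ℝ) ≤ 1 / (64 : ℝ) ^ j := by positivity
      linarith
    · have : x ≤ ((k : ℝ) + 1) / (64 : ℝ) ^ j := by rw [le_div_iff₀ h64]; exact hk2.le
      rw [add_div] at this
      linarith
  have hterm : ∀ d ∈ blk j Q,
      |(WW p E ω d - 1 / (d : ℝ)) * Real.cos (2 * Real.pi * d * θ)
        - (WW p E ω d - 1 / (d : ℝ)) * Real.cos (2 * Real.pi * d * ((k : ℝ) / (64 : ℝ) ^ j))|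
      ≤ 2 * Real.pi * (4 : ℝ) ^ j * (1 / (64 : ℝ) ^ j) := by
    intro d hd
    have hK := hKp d hd
    rw [blk, Finset.mem_filter, Finset.mem_Icc] at hd
    have hdpos : 0 < d := lt_of_lt_of_le (by positivity) hd.1.1
    have hd1 : (1 : ℝ) ≤ d := by exact_mod_cast hdpos
    have hd4 : (d : ℝ) ≤ (4 : ℝ) ^ j := by exact_mod_cast hd.1.2
    have hW0 : 0 ≤ WW p E ω d := by
      unfold WW
      apply div_nonneg _ (by linarith)
      exact Set.indicator_nonneg (fun _ _ => by norm_num) _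
    have hW1 : WW p E ω d ≤ 1 := by
      unfold WW
      rw [div_le_one (by linarith)]
      refine le_trans ?_ hK
      by_cases hw : ω ∈ E d
      · simp [Set.indicator_of_mem hw]
      · simp [Set.indicator_of_notMem hw]
    have hd1' : 1 / (d : ℝ) ≤ 1 := by rw [div_le_one (by linarith)]; exact hd1
    have hd0' : 0 ≤ 1 / (d : ℝ) := by positivity
    have hA : |WW p E ω d - 1 / (d : ℝ)| ≤ 1 := by
      rw [abs_le]; constructor <;> linarith
    rw [← mul_sub, abs_mul]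
    have hB : |Real.cos (2 * Real.pi * d * θ) - Real.cos (2 * Real.pi * d * ((k : ℝ) / (64 : ℝ) ^ j))|
        ≤ 2 * Real.pi * (4 : ℝ) ^ j * (1 / (64 : ℝ) ^ j) := by
      rw [PE_cos d θ, ← hxdef]
      refine (Real.abs_cos_sub_cos_le _ _).trans ?_
      rw [← mul_sub, abs_mul, abs_of_nonneg (by positivity : 0 ≤ 2 * Real.pi * (d : ℝ))]
      apply mul_le_mul _ hdist (abs_nonneg _) (by positivity)
      exact mul_le_mul_of_nonneg_left hd4 (by positivity)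
    calc |WW p E ω d - 1 / (d : ℝ)| * |Real.cos (2 * Real.pi * d * θ) - Real.cos (2 * Real.pi * d * ((k : ℝ) / (64 : ℝ) ^ j))|
        ≤ 1 * (2 * Real.pi * (4 : ℝ) ^ j * (1 / (64 : ℝ) ^ j)) :=
          mul_le_mul hA hB (abs_nonneg _) (by norm_num)
      _ = 2 * Real.pi * (4 : ℝ) ^ j * (1 / (64 : ℝ) ^ j) := one_mul _
  have hcard : ((blk j Q).card : ℝ) ≤ (4 : ℝ) ^ j := by
    have h1 : (blk j Q).card ≤ (Finset.Icc (2 ^ j) (4 ^ j)).card := Finset.card_filter_le _ _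
    rw [Nat.card_Icc] at h1
    have h2 : 1 ≤ 2 ^ j := Nat.one_le_two_pow
    have h4 : 1 ≤ 4 ^ j := Nat.one_le_pow _ _ (by norm_num)
    have h3 : (blk j Q).card ≤ 4 ^ j := by omega
    exact_mod_cast h3
  have hdiff : |∑ d ∈ blk j Q, (WW p E ω d - 1 / (d : ℝ)) * Real.cos (2 * Real.pi * d * θ)
      - ∑ d ∈ blk j Q, (WW p E ω d - 1 / (d : ℝ)) * Real.cos (2 * Real.pi * d * ((k : ℝ) / (64 : ℝ) ^ j))|
      ≤ ε * j := by
    rw [← Finset.sum_sub_distrib]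
    refine (Finset.abs_sum_le_sum_abs _ _).trans ((Finset.sum_le_sum hterm).trans ?_)
    rw [Finset.sum_const, nsmul_eq_mul]
    have h4 : (0 : ℝ) < (4 : ℝ) ^ j := by positivity
    have e64 : (64 : ℝ) ^ j = (4 : ℝ) ^ j * (4 : ℝ) ^ j * (4 : ℝ) ^ j := by
      rw [← mul_pow, ← mul_pow]; norm_num
    have h5 : ((blk j Q).card : ℝ) * (2 * Real.pi * (4 : ℝ) ^ j * (1 / (64 : ℝ) ^ j))
        ≤ (4 : ℝ) ^ j * (2 * Real.pi * (4 : ℝ) ^ j * (1 / (64 : ℝ) ^ j)) :=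
      mul_le_mul_of_nonneg_right hcard (by positivity)
    refine h5.trans ?_
    have h6 : (4 : ℝ) ^ j * (2 * Real.pi * (4 : ℝ) ^ j * (1 / (64 : ℝ) ^ j)) = 2 * Real.pi / (4 : ℝ) ^ j := by
      rw [e64]; field_simp
    rw [h6, div_le_iff₀ h4]
    have := Real.pi_lt_d2
    linarith
  have hk' := h k hklt
  have := abs_sub_abs_le_abs_sub
    (∑ d ∈ blk j Q, (WW p E ω d - 1 / (d : ℝ)) * Real.cos (2 * Real.pi * d * θ))
    (∑ d ∈ blk j Q, (WW p E ω d - 1 / (d : ℝ)) * Real.cos (2 * Real.pi * d * ((k : ℝ) / (64 : ℝ) ^ j)))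
  linarith

private theorem PF_pow (j : ℕ) : (64 : ℝ) ^ j * (2 * Real.exp (-(6 * (j : ℝ)))) ≤ 2 * (Real.exp (-1)) ^ j := by
  have h64 : (64 : ℝ) ≤ Real.exp 5 := by
    have h1 : (2.7182818283 : ℝ) < Real.exp 1 := Real.exp_one_gt_d9
    have h2 : Real.exp 5 = (Real.exp 1) ^ 5 := by
      rw [← Real.exp_nat_mul]; norm_num
    rw [h2]
    have h3 : (2.7 : ℝ) ^ 5 ≤ (Real.exp 1) ^ 5 := pow_le_pow_left₀ (by norm_num) (by linarith) 5
    have h4 : (64 : ℝ) ≤ (2.7 : ℝ) ^ 5 := by norm_num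
    linarith
  have h1 : (64 : ℝ) ^ j ≤ (Real.exp 5) ^ j := pow_le_pow_left₀ (by norm_num) h64 j
  have h2 : Real.exp (-(6 * (j : ℝ))) = (Real.exp (-6)) ^ j := by
    rw [← Real.exp_nat_mul]; congr 1; ring
  rw [h2]
  calc (64 : ℝ) ^ j * (2 * (Real.exp (-6)) ^ j) ≤ (Real.exp 5) ^ j * (2 * (Real.exp (-6)) ^ j) :=
        mul_le_mul_of_nonneg_right h1 (by positivity)
    _ = 2 * ((Real.exp 5 * Real.exp (-6)) ^ j) := by rw [mul_pow]; ring
    _ = 2 * (Real.exp (-1)) ^ j := by rw [← Real.exp_add]; norm_num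

private theorem PF_one {Ω : Type} [MeasurableSpace Ω] (μ : Measure Ω) [IsProbabilityMeasure μ]
    (p : ℕ → ℝ) (E : ℕ → Set Ω) (hp : ∀ n, 0 ≤ p n ∧ p n ≤ 1)
    (hpt : Tendsto (fun n : ℕ => (n : ℝ) * p n) atTop atTop)
    (hE : ∀ n, MeasurableSet (E n)) (hi : iIndepSet E μ)
    (hμ : ∀ n, μ (E n) = ENNReal.ofReal (p n)) (Q : ℕ) (ε : ℝ) (hε : 0 < ε) (hε1 : ε ≤ 1) :
    ∀ᵐ ω ∂μ, ∃ j0 : ℕ, ∀ j : ℕ, j0 ≤ j → ∀ θ : ℝ,
      |∑ d ∈ blk j Q, (WW p E ω d - 1 / (d : ℝ)) * Real.cos (2 * Real.pi * d * θ)| ≤ 2 * ε * j := by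
  set K : ℝ := 48 / ε ^ 2 with hKdef
  have hε2 : ε ^ 2 ≤ 1 := by nlinarith
  have hK : 1 ≤ K := by
    rw [hKdef, le_div_iff₀ (by positivity)]
    linarith
  obtain ⟨n0, hn0⟩ := (Filter.tendsto_atTop_atTop.mp hpt) K
  set s : ℕ → Set Ω := fun j => if n0 ≤ j ∧ 1 ≤ j then
    ⋃ k ∈ Finset.range (64 ^ j), {ω | ε * j ≤ |∑ d ∈ blk j Q, (WW p E ω d - 1 / (d : ℝ)) *
      Real.cos (2 * Real.pi * d * ((k : ℝ) / (64 : ℝ) ^ j))|} else ∅ with hs
  have hblk : ∀ j, n0 ≤ j → ∀ d ∈ blk j Q, K ≤ (d : ℝ) * p d := by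
    intro j hj d hd
    rw [blk, Finset.mem_filter, Finset.mem_Icc] at hd
    apply hn0 d
    have : j < 2 ^ j := Nat.lt_two_pow_self
    omega
  have hbound : ∀ j, μ (s j) ≤ ENNReal.ofReal (2 * (Real.exp (-1)) ^ j) := by
    intro j
    rw [hs]
    simp only
    split_ifs with hcond
    · refine (measure_biUnion_finset_le _ _).trans ?_
      have h1 : ∀ k ∈ Finset.range (64 ^ j),
          μ {ω | ε * j ≤ |∑ d ∈ blk j Q, (WW p E ω d - 1 / (d : ℝ)) *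
            Real.cos (2 * Real.pi * d * ((k : ℝ) / (64 : ℝ) ^ j))|}
          ≤ ENNReal.ofReal (2 * Real.exp (-(6 * (j : ℝ)))) := by
        intro k _
        have h2 := blkTail μ p E (fun n => (hp n).1) hE hi hμ j Q hcond.2 K ε hK hε hε1
          (hblk j hcond.1) ((k : ℝ) / (64 : ℝ) ^ j)
        have e : ε ^ 2 * K * j / 8 = 6 * (j : ℝ) := by
          rw [hKdef]; field_simp; ring
        rwa [e] at h2
      refine (Finset.sum_le_sum h1).trans ?_
      rw [Finset.sum_const, Finset.card_range, nsmul_eq_mul]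
      have h3 : ((64 ^ j : ℕ) : ENNReal) = ENNReal.ofReal ((64 : ℝ) ^ j) := by
        rw [ENNReal.ofReal_pow (by norm_num)]
        push_cast
        norm_num
      rw [h3, ← ENNReal.ofReal_mul (by positivity)]
      exact ENNReal.ofReal_le_ofReal (PF_pow j)
    · simp
  have hsum : ∑' j, μ (s j) ≠ ⊤ := by
    refine ne_top_of_le_ne_top ?_ (ENNReal.tsum_le_tsum hbound)
    have hsm : Summable (fun j : ℕ => 2 * (Real.exp (-1)) ^ j) := by
      apply Summable.mul_left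
      apply summable_geometric_of_lt_one (Real.exp_pos _).le
      rw [Real.exp_lt_one_iff]
      norm_num
    rw [← ENNReal.ofReal_tsum_of_nonneg (fun j => by positivity) hsm]
    exact ENNReal.ofReal_ne_top
  have hae := ae_eventually_notMem hsum
  filter_upwards [hae] with ω hω
  obtain ⟨j1, hj1⟩ := Filter.eventually_atTop.mp hω
  have hlim : ∃ j2 : ℕ, ∀ j : ℕ, j2 ≤ j → 13 ≤ ε * j * (4 : ℝ) ^ j := by
    obtain ⟨j2, hj2⟩ := exists_nat_ge (13 / ε)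
    refine ⟨j2, fun j hj => ?_⟩
    have h1 : 13 ≤ ε * j := by
      have : (13 : ℝ) / ε ≤ j := hj2.trans (by exact_mod_cast hj)
      rw [div_le_iff₀ hε] at this
      linarith
    have h2 : (1 : ℝ) ≤ (4 : ℝ) ^ j := one_le_pow₀ (by norm_num)
    nlinarith
  obtain ⟨j2, hj2⟩ := hlim
  refine ⟨max (max n0 1) (max j1 j2), fun j hj θ => ?_⟩
  have ha : n0 ≤ j := le_trans (le_trans (le_max_left _ _) (le_max_left _ _)) hj
  have hb : 1 ≤ j := le_trans (le_trans (le_max_right _ _) (le_max_left _ _)) hj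
  have hc : j1 ≤ j := le_trans (le_trans (le_max_left _ _) (le_max_right _ _)) hj
  have hd : j2 ≤ j := le_trans (le_trans (le_max_right _ _) (le_max_right _ _)) hj
  have hns := hj1 j hc
  rw [hs] at hns
  simp only [ha, hb, and_self, if_true] at hns
  apply grid p E ω j Q ε hε (fun d hd' => le_trans hK (hblk j ha d hd')) (hj2 j hd)
  intro k hk
  by_contra hcon
  apply hns
  simp only [Set.mem_iUnion, Finset.mem_range, Set.mem_setOf_eq]
  exact ⟨k, hk, (not_le.mp hcon).le⟩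

/-- module PF. -/
theorem good_ae {Ω : Type} [MeasurableSpace Ω] (μ : Measure Ω) [IsProbabilityMeasure μ]
    (p : ℕ → ℝ) (E : ℕ → Set Ω) (hp : ∀ n, 0 ≤ p n ∧ p n ≤ 1)
    (hpt : Tendsto (fun n : ℕ => (n : ℝ) * p n) atTop atTop)
    (hE : ∀ n, MeasurableSet (E n)) (hi : iIndepSet E μ)
    (hμ : ∀ n, μ (E n) = ENNReal.ofReal (p n)) :
    ∀ᵐ ω ∂μ, Good {n : ℕ | ω ∈ E n} := by
  have h1 : ∀ Q : ℕ, ∀ n : ℕ, ∀ᵐ ω ∂μ, ∃ j0 : ℕ, ∀ j : ℕ, j0 ≤ j → ∀ θ : ℝ,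
      |∑ d ∈ blk j Q, (WW p E ω d - 1 / (d : ℝ)) * Real.cos (2 * Real.pi * d * θ)|
        ≤ 2 * (1 / ((n : ℝ) + 1)) * j := by
    intro Q n
    apply PF_one μ p E hp hpt hE hi hμ Q (1 / ((n : ℝ) + 1)) (by positivity)
    rw [div_le_one (by positivity)]
    have : (0 : ℝ) ≤ n := Nat.cast_nonneg n
    linarith
  have h2 : ∀ᵐ ω ∂μ, ∀ Q : ℕ, ∀ n : ℕ, ∃ j0 : ℕ, ∀ j : ℕ, j0 ≤ j → ∀ θ : ℝ,
      |∑ d ∈ blk j Q, (WW p E ω d - 1 / (d : ℝ)) * Real.cos (2 * Real.pi * d * θ)|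
        ≤ 2 * (1 / ((n : ℝ) + 1)) * j := by
    rw [ae_all_iff]
    intro Q
    rw [ae_all_iff]
    exact h1 Q
  filter_upwards [h2] with ω hω
  refine ⟨fun d => WW p E ω d, ?_, ?_, ?_⟩
  · intro d
    unfold WW
    apply div_nonneg (Set.indicator_nonneg (fun _ _ => by norm_num) _)
    exact mul_nonneg (Nat.cast_nonneg d) (hp d).1
  · intro d hd
    by_contra hcon
    apply hd
    have hcon' : ω ∉ E d := hcon
    simp [WW, Set.indicator_of_notMem hcon']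
  · intro Q _ ε hε
    obtain ⟨n, hn⟩ := exists_nat_ge (2 / ε)
    obtain ⟨j0, hj0⟩ := hω Q n
    refine ⟨j0, fun j hj θ => (hj0 j hj θ).trans ?_⟩
    apply mul_le_mul_of_nonneg_right _ (Nat.cast_nonneg j)
    rw [div_le_iff₀ hε] at hn
    rw [mul_one_div, div_le_iff₀ (by positivity)]
    nlinarith

end Pool.Agent.RDf
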