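import Pool.Agent.RDf.Core
import Pool.Agent.RDf.Prob

set_option autoImplicit false

namespace Pool.Agent.RDf

open Finset Filter MeasureTheory ProbabilityTheory

/-- Random differences at the optimal sparsity. -/
theorem main :
    ∀ (Ω : Type) [MeasurableSpace Ω] (μ : Measure Ω) [IsProbabilityMeasure μ]
      (p : ℕ → ℝ) (E : ℕ → Set Ω),
      (∀ n, 0 ≤ p n ∧ p n ≤ 1) →
      Tendsto (fun n : ℕ => (n : ℝ) * p n) atTop atTop →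
      (∀ n, MeasurableSet (E n)) →
      iIndepSet E μ →
      (∀ n, μ (E n) = ENNReal.ofReal (p n)) →
      ∀ᵐ ω ∂μ, ∀ r : ℕ, 1 ≤ r → ∀ A : Set ℕ,
        (∃ ε : ℝ, 0 < ε ∧ ∃ᶠ N : ℕ in atTop, (tau r + ε) * (N : ℝ) < ((A ∩ Set.Iio N).ncard : ℝ)) →
        ∃ a d : ℕ, 0 < d ∧ ω ∈ E d ∧ ∀ i : ℕ, i ≤ r → a + i * d ∈ A := by
  intro Ω _ μ _ p E hp hpt hE hi hμ
  filter_upwards [good_ae μ p E hp hpt hE hi hμ] with ω hω
  intro r hr A ⟨ε, hε, hA⟩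
  exact det _ hω r hr A ε hε hA

/-- Two colours, four terms. -/
theorem mainCol :
    ∀ (Ω : Type) [MeasurableSpace Ω] (μ : Measure Ω) [IsProbabilityMeasure μ]
      (p : ℕ → ℝ) (E : ℕ → Set Ω),
      (∀ n, 0 ≤ p n ∧ p n ≤ 1) →
      Tendsto (fun n : ℕ => (n : ℝ) * p n) atTop atTop →
      (∀ n, MeasurableSet (E n)) →
      iIndepSet E μ →
      (∀ n, μ (E n) = ENNReal.ofReal (p n)) →
      ∀ᵐ ω ∂μ, ∀ A : Set ℕ,
        ∃ a d : ℕ, 0 < d ∧ ω ∈ E d ∧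
          ((∀ i : ℕ, i ≤ 3 → a + i * d ∈ A) ∨ (∀ i : ℕ, i ≤ 3 → a + i * d ∉ A)) := by
  intro Ω _ μ _ p E hp hpt hE hi hμ
  filter_upwards [good_ae μ p E hp hpt hE hi hμ] with ω hω
  intro A
  exact detCol _ hω A

end Pool.Agent.RDf
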